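import Pool.Agent.Lib.MP_17a322_nt.VDL.CJ1
import Pool.Agent.Lib.MP_17a322_nt.VG.C11

/-!
Joint vanishing conditions (coordinates of both types): the coefficients of the linear equations.
-/

universe u

namespace Pool.Agent.Lib.MP_17a322_nt.VG.JG

open MvPolynomial Height
open Pool.Agent.Lib.MP_17a322_nt.RO
open Pool.Agent.Lib.MP_17a322_nt.VJ
open Pool.Agent.Lib.MP_17a322_nt.VN
open Pool.Agent.Lib.MP_17a322_nt.VDL

/-- The coefficient of the unknown `F a ν` in the linear equation for the exponents `q`, `β`. -/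
noncomputable def MCJ {K : Type*} [Field K] {k e m : ℕ} (ρ : Fin m → REP K (k + 1) e)
    (W : Fin (k + 1) → CT K) (χ : Fin (k + 1) → Bool) (j b : Fin m → ℕ)
    (c ε : Fin m → Fin (k + 1) → Bool) (l : Fin m → Fin (e + 1)) (q : Fin (k + 1) → ℕ)
    (β : Fin m → Fin (k + 1) → ℕ) (a : Fin (k + 1) → ℕ) (ν : Fin m → Fin (k + 1) → ℕ) : K :=
  coeff (Finsupp.equivFunOnFinite.symm q) ((∏ t, X t ^ a t) *
    ∏ i, cx (GG (ρ i) (UU W χ (j i) (b i) (c i) (ε i) (ν i)) (l i)) (β i))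

/-- The linear equations for the auxiliary polynomial: `m` blocks, `b = N * 4 ^ J`,
`b_i = N * 4 ^ (J - j i)`, JOINT conditions of weight `m * 4 ^ J`. -/
def CCJ {K : Type*} [Field K] {k e m : ℕ} (ρ : Fin m → REP K (k + 1) e)
    (W : Fin (k + 1) → CT K) (χ : Fin (k + 1) → Bool) (N J : ℕ) (j : Fin m → ℕ)
    (F : (Fin (k + 1) → ℕ) → (Fin m → Fin (k + 1) → ℕ) → K) : Prop :=
  ∀ (c ε : Fin m → Fin (k + 1) → Bool) (l : Fin m → Fin (e + 1)) (q : Fin (k + 1) → ℕ)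
    (β : Fin m → Fin (k + 1) → ℕ), ∑ i, 4 ^ j i * β i 0 < m * 4 ^ J →
    ∑ a ∈ box (fun _ : Fin (k + 1) => N * 4 ^ J + 1),
      ∑ ν ∈ BB (fun i : Fin m => N * 4 ^ (J - j i) + 1),
        F a ν * MCJ ρ W χ j (fun i => N * 4 ^ (J - j i)) c ε l q β a ν = 0

/-- The joint vanishing conditions of weight `T` for the family `Φ` with values in the `L`-algebra
`A`, at the point `x0`. -/
def ORJ {K : Type*} [Field K] {k e m : ℕ} (ρ : Fin m → REP K (k + 1) e)
    (W : Fin (k + 1) → CT K) (χ : Fin (k + 1) → Bool) (j b : Fin m → ℕ) (T : ℕ)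
    {L : Type*} [Field L] [Algebra K L] {A : Type*} [CommRing A] [Algebra L A]
    (Φ : (Fin m → Fin (k + 1) → ℕ) → A) (x0 : Fin (k + 1) → L) : Prop :=
  ∀ (c ε : Fin m → Fin (k + 1) → Bool) (l : Fin m → Fin (e + 1))
    (β : Fin m → Fin (k + 1) →₀ ℕ), ∑ i, 4 ^ j i * β i 0 < T →
    ∑ ν ∈ BB (fun i : Fin m => b i + 1), Φ ν * algebraMap L A
      (∏ i, coeff (β i) (spx x0 (GG (ρ i) (UU W χ (j i) (b i) (c i) (ε i) (ν i)) (l i)))) = 0

/-- The linear equations give the joint vanishing conditions. -/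
theorem ORJ_of_CCJ {K L : Type*} [Field K] [Field L] [Algebra K L] {A : Type*} [CommRing A]
    [Algebra L A] {k e m : ℕ} (ρ : Fin m → REP K (k + 1) e)
    (W : Fin (k + 1) → CT K) (χ : Fin (k + 1) → Bool) (N J : ℕ) (j : Fin m → ℕ)
    (F : (Fin (k + 1) → ℕ) → (Fin m → Fin (k + 1) → ℕ) → K) (hF : CCJ ρ W χ N J j F)
    (x0 : Fin (k + 1) → L) :
    ORJ ρ W χ j (fun i => N * 4 ^ (J - j i)) (m * 4 ^ J)
      (fun ν => algebraMap L A (∑ a ∈ box (fun _ : Fin (k + 1) => N * 4 ^ J + 1),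
        (∏ t, x0 t ^ a t) * algebraMap K L (F a ν))) x0 := by
  classical
  intro c ε l β hβ
  obtain ⟨Q, hQ⟩ : ∃ Q : (Fin (k + 1) → ℕ) → (Fin m → Fin (k + 1) → ℕ) →
      MvPolynomial (Fin (k + 1)) K, Q = fun a ν => (∏ t, X t ^ a t) *
        ∏ i, cx (GG (ρ i) (UU W χ (j i) (N * 4 ^ (J - j i)) (c i) (ε i) (ν i)) (l i)) (β i) :=
    ⟨_, rfl⟩
  have h0 : ∑ a ∈ box (fun _ : Fin (k + 1) => N * 4 ^ J + 1),
      ∑ ν ∈ BB (fun i : Fin m => N * 4 ^ (J - j i) + 1), C (F a ν) * Q a ν = 0 := by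
    refine MvPolynomial.ext _ _ fun q => ?_
    have h1 := hF c ε l q (fun i => β i) hβ
    rw [coeff_zero, coeff_sum, ← h1]
    refine Finset.sum_congr rfl fun a _ => ?_
    rw [coeff_sum]
    refine Finset.sum_congr rfl fun ν _ => ?_
    rw [coeff_C_mul, hQ]
    unfold MCJ
    have h2 : Finsupp.equivFunOnFinite.symm (q : Fin (k + 1) → ℕ) = q :=
      Finsupp.ext fun t => rfl
    rw [h2]
  have h3 := congrArg (aeval x0) h0
  rw [map_zero, map_sum] at h3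
  have h4 : ∑ ν ∈ BB (fun i : Fin m => N * 4 ^ (J - j i) + 1),
      (∑ a ∈ box (fun _ : Fin (k + 1) => N * 4 ^ J + 1),
        (∏ t, x0 t ^ a t) * algebraMap K L (F a ν)) *
      (∏ i, coeff (β i) (spx x0 (GG (ρ i)
        (UU W χ (j i) (N * 4 ^ (J - j i)) (c i) (ε i) (ν i)) (l i)))) = 0 := by
    rw [← h3]
    simp only [map_sum]
    rw [Finset.sum_comm]
    refine Finset.sum_congr rfl fun ν _ => ?_
    rw [Finset.sum_mul]
    refine Finset.sum_congr rfl fun a _ => ?_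
    rw [hQ]
    simp only [map_mul, map_prod, map_pow, aeval_X, aeval_C, aeval_cx]
    ring
  calc _ = algebraMap L A (∑ ν ∈ BB (fun i : Fin m => N * 4 ^ (J - j i) + 1),
      (∑ a ∈ box (fun _ : Fin (k + 1) => N * 4 ^ J + 1),
        (∏ t, x0 t ^ a t) * algebraMap K L (F a ν)) *
      (∏ i, coeff (β i) (spx x0 (GG (ρ i)
        (UU W χ (j i) (N * 4 ^ (J - j i)) (c i) (ε i) (ν i)) (l i))))) := by
        rw [map_sum]
        refine Finset.sum_congr rfl fun ν _ => ?_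
        rw [map_mul]
    _ = 0 := by rw [h4, map_zero]

end Pool.Agent.Lib.MP_17a322_nt.VG.JG
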