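import Pool.Agent.Lib.MP_17a322_nt.VDG.CJ1
import Pool.Agent.Lib.MP_17a322_nt.VG.C02
import Pool.Agent.Lib.MP_17a322_nt.VG.C03
import Pool.Agent.Lib.MP_17a322_nt.VN.C10

/-!
The coefficients of the linear system: degrees, sizes, height of the matrix.
-/

universe u

namespace Pool.Agent.Lib.MP_17a322_nt.VG.JG

open MvPolynomial Height
open Pool.Agent.Lib.MP_17a322_nt.RO
open Pool.Agent.Lib.MP_17a322_nt.VJ
open Pool.Agent.Lib.MP_17a322_nt.VN
open Pool.Agent.Lib.MP_17a322_nt.VDL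

private theorem CJ2_deg {K : Type*} [Field K] {k e : ℕ} (ρ : REP K (k + 1) e) {D : ℕ}
    (hD : ρ.Deg D) (W : Fin (k + 1) → CT K) (χ : Fin (k + 1) → Bool) (j b : ℕ)
    (c ε : Fin (k + 1) → Bool) (l : Fin (e + 1)) (μ : Fin (k + 1) → ℕ) (hμ : ∀ t, μ t ≤ b)
    (t : Fin (k + 1)) :
    degreeOf (Sum.inl t) (GG ρ (UU W χ j b c ε μ) l) ≤ 2 * (b * 4 ^ j) ∧
      degreeOf (Sum.inr t) (GG ρ (UU W χ j b c ε μ) l) ≤ 2 * (k + 1) * b * D := by
  have hdeg := UU_degree W χ j b c ε μ hμ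
  refine ⟨(GG_degree_inl ρ (UU W χ j b c ε μ) l t).trans (hdeg t).1, ?_⟩
  have h2 : ∑ t, degreeOf (Sum.inr t) (UU W χ j b c ε μ) ≤ (k + 1) * (2 * b) := by
    refine (Finset.sum_le_sum fun t _ => (hdeg t).2).trans ?_
    rw [Finset.sum_const, Finset.card_univ, Fintype.card_fin, smul_eq_mul]
  have h3 := GG_degree_inr ρ (UU W χ j b c ε μ) h2 t
      (fun j l m => (degreeOf_le_totalDegree _ _).trans (hD.2.2 j l m)) l
  refine h3.trans (le_of_eq ?_)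
  ring

private theorem CJ2_monX {K : Type*} [Field K] {n : ℕ} (a : Fin n → ℕ) :
    (∏ t, (X t : MvPolynomial (Fin n) K) ^ a t) =
      monomial (Finsupp.equivFunOnFinite.symm a) 1 := by
  rw [monomial_eq, Finsupp.prod_fintype _ _ (fun i => pow_zero _), C_1, one_mul]
  rfl

theorem MCJ_zero {K : Type*} [Field K] {k e m : ℕ} (ρ : Fin m → REP K (k + 1) e) {D : ℕ}
    (hD : ∀ i, (ρ i).Deg D) (W : Fin (k + 1) → CT K) (χ : Fin (k + 1) → Bool)
    {N J : ℕ} {j : Fin m → ℕ} (hj : ∀ i, j i ≤ J) (c ε : Fin m → Fin (k + 1) → Bool)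
    (l : Fin m → Fin (e + 1)) (q : Fin (k + 1) → ℕ) (β : Fin m → Fin (k + 1) → ℕ)
    (a : Fin (k + 1) → ℕ) (ν : Fin m → Fin (k + 1) → ℕ)
    (ha : a ∈ box (fun _ : Fin (k + 1) => N * 4 ^ J + 1))
    (hν : ν ∈ BB (fun i : Fin m => N * 4 ^ (J - j i) + 1))
    (h : MCJ ρ W χ j (fun i => N * 4 ^ (J - j i)) c ε l q β a ν ≠ 0) :
    q ∈ box (fun _ : Fin (k + 1) => (2 * m + 1) * (N * 4 ^ J) + 1) ∧
      β ∈ BB (fun i : Fin m => 2 * (k + 1) * (N * 4 ^ (J - j i)) * D + 1) := by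
  classical
  have hν' : ∀ i t, ν i t ≤ N * 4 ^ (J - j i) := fun i t =>
    Nat.lt_succ_iff.1 ((mem_BB _ _).1 hν i t)
  have ha' : ∀ t, a t ≤ N * 4 ^ J := fun t => Nat.lt_succ_iff.1 ((mem_box _ _).1 ha t)
  have hbj : ∀ i, N * 4 ^ (J - j i) * 4 ^ j i = N * 4 ^ J := by
    intro i
    rw [mul_assoc, ← pow_add, Nat.sub_add_cancel (hj i)]
  have hdeg := fun i t => CJ2_deg (ρ i) (hD i) W χ (j i) (N * 4 ^ (J - j i)) (c i) (ε i) (l i)
    (ν i) (hν' i) t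
  unfold MCJ at h
  refine ⟨(mem_box _ _).2 fun t => ?_, (mem_BB _ _).2 fun i t => ?_⟩
  · have h1 := monomial_le_degreeOf t (mem_support_iff.2 h)
    have h2 : q t ≤ degreeOf t ((∏ t, (X t : MvPolynomial (Fin (k + 1)) K) ^ a t) *
      ∏ i, cx (GG (ρ i) (UU W χ (j i) (N * 4 ^ (J - j i)) (c i) (ε i) (ν i)) (l i)) (β i)) := h1
    have h3 : degreeOf t (∏ t, (X t : MvPolynomial (Fin (k + 1)) K) ^ a t) ≤ a t := by
      rw [CJ2_monX, degreeOf_le_iff]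
      intro y hy
      have h4 := support_monomial_subset hy
      rw [Finset.mem_singleton] at h4
      rw [h4]
      exact le_rfl
    have h4 : degreeOf t (∏ i, cx (GG (ρ i) (UU W χ (j i) (N * 4 ^ (J - j i)) (c i) (ε i) (ν i))
        (l i)) (β i)) ≤ 2 * m * (N * 4 ^ J) := by
      refine (degreeOf_prod_le _ _ _).trans ?_
      have h5 : ∀ i ∈ (Finset.univ : Finset (Fin m)), degreeOf t (cx (GG (ρ i)
          (UU W χ (j i) (N * 4 ^ (J - j i)) (c i) (ε i) (ν i)) (l i)) (β i)) ≤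
          2 * (N * 4 ^ J) := by
        intro i _
        refine (degreeOf_cx _ _ t).trans ((hdeg i t).1.trans ?_)
        rw [hbj i]
      refine (Finset.sum_le_sum h5).trans (le_of_eq ?_)
      rw [Finset.sum_const, Finset.card_univ, Fintype.card_fin, smul_eq_mul]
      ring
    have h5 := h2.trans ((degreeOf_mul_le _ _ _).trans (Nat.add_le_add h3 h4))
    have h6 := ha' t
    have h7 : (2 * m + 1) * (N * 4 ^ J) = N * 4 ^ J + 2 * m * (N * 4 ^ J) := by ring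
    omega
  · have h1 : cx (GG (ρ i) (UU W χ (j i) (N * 4 ^ (J - j i)) (c i) (ε i) (ν i)) (l i)) (β i) ≠
        0 := by
      intro h2
      apply h
      have h3 : ∏ i, cx (GG (ρ i) (UU W χ (j i) (N * 4 ^ (J - j i)) (c i) (ε i) (ν i)) (l i))
          (β i) = 0 := Finset.prod_eq_zero (Finset.mem_univ i) h2
      rw [h3, mul_zero, coeff_zero]
    exact Nat.lt_succ_iff.2 ((cx_ne_zero h1 t).trans (hdeg i t).2)

private theorem CJ2_le {K : Type*} [Field K] (v : AbsoluteValue K ℝ) {k e : ℕ}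
    (ρ : REP K (k + 1) e) (W : Fin (k + 1) → CT K) (χ : Fin (k + 1) → Bool)
    (j b : ℕ) (c ε : Fin (k + 1) → Bool) (l : Fin (e + 1)) (β μ : Fin (k + 1) → ℕ)
    (hμ : ∀ t, μ t ≤ b) :
    NV v (cx (GG ρ (UU W χ j b c ε μ) l) β) ≤ (∏ t, lc (W t) v) ^ (49 * (b * 4 ^ j)) *
      (cst v (e + 1) * ρ.RB v) ^ (2 * (k + 1) * b) := by
  classical
  have hdeg := UU_degree W χ j b c ε μ hμ
  have h2 : ∑ t, degreeOf (Sum.inr t) (UU W χ j b c ε μ) ≤ 2 * (k + 1) * b := by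
    refine (Finset.sum_le_sum fun t _ => (hdeg t).2).trans (le_of_eq ?_)
    rw [Finset.sum_const, Finset.card_univ, Fintype.card_fin, smul_eq_mul]
    ring
  have h3 := GG_NV v ρ (UU W χ j b c ε μ) h2 (one_le_RB ρ v) (fun j l m => M_le_RB ρ v j l m) l
  have h4 := NV_UU (K := K) (L := K) v W χ j b c ε μ hμ
  rw [Algebra.algebraMap_self, MvPolynomial.map_id] at h4
  have hc : 0 ≤ cst v (e + 1) * ρ.RB v :=
    mul_nonneg (cst_nonneg v _) (zero_le_one.trans (one_le_RB ρ v))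
  exact (NV_cx v _ β).trans (h3.trans (mul_le_mul_of_nonneg_right h4 (pow_nonneg hc _)))

theorem MCJ_le {K : Type*} [Field K] (v : AbsoluteValue K ℝ) {k e m : ℕ}
    (ρ : Fin m → REP K (k + 1) e) (W : Fin (k + 1) → CT K)
    (χ : Fin (k + 1) → Bool) {N J : ℕ} {j : Fin m → ℕ} (hj : ∀ i, j i ≤ J)
    (c ε : Fin m → Fin (k + 1) → Bool) (l : Fin m → Fin (e + 1)) (q : Fin (k + 1) → ℕ)
    (β : Fin m → Fin (k + 1) → ℕ) (a : Fin (k + 1) → ℕ) (ν : Fin m → Fin (k + 1) → ℕ)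
    (hν : ∀ i t, ν i t ≤ N * 4 ^ (J - j i)) :
    v (MCJ ρ W χ j (fun i => N * 4 ^ (J - j i)) c ε l q β a ν) ≤
      (∏ t, lc (W t) v) ^ (49 * (m * (N * 4 ^ J))) *
        ∏ i, (cst v (e + 1) * (ρ i).RB v) ^ (2 * (k + 1) * (N * 4 ^ (J - j i))) := by
  classical
  have hS := SN_NV v (σ := Fin (k + 1))
  have hbj : ∀ i, N * 4 ^ (J - j i) * 4 ^ j i = N * 4 ^ J := by
    intro i
    rw [mul_assoc, ← pow_add, Nat.sub_add_cancel (hj i)]
  unfold MCJ
  refine (coeff_le_NV v _ _).trans ?_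
  refine (hS.mul _ _).trans ?_
  rw [CJ2_monX, NV_monomial, map_one, one_mul]
  refine (hS.prod_le _ _).trans ?_
  refine (Finset.prod_le_prod (fun i _ => hS.nonneg _) fun i _ =>
    CJ2_le v (ρ i) W χ (j i) (N * 4 ^ (J - j i)) (c i) (ε i) (l i) (β i) (ν i)
      (hν i)).trans (le_of_eq ?_)
  rw [Finset.prod_mul_distrib]
  congr 1
  have h1 : ∀ i ∈ (Finset.univ : Finset (Fin m)),
      (∏ t, lc (W t) v) ^ (49 * (N * 4 ^ (J - j i) * 4 ^ j i)) =
        (∏ t, lc (W t) v) ^ (49 * (N * 4 ^ J)) := by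
    intro i _
    rw [hbj i]
  rw [Finset.prod_congr rfl h1, Finset.prod_const, Finset.card_univ, Fintype.card_fin, ← pow_mul]
  congr 1
  ring

theorem matrix_heightJ {K : Type u} [Field K] [NumberField K] {k : ℕ}
    (W : Fin (k + 1) → CT K) (e m N : ℕ) :
    ∃ C : ℝ, 0 ≤ C ∧ ∀ (J : ℕ) (j : Fin m → ℕ) (ρ : Fin m → REP K (k + 1) e)
      (χ : Fin (k + 1) → Bool), (∀ i, j i ≤ J) → ∀ (ι : Type) [Finite ι] (x : ι → K),
      (∀ p, x p = 0 ∨ ∃ (c ε : Fin m → Fin (k + 1) → Bool) (l : Fin m → Fin (e + 1))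
        (q : Fin (k + 1) → ℕ) (β : Fin m → Fin (k + 1) → ℕ) (a : Fin (k + 1) → ℕ)
        (ν : Fin m → Fin (k + 1) → ℕ), (∀ i t, ν i t ≤ N * 4 ^ (J - j i)) ∧
          x p = MCJ ρ W χ j (fun i => N * 4 ^ (J - j i)) c ε l q β a ν) →
      logHeight x ≤ C * (4 ^ J + ∑ i, 4 ^ (J - j i) * (ρ i).ht) := by
  classical
  choose C hC0 hC using fun t : Fin (k + 1) => gs_log_lc_le (K := K) (W t)
  set f : ℝ := (Module.finrank ℚ K : ℝ) with hf
  have hf0 : 0 ≤ f := Nat.cast_nonneg _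
  have hle0 : 0 ≤ Real.log ((e + 1 : ℕ) : ℝ) := Real.log_natCast_nonneg _
  have hCs : 0 ≤ ∑ t, C t * f := Finset.sum_nonneg fun t _ => mul_nonneg (hC0 t) hf0
  set A : ℝ := 49 * m * N * ∑ t, C t * f with hA
  set B : ℝ := m * (2 * (k + 1) * N * (f * Real.log ((e + 1 : ℕ) : ℝ))) with hB
  set E : ℝ := 2 * (k + 1) * N with hE
  have hA0 : 0 ≤ A := by positivity
  have hB0 : 0 ≤ B := by positivity
  have hE0 : 0 ≤ E := by positivity
  refine ⟨A + B + E, by positivity, ?_⟩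
  intro J j ρ χ hj ι _ x hx
  have hht : 0 ≤ ∑ i, (4 : ℝ) ^ (J - j i) * (ρ i).ht :=
    Finset.sum_nonneg fun i _ => mul_nonneg (by positivity) (ht_nonneg (ρ i))
  have h4J : (0 : ℝ) ≤ 4 ^ J := by positivity
  by_cases hx0 : x = 0
  · rw [hx0, logHeight_zero]
    positivity
  rw [← gs_log_iSup hx0]
  let lcf : Fin (k + 1) → AbsoluteValue K ℝ → ℝ := fun t v => Real.log (lc (W t) v)
  let rbf : Fin m → AbsoluteValue K ℝ → ℝ := fun i v => Real.log ((ρ i).RB v)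
  let csf : AbsoluteValue K ℝ → ℝ := fun v => Real.log (cst v (e + 1))
  have hF1 : FS (fun v : AbsoluteValue K ℝ => ∑ t, ((49 * (m * (N * 4 ^ J)) : ℕ) : ℝ) * lcf t v) :=
    FS_sum _ fun t _ => FS_const_mul _ (FS_log_lc (W t))
  have hF2 : ∀ i : Fin m, FS (fun v : AbsoluteValue K ℝ =>
      ((2 * (k + 1) * (N * 4 ^ (J - j i)) : ℕ) : ℝ) * (csf v + rbf i v)) := fun i =>
    FS_const_mul _ (FS_add (FS_log_cst _) (FS_log_RB (ρ i)))
  have hF3 : FS (fun v : AbsoluteValue K ℝ => ∑ i,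
      ((2 * (k + 1) * (N * 4 ^ (J - j i)) : ℕ) : ℝ) * (csf v + rbf i v)) :=
    FS_sum _ fun i _ => hF2 i
  refine (gs_le (FS_log_iSup hx0) (FS_add hF1 hF3) fun v _ => ?_).trans ?_
  · obtain ⟨p, hp⟩ := Function.ne_iff.mp hx0
    have : Nonempty ι := ⟨p⟩
    have hlc : ∀ t, 1 ≤ lc (W t) v := fun t => one_le_lc (W t) v
    have hlcp : 1 ≤ ∏ t, lc (W t) v := E1_one_le_prod _ _ hlc
    have hcr : ∀ i, 1 ≤ cst v (e + 1) * (ρ i).RB v := fun i =>
      one_le_mul_of_one_le_of_one_le (one_le_cst v (by omega)) (one_le_RB (ρ i) v)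
    have hcrp : ∀ i, 1 ≤ (cst v (e + 1) * (ρ i).RB v) ^ (2 * (k + 1) * (N * 4 ^ (J - j i))) :=
      fun i => one_le_pow₀ (hcr i)
    have hbig : 1 ≤ (∏ t, lc (W t) v) ^ (49 * (m * (N * 4 ^ J))) := one_le_pow₀ hlcp
    have hbig2 : 1 ≤ ∏ i, (cst v (e + 1) * (ρ i).RB v) ^ (2 * (k + 1) * (N * 4 ^ (J - j i))) :=
      E1_one_le_prod _ _ hcrp
    have hpos : 0 < ⨆ i, v (x i) :=
      (v.pos hp).trans_le (le_ciSup (f := fun i => v (x i)) (Set.finite_range _).bddAbove p)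
    have hle : ⨆ i, v (x i) ≤ (∏ t, lc (W t) v) ^ (49 * (m * (N * 4 ^ J))) *
        ∏ i, (cst v (e + 1) * (ρ i).RB v) ^ (2 * (k + 1) * (N * 4 ^ (J - j i))) := by
      refine ciSup_le fun b => ?_
      rcases hx b with hb | ⟨c, ε, l, q, β, a, ν, hν, hxb⟩
      · rw [hb, map_zero]
        positivity
      · rw [hxb]
        exact MCJ_le v ρ W χ hj c ε l q β a ν hν
    have h1 := Real.log_le_log hpos hle
    rw [Real.log_mul (zero_lt_one.trans_le hbig).ne' (zero_lt_one.trans_le hbig2).ne',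
      Real.log_pow, Real.log_prod (fun t _ => (zero_lt_one.trans_le (hlc t)).ne'),
      Real.log_prod (fun i _ => (zero_lt_one.trans_le (hcrp i)).ne'), Finset.mul_sum] at h1
    refine h1.trans (le_of_eq ?_)
    congr 1
    refine Finset.sum_congr rfl fun i _ => ?_
    rw [Real.log_pow, Real.log_mul (zero_lt_one.trans_le (one_le_cst v (by omega))).ne'
      (zero_lt_one.trans_le (one_le_RB (ρ i) v)).ne']
  · rw [gs_add hF1 hF3, gs_sum _ (fun t _ => FS_const_mul _ (FS_log_lc (W t))),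
      gs_sum _ (fun i _ => hF2 i)]
    have h2 : ∀ t : Fin (k + 1), gs (fun v : AbsoluteValue K ℝ =>
        ((49 * (m * (N * 4 ^ J)) : ℕ) : ℝ) * lcf t v) ≤ ((49 * (m * (N * 4 ^ J)) : ℕ) : ℝ) * (C t * f) := by
      intro t
      rw [gs_const_mul]
      exact mul_le_mul_of_nonneg_left (hC t K) (Nat.cast_nonneg _)
    have h3 : ∀ i : Fin m, gs (fun v : AbsoluteValue K ℝ =>
        ((2 * (k + 1) * (N * 4 ^ (J - j i)) : ℕ) : ℝ) * (csf v + rbf i v)) ≤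
        (2 * (k + 1) * N * (f * Real.log ((e + 1 : ℕ) : ℝ))) * 4 ^ J +
          E * (4 ^ (J - j i) * (ρ i).ht) := by
      intro i
      rw [gs_const_mul, gs_add (FS_log_cst _) (FS_log_RB (ρ i))]
      have h4 := gs_log_cst (L := K) (n := e + 1) (by omega)
      rw [NumberField.totalWeight_eq_finrank] at h4
      have h5 : gs (rbf i) = (ρ i).ht := rfl
      have h6 : gs csf ≤ f * Real.log ((e + 1 : ℕ) : ℝ) := h4
      rw [h5]
      have h7 : ((2 * (k + 1) * (N * 4 ^ (J - j i)) : ℕ) : ℝ) * (gs csf + (ρ i).ht) ≤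
          ((2 * (k + 1) * (N * 4 ^ (J - j i)) : ℕ) : ℝ) *
            (f * Real.log ((e + 1 : ℕ) : ℝ) + (ρ i).ht) :=
        mul_le_mul_of_nonneg_left (add_le_add h6 le_rfl) (Nat.cast_nonneg _)
      refine h7.trans ?_
      have h8 : (4 : ℝ) ^ (J - j i) ≤ 4 ^ J :=
        pow_le_pow_right₀ (by norm_num) (Nat.sub_le _ _)
      have h9 : 0 ≤ 2 * ((k : ℝ) + 1) * N * (f * Real.log ((e + 1 : ℕ) : ℝ)) := by positivity
      have h10 := mul_le_mul_of_nonneg_left h8 h9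
      have h11 : ((2 * (k + 1) * (N * 4 ^ (J - j i)) : ℕ) : ℝ) *
            (f * Real.log ((e + 1 : ℕ) : ℝ) + (ρ i).ht) =
          2 * ((k : ℝ) + 1) * N * (f * Real.log ((e + 1 : ℕ) : ℝ)) * 4 ^ (J - j i) +
            E * (4 ^ (J - j i) * (ρ i).ht) := by
        rw [hE, Nat.cast_mul, Nat.cast_mul, Nat.cast_mul, Nat.cast_add, Nat.cast_pow]
        push_cast
        ring
      rw [h11]
      linarith
    have h12 : ∑ i : Fin m, ((2 * (k + 1) * N * (f * Real.log ((e + 1 : ℕ) : ℝ))) * 4 ^ J +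
          E * (4 ^ (J - j i) * (ρ i).ht)) = B * 4 ^ J + E * ∑ i, 4 ^ (J - j i) * (ρ i).ht := by
      rw [Finset.sum_add_distrib, Finset.sum_const, Finset.card_univ, Fintype.card_fin,
        nsmul_eq_mul, ← Finset.mul_sum, hB]
      ring
    have h13 : ∑ t : Fin (k + 1), ((49 * (m * (N * 4 ^ J)) : ℕ) : ℝ) * (C t * f) = A * 4 ^ J := by
      rw [← Finset.mul_sum, hA]
      push_cast
      ring
    have h14 := Finset.sum_le_sum fun t (_ : t ∈ Finset.univ) => h2 t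
    have h15 := Finset.sum_le_sum fun i (_ : i ∈ Finset.univ) => h3 i
    rw [h13] at h14
    rw [h12] at h15
    refine (add_le_add h14 h15).trans ?_
    have h16 : 0 ≤ E * 4 ^ J := mul_nonneg hE0 h4J
    have h17 : 0 ≤ (A + B) * ∑ i, (4 : ℝ) ^ (J - j i) * (ρ i).ht :=
      mul_nonneg (add_nonneg hA0 hB0) hht
    linarith [h16, h17, mul_add (A + B + E) ((4 : ℝ) ^ J) (∑ i, 4 ^ (J - j i) * (ρ i).ht),
      add_mul A B ((4 : ℝ) ^ J), add_mul (A + B) E ((4 : ℝ) ^ J),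
      add_mul (A + B) E (∑ i, (4 : ℝ) ^ (J - j i) * (ρ i).ht)]

end Pool.Agent.Lib.MP_17a322_nt.VG.JG
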