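import Pool.Agent.Lib.MP_17a322_nt.VDG.LG
import Pool.Agent.Lib.MP_17a322_nt.VD.D18
import Pool.Agent.Lib.MP_17a322_nt.VG.F6

/-!
No proximity over `k0` in independent coordinates, away from the boundary.
-/

universe u

namespace Pool.Agent.Lib.MP_17a322_nt.VG.JG

open MvPolynomial Height Filter
open Pool.Agent.Lib.MP_17a322_nt.RO
open Pool.Agent.Lib.MP_17a322_nt.VJ
open Pool.Agent.Lib.MP_17a322_nt.VN
open Pool.Agent.Lib.MP_17a322_nt.VDL

/-- Lower bound for the local gain. -/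
theorem le_gjv {L : Type*} [Field L] (v : AbsoluteValue L ℝ) {m n : ℕ} (hm : 0 < m)
    (j : Fin m → ℕ) (s : Fin m → Fin n → L) (a : Fin m → L) (hs : ∀ i t, v (s i t) ≤ 1) {g : ℝ}
    (hg : ∀ i, 4 ^ j i * g ≤ - Real.log (v (a i))) : g ≤ gjv j s a v := by
  unfold gjv
  rw [if_pos hs]
  have : Nonempty (Fin m) := ⟨⟨0, hm⟩⟩
  refine le_ciInf fun i => ?_
  have h2 : (0 : ℝ) < 4 ^ j i := by positivity
  rw [le_div_iff₀ h2]
  have h3 := hg i
  have h4 : - Real.log (v (a i)) ≤ - Real.log (min 1 (v (a i))) := by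
    rcases le_total 1 (v (a i)) with h | h
    · rw [min_eq_left h, Real.log_one]
      have := Real.log_nonneg h
      linarith
    · rw [min_eq_right h]
  linarith

/-- The loss is small if the coordinates are not close to the boundary. -/
theorem loss_le {L : Type*} [Field L] {m n : ℕ} (hm : 0 < m) (τ : Fin n → Bool) {N : ℝ}
    (hN : 0 ≤ N) (j : Fin m → ℕ) (s : Fin m → Fin n → L) (v : AbsoluteValue L ℝ) {b : ℝ}
    (h : ∀ i, ls τ v (s i) ≤ 4 ^ j i * b) :
    N / m * ∑ i, ((4 : ℝ) ^ j i)⁻¹ * ls τ v (s i) ≤ N * b := by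
  have hm0 : (0 : ℝ) < m := by exact_mod_cast hm
  have h1 : ∑ i, ((4 : ℝ) ^ j i)⁻¹ * ls τ v (s i) ≤ ∑ _i : Fin m, b := by
    refine Finset.sum_le_sum fun i _ => ?_
    have h2 : (0 : ℝ) < 4 ^ j i := by positivity
    have h3 := mul_le_mul_of_nonneg_left (h i) (inv_nonneg.2 h2.le)
    rwa [inv_mul_cancel_left₀ h2.ne'] at h3
  rw [Finset.sum_const, Finset.card_univ, Fintype.card_fin, nsmul_eq_mul] at h1
  have h2 := mul_le_mul_of_nonneg_left h1 (div_nonneg hN hm0.le)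
  refine h2.trans (le_of_eq ?_)
  field_simp

/-- The loss for a part of the coordinates. -/
theorem ls_comp_le {L : Type*} [Field L] {n k : ℕ} (τ : Fin n → Bool) (v : AbsoluteValue L ℝ)
    (s : Fin n → L) (h : ∀ t, v (s t) ≤ 1) (J : Fin k ↪ Fin n) :
    ls (fun t => τ (J t)) v (fun t => s (J t)) ≤ ls τ v s := by
  classical
  unfold ls
  have h0 : ∀ t, 0 ≤ (if τ t then - Real.log (v (s t)) else 0) := by
    intro t
    split_ifs
    · have := Real.log_nonpos (v.nonneg _) (h t)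
      linarith
    · exact le_rfl
  calc ∑ t, (if τ (J t) then - Real.log (v (s (J t))) else 0)
      = ∑ t ∈ Finset.univ.map J, (if τ t then - Real.log (v (s t)) else 0) := by
        rw [Finset.sum_map]
    _ ≤ _ := Finset.sum_le_sum_of_subset_of_nonneg (Finset.subset_univ _) fun t _ _ => h0 t

theorem DSTARG {K : Type u} [Field K] [NumberField K] [DecidableEq K] {n : ℕ}
    (W : Fin n → CT K) (hW : ∀ t, (W t).IsE) (χ : Fin n → Bool)
    (P : ℕ → ∀ t, (W t).Pt) (s y : ℕ → Fin n → K)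
    (hH : Tendsto (fun i => HN (P i)) (hyperfilter ℕ : Filter ℕ) atTop)
    (hP : ∀ i t, (W t).Aff (P i t)) (hs : ∀ i t, CH (χ t) (P i t) (s i t))
    (hy : ∀ i t, y i t ^ 2 = ph (W t) (vc (χ t) (s i t)))
    (S : Finset (NumberField.FinitePlace K))
    (hS : ∀ t, (W t).isTor → ∀ δ : ℝ, 0 < δ → ∀ᶠ i in (hyperfilter ℕ : Filter ℕ),
      ∑ᶠ v : {v : NumberField.FinitePlace K // v ∉ S}, |Real.log (v.1 (s i t))| ≤ δ * HN (P i))
    (v₀ : AbsoluteValue K ℝ) (hv : Pl v₀)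
    (hle : ∀ᶠ i in (hyperfilter ℕ : Filter ℕ), ∀ t, v₀ (s i t) ≤ 1)
    (hls : ∀ δ : ℝ, 0 < δ → ∀ᶠ i in (hyperfilter ℕ : Filter ℕ),
      ls (fun t => (W t).isTor) v₀ (s i) ≤ δ * HN (P i))
    {k : ℕ} (J : Fin (k + 1) ↪ Fin n)
    (hJ : AlgebraicIndependent (k0 K _ hH) fun t => gm fun i => s i (J t))
    (f : MvPolynomial (Fin (k + 1)) (k0 K _ hH)) (hf : f ≠ 0) (a : ℕ → K)
    (ha : gm a = aeval (fun t => gm fun i => s i (J t)) f) (ε : ℝ) (hε : 0 < ε) :
    ∀ᶠ i in (hyperfilter ℕ : Filter ℕ), - Real.log (v₀ (a i)) ≤ ε * HN (P i) := by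
  classical
  by_contra hcon
  rw [not_eventually_iff] at hcon
  have hgain : ∀ᶠ i in (hyperfilter ℕ : Filter ℕ), ε * HN (P i) ≤ - Real.log (v₀ (a i)) :=
    hcon.mono fun i hi => (not_le.mp hi).le
  have hga : gm a ≠ 0 := by
    intro h
    rw [ha] at h
    exact hf ((algebraicIndependent_iff.mp hJ) f h)
  have hane : ∀ᶠ i in (hyperfilter ℕ : Filter ℕ), a i ≠ 0 := gm_ne_zero_iff.mp hga
  by_cases hu : IsUnit f
  · have hC : f = C (coeff 0 f) := by
      have h1 := (isUnit_iff_coeff hf).mp hu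
      refine MvPolynomial.ext _ _ fun m => ?_
      rw [coeff_C]
      split_ifs with hm
      · rw [hm]
      · exact h1 m (Ne.symm hm)
    have hmem : gm a ∈ k0 K _ hH := by
      rw [ha, hC, aeval_C]
      exact (coeff 0 f).2
    rw [mem_k0] at hmem
    obtain ⟨i, ⟨⟨h1, h2⟩, h3⟩, h4⟩ := (((hgain.and hane).and (hmem (ε / 2) (by positivity))).and
      (hH.eventually_gt_atTop 0)).exists
    have h5 := VD.neg_log_le hv (a i) h2
    have h6 : 0 < ε * HN (P i) := mul_pos hε h4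
    have h7 : logHeight₁ (a i) ≤ ε / 2 * HN (P i) := h3
    have h8 : ε / 2 * HN (P i) = ε * HN (P i) / 2 := by ring
    linarith
  obtain ⟨e, ρ₀, hρ₀⟩ := VD.REPEX1 f hf hu
  obtain ⟨D, h, hh, hρ'⟩ := REP_transfer ρ₀
  have hev : ∀ᶠ i in (hyperfilter ℕ : Filter ℕ),
      eval (fun t => s i (J t)) (pr f i) = a i := by
    rw [← gm_eq_iff, gm_eval_pr f fun i t => s i (J t), ha]
  have hC : ∀ᶠ i in (hyperfilter ℕ : Filter ℕ), ∃ ρ : REP K (k + 1) e, ρ.Deg D ∧ ρ.ht ≤ h i ∧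
      eval (fun t => s i (J t)) (ρ.z 0) = a i := by
    filter_upwards [hρ', hev] with i h1 h2
    obtain ⟨ρ', g1, g2, g3⟩ := h1
    refine ⟨ρ', g2, g3, ?_⟩
    rw [g1, hρ₀]
    exact h2
  obtain ⟨N, hN, hS1'⟩ := S1DG (fun t => W (J t)) (fun t => hW (J t)) (fun t => χ (J t)) e D
  obtain ⟨m, D', R₀, C₀, η, hm, hC₀, hη, hS1⟩ := hS1' (ε / 4) (by positivity)
  obtain ⟨δ, hδ, hSI⟩ := SI (fun i t => s i (J t)) (fun t => t) Function.injective_id hJ D'
  obtain ⟨c, hc, hHJ⟩ := HJ_ge W χ P s hH hs J 0 (indep_notMem _ hJ 0)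
  obtain ⟨δ₁, hδ₁d⟩ : ∃ δ₁ : ℝ, δ₁ = ε / (8 * (N + 1)) := ⟨_, rfl⟩
  have hδ₁ : 0 < δ₁ := by
    rw [hδ₁d]
    positivity
  have hNδ : N * (2 * δ₁) ≤ ε / 4 := by
    have h1 : (N + 1) * (2 * δ₁) = ε / 4 := by
      rw [hδ₁d]
      field_simp
      ring
    have h2 : 0 ≤ 2 * δ₁ := by positivity
    linarith
  have hHJt : Tendsto (fun i => HN (T := fun t => W (J t)) (fun t => P i (J t)))
      (hyperfilter ℕ : Filter ℕ) atTop :=
    tendsto_atTop_mono' _ hHJ (hH.const_mul_atTop hc)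
  have hhJ : oH (fun i => HN (T := fun t => W (J t)) (fun t => P i (J t))) h := by
    intro δ' hδ'
    filter_upwards [hh (δ' * c) (by positivity), hHJ] with i h1 h2
    calc h i ≤ δ' * c * HN (P i) := h1
      _ = δ' * (c * HN (P i)) := by ring
      _ ≤ _ := mul_le_mul_of_nonneg_left h2 hδ'.le
  have hlsJ : ∀ᶠ i in (hyperfilter ℕ : Filter ℕ),
      ls (fun t => (W (J t)).isTor) v₀ (fun t => s i (J t)) ≤
        δ₁ * HN (T := fun t => W (J t)) (fun t => P i (J t)) := by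
    filter_upwards [hls (δ₁ * c) (by positivity), hHJ, hle] with i h1 h2 h3
    calc ls (fun t => (W (J t)).isTor) v₀ (fun t => s i (J t))
        ≤ ls (fun t => (W t).isTor) v₀ (s i) :=
          ls_comp_le (fun t => (W t).isTor) v₀ (s i) h3 J
      _ ≤ δ₁ * c * HN (P i) := h1
      _ = δ₁ * (c * HN (P i)) := by ring
      _ ≤ _ := mul_le_mul_of_nonneg_left h2 hδ₁.le
  have hy0 : ∀ᶠ i in (hyperfilter ℕ : Filter ℕ), ∀ t, y i (J t) ≠ 0 := by
    rw [eventually_all]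
    exact fun t => y_ne_zero_CT (W (J t)) (χ (J t)) (fun i => P i (J t)) (fun i => s i (J t))
        (fun i => y i (J t)) (fun i => hs i (J t)) (fun i => hy i (J t)) (hJ.transcendental t)
  obtain ⟨a₀, b₀, j, -, hSb, hCa, hpos, hR1, hR2, hhj, h4j, hpt, hcone⟩ :=
    FRAME (fun t => W (J t)) (fun t => hW (J t)) S (fun i t => P i (J t)) hHJt
      (fun t ht => S_transfer W χ P s hs J S hS hc hHJ t ht) h hhJ
      (fun i => (∃ ρ : REP K (k + 1) e, ρ.Deg D ∧ ρ.ht ≤ h i ∧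
        eval (fun t => s i (J t)) (ρ.z 0) = a i) ∧ (a i ≠ 0 ∧
        ε * HN (P i) ≤ - Real.log (v₀ (a i)) ∧ (∀ t, v₀ (s i t) ≤ 1) ∧
        ls (fun t => (W (J t)).isTor) v₀ (fun t => s i (J t)) ≤
          δ₁ * HN (T := fun t => W (J t)) (fun t => P i (J t))) ∧ (∀ t, y i (J t) ≠ 0) ∧
        ∀ G : MvPolynomial (Fin (k + 1)) K, G ≠ 0 →
          (∀ t, t ∉ Set.range (fun t : Fin (k + 1) => t) → G.degreeOf t = 0) →
          (∀ t, G.degreeOf t ≤ D') → nh G ≤ δ * HN (P i) → eval (fun t => s i (J t)) G ≠ 0)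
      (hC.and ((hane.and (hgain.and (hle.and hlsJ))).and (hy0.and hSI))) m R₀
      (max C₀ (2 * C₀ / δ)) (min η 1) (lt_min hη one_pos)
  choose ρ hρD hρh hρz using fun i => (hSb i).1
  have hJle : ∀ i, HN (T := fun t => W (J t)) (fun t => P i (J t)) ≤ HN (P i) :=
    fun i => HN_le_of_embedding (P i) J
  have hH0 : 0 ≤ HN (T := fun t => W (J t)) (fun t => P a₀ (J t)) := HN_nonneg _
  have hmul : ∀ i, min η 1 * (4 ^ j i * HN (T := fun t => W (J t)) (fun t => P a₀ (J t))) ≤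
      η * (4 ^ j i * HN (T := fun t => W (J t)) (fun t => P a₀ (J t))) := fun i =>
    mul_le_mul_of_nonneg_right (min_le_left _ _) (mul_nonneg (by positivity) hH0)
  have hmul1 : ∀ i, min η 1 * (4 ^ j i * HN (T := fun t => W (J t)) (fun t => P a₀ (J t))) ≤
      1 * (4 ^ j i * HN (T := fun t => W (J t)) (fun t => P a₀ (J t))) := fun i =>
    mul_le_mul_of_nonneg_right (min_le_right _ _) (mul_nonneg (by positivity) hH0)
  have hg : ε / 4 * HN (T := fun t => W (J t)) (fun t => P a₀ (J t)) ≤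
      gBJ (fun t => (W (J t)).isTor) N j (fun i t => s (b₀ i) (J t))
        (fun i => eval (fun t => s (b₀ i) (J t)) ((ρ i).z 0)) := by
    have hle1 : ∀ i t, v₀ (s (b₀ i) (J t)) ≤ 1 := fun i t => (hSb i).2.1.2.2.1 (J t)
    have hg1 : ε / 2 * HN (T := fun t => W (J t)) (fun t => P a₀ (J t)) ≤
        gjv j (fun i t => s (b₀ i) (J t))
          (fun i => eval (fun t => s (b₀ i) (J t)) ((ρ i).z 0)) v₀ := by
      refine le_gjv v₀ hm j _ _ hle1 fun i => ?_
      rw [hρz i]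
      have h1 : (4 : ℝ) ^ j i * HN (T := fun t => W (J t)) (fun t => P a₀ (J t)) ≤
          2 * HN (P (b₀ i)) :=
        (h4j i).trans (mul_le_mul_of_nonneg_left (hJle (b₀ i)) (by norm_num))
      have h2 := (hSb i).2.1.2.1
      have h3 := mul_le_mul_of_nonneg_left h1 (show (0 : ℝ) ≤ ε / 2 by positivity)
      calc (4 : ℝ) ^ j i * (ε / 2 * HN (T := fun t => W (J t)) (fun t => P a₀ (J t)))
          = ε / 2 * (4 ^ j i * HN (T := fun t => W (J t)) (fun t => P a₀ (J t))) := by ring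
        _ ≤ ε / 2 * (2 * HN (P (b₀ i))) := h3
        _ = ε * HN (P (b₀ i)) := by ring
        _ ≤ _ := h2
    have hg2 : N / m * ∑ i, ((4 : ℝ) ^ j i)⁻¹ *
        ls (fun t => (W (J t)).isTor) v₀ (fun t => s (b₀ i) (J t)) ≤
        N * (2 * δ₁ * HN (T := fun t => W (J t)) (fun t => P a₀ (J t))) := by
      refine loss_le hm _ hN j _ v₀ fun i => ?_
      have h1 := (hSb i).2.1.2.2.2
      have h2 := (abs_le.1 (hcone i)).2
      have h3 := hmul1 i
      have h4 : HN (T := fun t => W (J t)) (fun t => P (b₀ i) (J t)) ≤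
          2 * (4 ^ j i * HN (T := fun t => W (J t)) (fun t => P a₀ (J t))) := by linarith
      have h5 := mul_le_mul_of_nonneg_left h4 hδ₁.le
      refine (h1.trans h5).trans (le_of_eq ?_)
      ring
    have hg3 : N * (2 * δ₁ * HN (T := fun t => W (J t)) (fun t => P a₀ (J t))) ≤
        ε / 4 * HN (T := fun t => W (J t)) (fun t => P a₀ (J t)) := by
      have h1 := mul_le_mul_of_nonneg_right hNδ hH0
      refine le_trans (le_of_eq ?_) h1
      ring
    have hane' : ∀ i, eval (fun t => s (b₀ i) (J t)) ((ρ i).z 0) ≠ 0 := fun i => by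
      rw [hρz i]
      exact (hSb i).2.1.1
    have h1 : gBv (fun t => (W (J t)).isTor) N j (fun i t => s (b₀ i) (J t))
        (fun i => eval (fun t => s (b₀ i) (J t)) ((ρ i).z 0)) v₀ ≤
        gBJ (fun t => (W (J t)).isTor) N j (fun i t => s (b₀ i) (J t))
          (fun i => eval (fun t => s (b₀ i) (J t)) ((ρ i).z 0)) :=
      VD.gs_single (FS_gBv _ hN j _ _ hane') (fun v _ => gBv_nonneg _ N j _ _ v) hv
    refine le_trans ?_ h1
    unfold gBv
    rw [if_pos hle1]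
    refine le_trans ?_ (le_max_right _ _)
    linarith
  obtain ⟨i, G, hG0, hGd, hGn, hGe⟩ := hS1 (fun t => P a₀ (J t)) (fun i t => P (b₀ i) (J t)) j
    (fun i t => s (b₀ i) (J t)) (fun i t => y (b₀ i) (J t)) ρ hR1 hR2
    (fun i t => hP _ _) (fun i t => hs _ _) (fun i t => hy _ _) (fun i t => (hSb i).2.2.1 t)
    hρD (fun i => (hρh i).trans (hhj i)) (fun i => by rw [hρz i]; exact (hSb i).2.1.1)
    hg (fun t => hP _ _) ((le_max_left _ _).trans hCa)
    (fun i t => (hpt i t).trans (hmul i)) (fun i => (hcone i).trans (hmul i))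
  refine (hSb i).2.2.2 G hG0 (fun t ht => absurd ⟨t, rfl⟩ ht) hGd ?_ hGe
  refine hGn.trans ?_
  have h1 : 2 * C₀ / δ ≤ HN (T := fun t => W (J t)) (fun t => P a₀ (J t)) :=
    (le_max_right _ _).trans hCa
  rw [div_le_iff₀ hδ] at h1
  have h2 : (4 : ℝ) ^ j i * HN (T := fun t => W (J t)) (fun t => P a₀ (J t)) ≤
      2 * HN (P (b₀ i)) := (h4j i).trans (mul_le_mul_of_nonneg_left (hJle (b₀ i)) (by norm_num))
  have h3 : (0 : ℝ) < 4 ^ j i := by positivity
  have h4 := mul_le_mul_of_nonneg_left h1 h3.le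
  have h5 := mul_le_mul_of_nonneg_left h2 hδ.le
  nlinarith

end Pool.Agent.Lib.MP_17a322_nt.VG.JG
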