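import Pool.Agent.Lib.MP_17a322_nt.VDG.DA
import Pool.Agent.Lib.MP_17a322_nt.VD.D20
import Pool.Agent.Lib.MP_17a322_nt.VG.Z7d

/-!
No proximity along a generic sequence, away from the boundary.
-/

universe u

namespace Pool.Agent.Lib.MP_17a322_nt.VG.JG

open MvPolynomial Height Filter
open Pool.Agent.Lib.MP_17a322_nt.RO
open Pool.Agent.Lib.MP_17a322_nt.VJ
open Pool.Agent.Lib.MP_17a322_nt.VN
open Pool.Agent.Lib.MP_17a322_nt.VDL

theorem no_proxG {K : Type u} [Field K] [NumberField K] [DecidableEq K] {n : ℕ}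
    (W : Fin n → CT K) (hW : ∀ t, (W t).IsE) (χ : Fin n → Bool)
    (P : ℕ → ∀ t, (W t).Pt) (s y : ℕ → Fin n → K)
    (hH : Tendsto (fun i => HN (P i)) (hyperfilter ℕ : Filter ℕ) atTop)
    (hP : ∀ i t, (W t).Aff (P i t)) (hs : ∀ i t, CH (χ t) (P i t) (s i t))
    (hy : ∀ i t, y i t ^ 2 = ph (W t) (vc (χ t) (s i t)))
    (S : Finset (NumberField.FinitePlace K))
    (hS : ∀ t, (W t).isTor → ∀ δ : ℝ, 0 < δ → ∀ᶠ i in (hyperfilter ℕ : Filter ℕ),
      ∑ᶠ v : {v : NumberField.FinitePlace K // v ∉ S}, |Real.log (v.1 (s i t))| ≤ δ * HN (P i))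
    (hgen : ∀ G : MvPolynomial (Fin n) K, G ≠ 0 →
      ∀ᶠ i in (hyperfilter ℕ : Filter ℕ), eval (s i) G ≠ 0)
    (v₀ : AbsoluteValue K ℝ) (hv : Pl v₀)
    (hle : ∀ᶠ i in (hyperfilter ℕ : Filter ℕ), ∀ t, v₀ (s i t) ≤ 1)
    (hls : ∀ δ : ℝ, 0 < δ → ∀ᶠ i in (hyperfilter ℕ : Filter ℕ),
      ls (fun t => (W t).isTor) v₀ (s i) ≤ δ * HN (P i))
    (f : MvPolynomial (Fin n) K) (hf : f ≠ 0) (ε : ℝ) (hε : 0 < ε)
    (hgain : ∀ᶠ i in (hyperfilter ℕ : Filter ℕ),
      ε * HN (P i) ≤ - Real.log (v₀ (eval (s i) f))) : False := by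
  classical
  have hsi := algebraicIndependent_gm s hgen
  have hf0 : aeval (fun t => gm fun i => s i t) f ≠ 0 := by
    intro h
    exact hf ((algebraicIndependent_iff.1 hsi) f h)
  obtain ⟨J, hJ, hJ'⟩ := exists_J (k := k0 K _ hH) (fun t => gm fun i => s i t)
  have hc0 := Z7_card W χ P s hH hs J hJ'
  obtain ⟨m, hm⟩ : ∃ m, J.card = m + 1 := ⟨J.card - 1, by omega⟩
  have hφval : aeval (fun t => gm fun i => s i t)
      (map (algebraMap K (k0 K (fun i => HN (P i)) hH)) f) =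
      aeval (fun t => gm fun i => s i t) f := aeval_map_algebraMap _ _ _
  obtain ⟨e, T, hev, he0, heT⟩ := Z7_e0 (k := k0 K (fun i => HN (P i)) hH)
    (s := fun t => gm fun i => s i t) hJ' (map (algebraMap K (k0 K (fun i => HN (P i)) hH)) f)
    (by rw [hφval]; exact hf0)
  rw [hφval] at heT
  obtain ⟨f', hf'⟩ := Z7_exists_rename hm e hev
  have hf'0 : f' ≠ 0 := by
    rintro rfl
    rw [map_zero] at hf'
    rw [← hf', map_zero] at he0
    exact he0 rfl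
  obtain ⟨b, hb⟩ := gm_surjective (aeval (fun t => gm fun i => s i t) e)
  have hφJ : ∀ t, J.orderEmbOfFin hm t ∈ J := fun t => Finset.orderEmbOfFin_mem J hm t
  have hJ2 : AlgebraicIndependent (k0 K (fun i => HN (P i)) hH)
      fun t : Fin (m + 1) => gm fun i => s i ((J.orderEmbOfFin hm).toEmbedding t) :=
    hJ.comp (fun t : Fin (m + 1) => (⟨J.orderEmbOfFin hm t, hφJ t⟩ : J)) (by
      intro t t' htt
      simp only [Subtype.mk.injEq] at htt
      exact (J.orderEmbOfFin hm).injective htt)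
  have hval : aeval (fun t => gm fun i => s i ((J.orderEmbOfFin hm).toEmbedding t)) f' =
      aeval (fun t => gm fun i => s i t) (rename (J.orderEmbOfFin hm) f') := by
    rw [aeval_rename]
    rfl
  have hD := DSTARG W hW χ P s y hH hP hs hy S hS v₀ hv hle hls
    (J.orderEmbOfFin hm).toEmbedding hJ2 f' hf'0 b (by rw [hval, hf', hb]) (ε / 4) (by positivity)
  have hbT : ∀ᶠ i in (hyperfilter ℕ : Filter ℕ),
      b i = eval (s i) (pr T i) * eval (s i) f := by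
    rw [← gm_eq_iff, gm_mul, gm_eval_pr T s, ← aeval_gm, hb, heT]
  have hb0 : ∀ᶠ i in (hyperfilter ℕ : Filter ℕ), b i ≠ 0 := by
    rw [← gm_ne_zero_iff, hb]
    exact he0
  obtain ⟨i, ⟨⟨⟨⟨⟨h1, h2⟩, h3⟩, h4⟩, h5⟩, h6⟩, h7⟩ := ((((((hgain.and hD).and hbT).and hb0).and
    hle).and ((oH_nh1_pr T) (ε / 4) (by positivity))).and (hH.eventually_gt_atTop 0)).exists
  rw [h3] at h4
  have hT0 : eval (s i) (pr T i) ≠ 0 := left_ne_zero_of_mul h4
  have hf1 : eval (s i) f ≠ 0 := right_ne_zero_of_mul h4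
  have h8 : Real.log (v₀ (b i)) =
      Real.log (v₀ (eval (s i) (pr T i))) + Real.log (v₀ (eval (s i) f)) := by
    rw [h3, map_mul, Real.log_mul (v₀.pos hT0).ne' (v₀.pos hf1).ne']
  have h9 : Real.log (v₀ (eval (s i) (pr T i))) ≤ nh1 (pr T i) := by
    refine (Real.log_le_log (v₀.pos hT0) (F6_eval v₀ (s i) h5 (pr T i))).trans ?_
    exact VD.gs_single (FS_nh1 (pr T i)) (fun v _ => Real.log_nonneg (le_max_left _ _)) hv
  have h10 : 0 < ε * HN (P i) := mul_pos hε h7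
  have h11 : nh1 (pr T i) ≤ ε / 4 * HN (P i) := h6
  have h12 : ε / 4 * HN (P i) = ε * HN (P i) / 4 := by ring
  rw [h8] at h2
  linarith

end Pool.Agent.Lib.MP_17a322_nt.VG.JG
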