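import Pool.Agent.Lib.MP_17a322_nt.VDG.DB
import Pool.Agent.Lib.MP_17a322_nt.VD.D21
import Pool.Agent.Lib.MP_17a322_nt.VG.Z10

/-!
The proximity inequality for one place, by induction on the number of variables.
-/

universe u

namespace Pool.Agent.Lib.MP_17a322_nt.VG.JG

open MvPolynomial Height Filter
open Pool.Agent.Lib.MP_17a322_nt.RO
open Pool.Agent.Lib.MP_17a322_nt.VJ
open Pool.Agent.Lib.MP_17a322_nt.VN
open Pool.Agent.Lib.MP_17a322_nt.VDL

/-- The form of `f` of multidegree `e` does not vanish identically on any stratum of the boundary. -/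
def CodF {K : Type u} [Field K] {n : ℕ} (W : Fin n → CT K) (f : MvPolynomial (Fin n) K)
    (e : Fin n → ℕ) : Prop :=
  ∀ T : Fin n → Bool, ∃ m ∈ f.support, ∀ t, (W t).isTor = true → m t = cd (T t) (e t)

theorem CodF.ne {K : Type u} [Field K] {n : ℕ} {W : Fin n → CT K} {f : MvPolynomial (Fin n) K}
    {e : Fin n → ℕ} (h : CodF W f e) : f ≠ 0 := by
  rintro rfl
  obtain ⟨m, hm, -⟩ := h fun _ => false
  simp at hm

theorem CodF.cof {K : Type u} [Field K] {n : ℕ} {W : Fin (n + 1) → CT K}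
    {f : MvPolynomial (Fin (n + 1)) K} {e : Fin (n + 1) → ℕ} (h : CodF W f e) (t : Fin (n + 1))
    (ht : (W t).isTor = true) (c : Bool) :
    CodF (fun i => W (t.succAbove i)) (VG.cof t (cd c (e t)) f) (fun i => e (t.succAbove i)) := by
  intro T
  obtain ⟨m, hm, hm2⟩ := h (Fin.insertNth (α := fun _ => Bool) t c T)
  refine ⟨rs t m, ?_, fun i hi => ?_⟩
  · rw [mem_support_iff, coeff_cof]
    have h1 := hm2 t ht
    rw [Fin.insertNth_apply_same] at h1
    rw [← h1, ins_rs]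
    exact mem_support_iff.1 hm
  · rw [rs_apply, hm2 _ hi, Fin.insertNth_apply_succAbove]

/-- The proximity inequality for one place in `n` variables. -/
def PXV (K : Type u) [Field K] [NumberField K] (n : ℕ) : Prop :=
  ∀ (W : Fin n → CT K) (_ : ∀ t, (W t).IsE) (S : Finset (NumberField.FinitePlace K))
    (f : MvPolynomial (Fin n) K) (e : Fin n → ℕ) (_ : ∀ i, f.degreeOf i ≤ e i)
    (_ : CodF W f e) (v₀ : AbsoluteValue K ℝ) (_ : Pl v₀) (ε : ℝ) (_ : 0 < ε),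
    ∃ G : MvPolynomial (Fin n) K, G ≠ 0 ∧ ∃ C : ℝ, ∀ x : Fin n → K, IsPt W x → eval x G ≠ 0 →
      VD.tm f e x v₀ ≤ ε * ∑ i, logHeight₁ (x i) + C * (1 + NS W S x)

theorem tm_le {K : Type*} [Field K] [NumberField K] {n : ℕ} (f : MvPolynomial (Fin n) K)
    (e : Fin n → ℕ) (x : Fin n → K) (hf : eval x f ≠ 0) {v₀ : AbsoluteValue K ℝ} (hv : Pl v₀) :
    VD.tm f e x v₀ ≤ ∑ i, (e i : ℝ) * logHeight₁ (x i) + logHeight₁ (eval x f) := by
  obtain ⟨φ, hφd⟩ : ∃ φ : AbsoluteValue K ℝ → ℝ, φ = fun v =>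
    (∑ i, (e i : ℝ) * Real.log (max 1 (v (x i)))) + Real.log (max 1 (v (eval x f)⁻¹)) :=
    ⟨_, rfl⟩
  have hφ1 : FS fun v : AbsoluteValue K ℝ => ∑ i, (e i : ℝ) * Real.log (max 1 (v (x i))) :=
    FS_sum Finset.univ fun i _ => FS_const_mul _ (FS_log_max (x i))
  have hφ : FS φ := by
    rw [hφd]
    exact FS_add hφ1 (FS_log_max _)
  have hgs : gs φ = ∑ i, (e i : ℝ) * logHeight₁ (x i) + logHeight₁ (eval x f) := by
    rw [hφd, gs_add hφ1 (FS_log_max _), gs_sum Finset.univ fun i _ => FS_const_mul _ (FS_log_max (x i)),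
      gs_log_max, logHeight₁_inv]
    congr 1
    refine Finset.sum_congr rfl fun i _ => ?_
    rw [gs_const_mul, gs_log_max]
  have hnn : ∀ v : AbsoluteValue K ℝ, 0 ≤ φ v := by
    intro v
    rw [hφd]
    refine add_nonneg (Finset.sum_nonneg fun i _ => mul_nonneg (Nat.cast_nonneg _) ?_) ?_
    · exact Real.log_nonneg (le_max_left _ _)
    · exact Real.log_nonneg (le_max_left _ _)
  have hle : VD.tm f e x v₀ ≤ φ v₀ := by
    have h1 : 0 < v₀ (eval x f) := v₀.pos hf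
    have h2 : - Real.log (v₀ (eval x f)) ≤ Real.log (max 1 (v₀ (eval x f)⁻¹)) := by
      rw [← Real.log_inv, map_inv₀]
      exact Real.log_le_log (inv_pos.2 h1) (le_max_right _ _)
    rw [hφd]
    change (∑ i, (e i : ℝ) * Real.log (max 1 (v₀ (x i)))) - Real.log (v₀ (eval x f)) ≤
      (∑ i, (e i : ℝ) * Real.log (max 1 (v₀ (x i)))) + Real.log (max 1 (v₀ (eval x f)⁻¹))
    linarith
  rw [← hgs]
  exact hle.trans (VD.gs_single hφ (fun v _ => hnn v) hv)

theorem lam_eq_tm {K : Type*} [Field K] {n : ℕ} (e : Fin n → ℕ) (f : MvPolynomial (Fin n) K)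
    (x : Fin n → K) (v : AbsoluteValue K ℝ) :
    lam e (fun _ : Fin 1 => f) x v = VD.tm f e x v := by
  unfold lam VD.tm
  rw [ciSup_const]

theorem PXV_zero (K : Type u) [Field K] [NumberField K] : PXV K 0 := by
  intro W hW S f e he hf v₀ hv ε hε
  refine ⟨1, one_ne_zero, |VD.tm f e (fun _ => (0 : K)) v₀ -
      ε * ∑ i : Fin 0, logHeight₁ ((fun _ => (0 : K)) i)|, fun x _ _ => ?_⟩
  have hx : x = fun _ => 0 := Subsingleton.elim _ _
  rw [hx]
  have h1 : NS W S (fun _ => 0) = 0 := by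
    unfold NS
    exact Finset.sum_of_isEmpty _
  rw [h1, add_zero, mul_one]
  have h2 := le_abs_self (VD.tm f e (fun _ => (0 : K)) v₀ -
      ε * ∑ i : Fin 0, logHeight₁ ((fun _ => (0 : K)) i))
  linarith

/-- A sequence with large proximity at `v₀` is not close to the boundary. -/
theorem bdry_small {K : Type u} [Field K] [NumberField K] {n : ℕ} (ih : PXV K n)
    (W : Fin (n + 1) → CT K) (hW : ∀ t, (W t).IsE) (S : Finset (NumberField.FinitePlace K))
    (f : MvPolynomial (Fin (n + 1)) K) (e : Fin (n + 1) → ℕ) (he : ∀ i, f.degreeOf i ≤ e i)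
    (hf : CodF W f e) (v₀ : AbsoluteValue K ℝ) (hv : Pl v₀) (ε : ℝ) (hε : 0 < ε)
    (x : ℕ → Fin (n + 1) → K) (hxy : ∀ ν, IsPt W (x ν)) (hx0 : ∀ ν t, x ν t ≠ 0)
    (hf1 : ∀ ν, eval (x ν) f ≠ 0) (H : ℕ → ℝ) (hHv : ∀ ν, ∑ i, logHeight₁ (x ν i) = H ν)
    (hHtop : Tendsto H (hyperfilter ℕ : Filter ℕ) atTop)
    (hgen : ∀ G : MvPolynomial (Fin (n + 1)) K, G ≠ 0 →
      ∀ᶠ ν in (hyperfilter ℕ : Filter ℕ), eval (x ν) G ≠ 0)
    (hNS : ∀ δ : ℝ, 0 < δ → ∀ᶠ ν in (hyperfilter ℕ : Filter ℕ), NS W S (x ν) ≤ δ * H ν)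
    (hbad : ∀ᶠ ν in (hyperfilter ℕ : Filter ℕ), ε * H ν ≤ VD.tm f e (x ν) v₀)
    (χ : Fin (n + 1) → Bool)
    (hχ : ∀ᶠ ν in (hyperfilter ℕ : Filter ℕ), ∀ t, χ t = true ↔ 1 < v₀ (x ν t))
    (t : Fin (n + 1)) (ht : (W t).isTor = true) (δ : ℝ) (hδ : 0 < δ) :
    ∀ᶠ ν in (hyperfilter ℕ : Filter ℕ), - Real.log (v₀ (sc (χ t) (x ν t))) ≤ δ * H ν := by
  classical
  by_contra hcon
  rw [not_eventually_iff] at hcon
  obtain ⟨μ, hμd⟩ : ∃ μ : ℝ, μ = min ε δ := ⟨_, rfl⟩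
  have hμ : 0 < μ := by
    rw [hμd]
    exact lt_min hε hδ
  have hf' := hf.cof t ht (χ t)
  obtain ⟨G, hG, C, hC⟩ := ih (fun i => W (t.succAbove i)) (fun i => hW _) S
    (cof t (cd (χ t) (e t)) f) (fun i => e (t.succAbove i))
    (fun i => degreeOf_cof t _ f e he i) hf' v₀ hv (μ / 4) (by positivity)
  have hren : ∀ G' : MvPolynomial (Fin n) K, G' ≠ 0 →
      ∀ᶠ ν in (hyperfilter ℕ : Filter ℕ), eval (fun i => x ν (t.succAbove i)) G' ≠ 0 := by
    intro G' hG'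
    have h1 := hgen (rename t.succAbove G') (fun h0 => hG' (rename_injective t.succAbove
      Fin.succAbove_right_injective (h0.trans (map_zero _).symm)))
    filter_upwards [h1] with ν hν
    rw [eval_rename] at hν
    exact hν
  obtain ⟨c₁, hc₁⟩ : ∃ c₁ : ℝ, c₁ = Real.log (kap (fun _ : Fin 1 => f) v₀) := ⟨_, rfl⟩
  obtain ⟨ν, ⟨⟨⟨⟨⟨h1, h2⟩, h3⟩, h4⟩, h5⟩, h6⟩, h7⟩ := ((((((hcon.and hbad).and hχ).and
    (hren G hG)).and (hren _ hf'.ne)).and (hNS (μ / 4 / (|C| + 1)) (by positivity))).and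
    (hHtop.eventually_gt_atTop ((|C| + |c₁|) / (μ / 4)))).exists
  have h8 := lam_min_le e (fun _ : Fin 1 => f) (fun _ t => he t) (x ν) (hx0 ν) ⟨0, hf1 ν⟩ v₀ χ h3 t
    ⟨0, h5⟩
  rw [lam_eq_tm, lam_eq_tm, ← hc₁] at h8
  have h9 := hC (fun i => x ν (t.succAbove i)) (fun i => hxy ν _) h4
  have h10 : μ * H ν ≤ min (VD.tm f e (x ν) v₀) (- Real.log (v₀ (sc (χ t) (x ν t)))) := by
    have hH0 : 0 ≤ H ν := by
      rw [← hHv]
      exact Finset.sum_nonneg fun i _ => zero_le_logHeight₁ _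
    refine le_min (le_trans ?_ h2) (le_trans ?_ (not_le.1 h1).le)
    · rw [hμd]
      exact mul_le_mul_of_nonneg_right (min_le_left _ _) hH0
    · rw [hμd]
      exact mul_le_mul_of_nonneg_right (min_le_right _ _) hH0
  have h11 : ∑ i, logHeight₁ (x ν (t.succAbove i)) ≤ H ν := by
    rw [← hHv]
    exact sum_succAbove_le (fun i => logHeight₁ (x ν i)) (fun i => zero_le_logHeight₁ (x ν i)) t
  have h12 := NS_succAbove W S (x ν) t
  have h13 := NS_nonneg (fun i => W (t.succAbove i)) S (fun i => x ν (t.succAbove i))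
  have h14 : C * (1 + NS (fun i => W (t.succAbove i)) S (fun i => x ν (t.succAbove i))) ≤
      |C| * (1 + NS W S (x ν)) :=
    mul_le_mul (le_abs_self C) (by linarith) (by linarith) (abs_nonneg C)
  have h15 : |C| * NS W S (x ν) ≤ μ / 4 * H ν := by
    have hH0 : 0 ≤ H ν := by
      rw [← hHv]
      exact Finset.sum_nonneg fun i _ => zero_le_logHeight₁ _
    have h16 : |C| * NS W S (x ν) ≤ |C| * (μ / 4 / (|C| + 1) * H ν) :=
      mul_le_mul_of_nonneg_left h6 (abs_nonneg C)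
    refine h16.trans ?_
    have h17 : |C| * (μ / 4 / (|C| + 1) * H ν) = |C| / (|C| + 1) * (μ / 4 * H ν) := by
      field_simp
    rw [h17]
    refine mul_le_of_le_one_left (by positivity) ?_
    rw [div_le_one (by positivity)]
    linarith
  rw [div_lt_iff₀ (by positivity)] at h7
  have h16 := mul_le_mul_of_nonneg_left h11 (show 0 ≤ μ / 4 by positivity)
  have h17 := le_abs_self c₁
  have h18 := abs_nonneg c₁
  have h19 := abs_nonneg C
  linarith

theorem PXV_succ (K : Type u) [Field K] [NumberField K] (n : ℕ) (ih : PXV K n) :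
    PXV K (n + 1) := by
  classical
  intro W hW S f e he hf v₀ hv ε hε
  by_contra hcon
  push Not at hcon
  -- the sequence
  obtain ⟨P, hPbad, hPG₀, hPgen⟩ := exists_generic_seq
    (T := {x : Fin (n + 1) → K // IsPt W x})
    (fun p => p.1)
    (fun ν => {p | ε * ∑ i, logHeight₁ (p.1 i) + ν * (1 + NS W S p.1) < VD.tm f e p.1 v₀})
    ((∏ t, X t) * f)
    (mul_ne_zero (Finset.prod_ne_zero_iff.2 fun t _ => MvPolynomial.X_ne_zero t) hf.ne)
    (fun G hG ν => by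
      obtain ⟨x, hxy, hx, hlt⟩ := hcon G hG ν
      exact ⟨⟨x, hxy⟩, hlt, hx⟩)
  obtain ⟨x, hxP⟩ : ∃ x : ℕ → Fin (n + 1) → K, x = fun ν => (P ν).1 := ⟨_, rfl⟩
  have hxy : ∀ ν, IsPt W (x ν) := fun ν => by
    rw [hxP]
    exact (P ν).2
  have hbad : ∀ ν : ℕ, ε * ∑ i, logHeight₁ (x ν i) + ν * (1 + NS W S (x ν)) <
      VD.tm f e (x ν) v₀ := fun ν => by
    rw [hxP]
    exact hPbad ν
  have hG₀ : ∀ ν, eval (x ν) ((∏ t, X t) * f) ≠ 0 := fun ν => by
    rw [hxP]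
    exact hPG₀ ν
  have hgen : ∀ G : MvPolynomial (Fin (n + 1)) K, G ≠ 0 → ∀ᶠ ν in atTop, eval (x ν) G ≠ 0 :=
    fun G hG => by
      rw [hxP]
      exact hPgen G hG
  have hgenu : ∀ G : MvPolynomial (Fin (n + 1)) K, G ≠ 0 →
      ∀ᶠ ν in (hyperfilter ℕ : Filter ℕ), eval (x ν) G ≠ 0 := fun G hG =>
    (hgen G hG).filter_mono Nat.hyperfilter_le_atTop
  have hx0 : ∀ ν t, x ν t ≠ 0 := by
    intro ν t
    have h1 := hG₀ ν
    rw [map_mul, map_prod] at h1
    have h2 := Finset.prod_ne_zero_iff.1 (left_ne_zero_of_mul h1) t (Finset.mem_univ t)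
    rwa [eval_X] at h2
  have hf1 : ∀ ν, eval (x ν) f ≠ 0 := by
    intro ν
    have h1 := hG₀ ν
    rw [map_mul] at h1
    exact right_ne_zero_of_mul h1
  -- heights tend to infinity
  obtain ⟨H, hHdef⟩ : ∃ H : ℕ → ℝ, H = fun ν => ∑ i, logHeight₁ (x ν i) := ⟨_, rfl⟩
  have hHv : ∀ ν, ∑ i, logHeight₁ (x ν i) = H ν := fun ν => by rw [hHdef]
  have hH0 : ∀ ν, 0 ≤ H ν := fun ν => by
    rw [← hHv]
    exact Finset.sum_nonneg fun i _ => zero_le_logHeight₁ _
  obtain ⟨C₁, hC₁0, hC₁⟩ := VD.height_eval f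
  obtain ⟨D, hD⟩ : ∃ D : ℝ, D = ∑ i, (e i : ℝ) + ∑ i, (f.degreeOf i : ℝ) + 1 := ⟨_, rfl⟩
  have hD0 : 0 < D := by
    rw [hD]
    have h1 : 0 ≤ ∑ i, (e i : ℝ) := Finset.sum_nonneg fun i _ => Nat.cast_nonneg _
    have h2 : 0 ≤ ∑ i, (f.degreeOf i : ℝ) := Finset.sum_nonneg fun i _ => Nat.cast_nonneg _
    linarith
  have hsum : ∀ (a : Fin (n + 1) → ℕ) (ν : ℕ), ∑ i, (a i : ℝ) * logHeight₁ (x ν i) ≤
      (∑ i, (a i : ℝ)) * H ν := by
    intro a ν
    rw [Finset.sum_mul]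
    refine Finset.sum_le_sum fun i _ => mul_le_mul_of_nonneg_left ?_ (Nat.cast_nonneg _)
    rw [← hHv]
    exact Finset.single_le_sum (f := fun i => logHeight₁ (x ν i))
      (fun i _ => zero_le_logHeight₁ _) (Finset.mem_univ i)
  have hNS0 : ∀ ν, 0 ≤ NS W S (x ν) := fun ν => NS_nonneg W S (x ν)
  have hHge' : ∀ ν : ℕ, (ν : ℝ) * (1 + NS W S (x ν)) ≤ D * H ν + C₁ := by
    intro ν
    have h1 := hbad ν
    have h2 := tm_le f e (x ν) (hf1 ν) hv
    have h3 := hC₁ (x ν)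
    have h4 := hsum e ν
    have h5 := hsum (fun i => f.degreeOf i) ν
    rw [hHv] at h1
    have h6 := mul_nonneg hε.le (hH0 ν)
    have h7 := hH0 ν
    have h8 : D * H ν = (∑ i, (e i : ℝ)) * H ν + (∑ i, (f.degreeOf i : ℝ)) * H ν + H ν := by
      rw [hD]
      ring
    rw [h8]
    linarith
  have hHge : ∀ ν : ℕ, ((ν : ℝ) - C₁) / D ≤ H ν := by
    intro ν
    rw [div_le_iff₀ hD0, mul_comm]
    have h1 := hHge' ν
    have h2 : (0 : ℝ) ≤ (ν : ℝ) * NS W S (x ν) := mul_nonneg (Nat.cast_nonneg ν) (hNS0 ν)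
    linarith
  have hHtop' : Tendsto H atTop atTop :=
    tendsto_atTop_mono hHge
      ((tendsto_atTop_add_const_right _ (-C₁) tendsto_natCast_atTop_atTop).atTop_div_const hD0)
  have hHtop : Tendsto H (hyperfilter ℕ : Filter ℕ) atTop :=
    hHtop'.mono_left Nat.hyperfilter_le_atTop
  have hlarge : ∀ C₁ : ℝ, ∀ᶠ ν : ℕ in (hyperfilter ℕ : Filter ℕ), C₁ ≤ ν := fun C₁ =>
    (tendsto_natCast_atTop_atTop.eventually_ge_atTop C₁).filter_mono (Nat.hyperfilter_le_atTop)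
  have hNS : ∀ δ : ℝ, 0 < δ →
      ∀ᶠ ν in (hyperfilter ℕ : Filter ℕ), NS W S (x ν) ≤ δ * H ν := by
    intro δ hδ
    filter_upwards [hlarge ((D + 1) / δ), hHtop.eventually_ge_atTop C₁] with ν hν hν2
    rw [div_le_iff₀ hδ] at hν
    have h2 := hHge' ν
    have h3 : 0 < (ν : ℝ) := by
      by_contra h4
      have h5 : (ν : ℝ) = 0 := le_antisymm (not_lt.mp h4) (Nat.cast_nonneg ν)
      rw [h5, zero_mul] at hν
      linarith
    have h4 : (ν : ℝ) * NS W S (x ν) ≤ ν * (δ * H ν) := by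
      calc (ν : ℝ) * NS W S (x ν) ≤ ν * (1 + NS W S (x ν)) := by linarith
        _ ≤ D * H ν + C₁ := h2
        _ ≤ (D + 1) * H ν := by linarith
        _ ≤ ν * δ * H ν := mul_le_mul_of_nonneg_right hν (hH0 ν)
        _ = ν * (δ * H ν) := by ring
    exact le_of_mul_le_mul_left h4 h3
  -- the chart
  have hchart : ∀ᶠ ν in (hyperfilter ℕ : Filter ℕ),
      ∃ χ : Fin (n + 1) → Bool, ∀ t, χ t = true ↔ 1 < v₀ (x ν t) :=
    Eventually.of_forall fun ν => ⟨fun t => decide (1 < v₀ (x ν t)), fun t => decide_eq_true_iff⟩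
  obtain ⟨χ, hχ⟩ := eventually_exists_fintype _ _ hchart
  have hbad' : ∀ ν, ε * H ν ≤ VD.tm f e (x ν) v₀ := fun ν => by
    have h1 := hbad ν
    have h2 : (0 : ℝ) ≤ ν * (1 + NS W S (x ν)) :=
      mul_nonneg (Nat.cast_nonneg ν) (by linarith [hNS0 ν])
    rw [hHv] at h1
    linarith
  have hb := bdry_small ih W hW S f e he hf v₀ hv ε hε x hxy hx0 hf1 H hHv hHtop hgenu hNS
    (Eventually.of_forall hbad') χ hχ
  -- points
  choose Q hQ using hxy
  have hHN : ∀ ν, HN (Q ν) = H ν := by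
    intro ν
    rw [← hHv]
    unfold HN
    refine Finset.sum_congr rfl fun t _ => ?_
    rw [(hQ ν t).2]
    exact (logHeight₁_eq_logHeight _).symm
  choose y hy using fun ν t => exists_sqrt (χ t) (hQ ν t).1 (hQ ν t).2 (hx0 ν t)
  refine no_proxG W hW χ Q (fun ν t => sc (χ t) (x ν t)) y ?_ (fun ν t => (hQ ν t).1)
    (fun ν t => CH_of _ (hQ ν t).2 (hx0 ν t)) hy S ?_ (fun G hG => ?_) v₀ hv ?_ ?_
    (chp χ e f) (chp_ne_zero χ e f he hf.ne) ε hε ?_
  · simp only [hHN]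
    exact hHtop
  · intro t ht δ hδ
    filter_upwards [hNS δ hδ] with ν hν
    rw [hHN]
    have h1 : ns S (sc (χ t) (x ν t)) ≤ δ * H ν := by
      rw [ns_sc]
      exact (ns_le_NS W S (x ν) ht).trans hν
    exact h1
  · have h1 := hgenu (chp χ (fun t => G.degreeOf t) G)
      (chp_ne_zero χ _ G (fun _ => le_rfl) hG)
    filter_upwards [h1] with ν hν
    exact eval_sc_ne_zero χ _ G (fun _ => le_rfl) (x ν) (hx0 ν) hν
  · filter_upwards [hχ] with ν hν
    exact fun t => VD.sc_le_one _ (hν t)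
  · intro δ hδ
    have h1 : ∀ᶠ ν in (hyperfilter ℕ : Filter ℕ), ∀ t, (W t).isTor = true →
        - Real.log (v₀ (sc (χ t) (x ν t))) ≤ δ / (n + 1) * H ν := by
      rw [eventually_all]
      intro t
      by_cases ht : (W t).isTor = true
      · filter_upwards [hb t ht (δ / (n + 1)) (by positivity)] with ν hν _
        exact hν
      · exact Eventually.of_forall fun ν h => absurd h ht
    filter_upwards [h1] with ν hν
    rw [hHN]
    unfold ls
    have h2 : ∑ t, (if (W t).isTor = true then - Real.log (v₀ (sc (χ t) (x ν t))) else 0) ≤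
        ∑ _t : Fin (n + 1), δ / (n + 1) * H ν := by
      refine Finset.sum_le_sum fun t _ => ?_
      split_ifs with h
      · exact hν t h
      · exact mul_nonneg (by positivity) (hH0 ν)
    refine h2.trans (le_of_eq ?_)
    rw [Finset.sum_const, Finset.card_univ, Fintype.card_fin, nsmul_eq_mul]
    push_cast
    field_simp
  · filter_upwards [hχ] with ν hν
    rw [hHN, ← VD.tm_chart f e he v₀ χ (x ν) (hx0 ν) (hf1 ν) hν]
    exact hbad' ν

/-- The proximity inequality for one place. -/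
theorem pxv (K : Type u) [Field K] [NumberField K] (n : ℕ) : PXV K n := by
  induction n with
  | zero => exact PXV_zero K
  | succ n ih => exact PXV_succ K n ih

end Pool.Agent.Lib.MP_17a322_nt.VG.JG
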