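import Pool.Agent.Lib.MP_17a322_nt.VDG.DC
import Pool.Agent.Lib.MP_17a322_nt.VG.Z11

/-!
The proximity inequality, and the final theorem.
-/

universe u

namespace Pool.Agent.Lib.MP_17a322_nt.VG.JG

open MvPolynomial Height Filter
open Pool.Agent.Lib.MP_17a322_nt.RO
open Pool.Agent.Lib.MP_17a322_nt.VJ
open Pool.Agent.Lib.MP_17a322_nt.VN
open Pool.Agent.Lib.MP_17a322_nt.VDL

/-- The proximity inequality in `n` variables. -/
theorem PROXG {K : Type u} [Field K] [NumberField K] {n : ℕ} (W : Fin n → CT K)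
    (hW : ∀ t, (W t).IsE) (S : Finset (NumberField.FinitePlace K))
    (f : MvPolynomial (Fin n) K) (e : Fin n → ℕ) (he : ∀ i, f.degreeOf i ≤ e i)
    (hf : CodF W f e) (ε : ℝ) (hε : 0 < ε) :
    ∃ G : MvPolynomial (Fin n) K, G ≠ 0 ∧ ∃ C : ℝ, ∀ x : Fin n → K, IsPt W x → eval x G ≠ 0 →
      (∑ v : NumberField.InfinitePlace K, (v.mult : ℝ) * VD.tm f e x v) +
        ∑ v ∈ S, VD.tm f e x v ≤ ε * ∑ i, logHeight₁ (x i) + C * (1 + NS W S x) := by
  classical
  obtain ⟨N, hN⟩ : ∃ N : ℝ, N = ∑ v : NumberField.InfinitePlace K, (v.mult : ℝ) + S.card + 1 :=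
    ⟨_, rfl⟩
  have hN0 : 0 < N := by
    rw [hN]
    have h1 : 0 ≤ ∑ v : NumberField.InfinitePlace K, (v.mult : ℝ) :=
      Finset.sum_nonneg fun i _ => Nat.cast_nonneg _
    have h2 : (0 : ℝ) ≤ S.card := Nat.cast_nonneg _
    linarith
  have h1 := fun v : NumberField.InfinitePlace K =>
    pxv K n W hW S f e he hf v.val (VD.Pl_infinite v) (ε / N) (div_pos hε hN0)
  have h2 := fun v : NumberField.FinitePlace K =>
    pxv K n W hW S f e he hf v.val (VD.Pl_finite v) (ε / N) (div_pos hε hN0)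
  choose G₁ hG₁ C₁ hC₁ using h1
  choose G₂ hG₂ C₂ hC₂ using h2
  refine ⟨(∏ v, G₁ v) * ∏ v ∈ S, G₂ v, mul_ne_zero (Finset.prod_ne_zero_iff.2 fun v _ => hG₁ v)
    (Finset.prod_ne_zero_iff.2 fun v _ => hG₂ v),
    ∑ v : NumberField.InfinitePlace K, (v.mult : ℝ) * C₁ v + ∑ v ∈ S, C₂ v, fun x hx hG => ?_⟩
  rw [map_mul, map_prod, map_prod] at hG
  have hG1 := fun v => Finset.prod_ne_zero_iff.1 (left_ne_zero_of_mul hG) v (Finset.mem_univ v)
  have hG2 := Finset.prod_ne_zero_iff.1 (right_ne_zero_of_mul hG)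
  obtain ⟨H, hH⟩ : ∃ H : ℝ, H = ∑ i, logHeight₁ (x i) := ⟨_, rfl⟩
  have hH0 : 0 ≤ H := by
    rw [hH]
    exact Finset.sum_nonneg fun i _ => zero_le_logHeight₁ _
  obtain ⟨R, hR⟩ : ∃ R : ℝ, R = 1 + NS W S x := ⟨_, rfl⟩
  rw [← hH, ← hR]
  have h3 : ∑ v : NumberField.InfinitePlace K, (v.mult : ℝ) * VD.tm f e x v ≤
      ∑ v : NumberField.InfinitePlace K, (v.mult : ℝ) * (ε / N * H + C₁ v * R) := by
    refine Finset.sum_le_sum fun v _ => mul_le_mul_of_nonneg_left ?_ (Nat.cast_nonneg _)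
    have h4 := hC₁ v x hx (hG1 v)
    rw [← hH, ← hR] at h4
    exact h4
  have h4 : ∑ v ∈ S, VD.tm f e x v ≤ ∑ v ∈ S, (ε / N * H + C₂ v * R) := by
    refine Finset.sum_le_sum fun v hv => ?_
    have h4 := hC₂ v x hx (hG2 v hv)
    rw [← hH, ← hR] at h4
    exact h4
  have h5 : ∑ v : NumberField.InfinitePlace K, (v.mult : ℝ) * (ε / N * H + C₁ v * R) =
      (∑ v : NumberField.InfinitePlace K, (v.mult : ℝ)) * (ε / N * H) +
        (∑ v : NumberField.InfinitePlace K, (v.mult : ℝ) * C₁ v) * R := by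
    rw [Finset.sum_mul, Finset.sum_mul, ← Finset.sum_add_distrib]
    exact Finset.sum_congr rfl fun v _ => by ring
  have h6 : ∑ v ∈ S, (ε / N * H + C₂ v * R) =
      S.card * (ε / N * H) + (∑ v ∈ S, C₂ v) * R := by
    rw [Finset.sum_add_distrib, Finset.sum_const, nsmul_eq_mul, Finset.sum_mul]
  have h7 : N * (ε / N * H) = ε * H := by
    field_simp
  have h8 : 0 ≤ ε / N * H := mul_nonneg (div_nonneg hε.le hN0.le) hH0
  have h9 : N * (ε / N * H) = (∑ v : NumberField.InfinitePlace K, (v.mult : ℝ)) * (ε / N * H) +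
      S.card * (ε / N * H) + ε / N * H := by
    rw [hN]
    ring
  rw [h5] at h3
  rw [h6] at h4
  rw [add_mul]
  linarith

/-- The proximity inequality with separate coordinates. -/
theorem final_prox {K : Type u} [Field K] [NumberField K] {p q : ℕ}
    (W : Fin p → WeierstrassCurve K) [∀ i, (W i).IsElliptic]
    (S : Finset (NumberField.FinitePlace K))
    (f : MvPolynomial (Fin p ⊕ Fin q) K) (e : Fin p ⊕ Fin q → ℕ) (he : ∀ i, f.degreeOf i ≤ e i)
    (hf : ∀ T : Finset (Fin q), ∃ a ∈ f.support, ∀ j,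
      a (Sum.inr j) = if j ∈ T then e (Sum.inr j) else 0)
    (ε : ℝ) (hε : 0 < ε) :
    ∃ G : MvPolynomial (Fin p ⊕ Fin q) K, G ≠ 0 ∧ ∃ C : ℝ, ∀ (x y : Fin p → K) (u : Fin q → K),
      (∀ i, (W i).toAffine.Nonsingular (x i) (y i)) → (∀ j, u j ≠ 0) →
      eval (Sum.elim x u) G ≠ 0 →
        (∑ v : NumberField.InfinitePlace K, (v.mult : ℝ) *
            (∑ i, (e (Sum.inl i) : ℝ) * Real.log (max 1 (v (x i))) +
              ∑ j, (e (Sum.inr j) : ℝ) * Real.log (max 1 (v (u j))) -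
              Real.log (v (eval (Sum.elim x u) f)))) +
          ∑ v ∈ S, (∑ i, (e (Sum.inl i) : ℝ) * Real.log (max 1 (v (x i))) +
              ∑ j, (e (Sum.inr j) : ℝ) * Real.log (max 1 (v (u j))) -
              Real.log (v (eval (Sum.elim x u) f))) ≤
          ε * (∑ i, logHeight₁ (x i) + ∑ j, logHeight₁ (u j)) +
            C * (1 + ∑ j, ∑ᶠ v : {v : NumberField.FinitePlace K // v ∉ S},
              |Real.log (v.1 (u j))|) := by
  classical
  obtain ⟨φ, hφ⟩ : ∃ φ : Fin p ⊕ Fin q ≃ Fin (p + q), φ = finSumFinEquiv := ⟨_, rfl⟩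
  have hinl : ∀ i, WT (q := q) W (φ (Sum.inl i)) = CT.ell (W i) := fun i => by
    rw [hφ]
    exact WT_inl W i
  have hinr : ∀ j, WT (q := q) W (φ (Sum.inr j)) = CT.tor := fun j => by
    rw [hφ]
    exact WT_inr W j
  have hall : ∀ {p' : Fin (p + q) → Prop}, (∀ i, p' (φ (Sum.inl i))) → (∀ j, p' (φ (Sum.inr j))) →
      ∀ t, p' t := by
    intro p' h1 h2 t
    obtain ⟨i, rfl⟩ := φ.surjective t
    rcases i with i | j
    · exact h1 i
    · exact h2 j
  obtain ⟨G, hG, C, hC⟩ := PROXG (WT (q := q) W)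
    (hall (fun i => by rw [hinl]; exact (inferInstance : (W i).IsElliptic))
      (fun j => by rw [hinr]; trivial))
    S (rename φ f) (fun t => e (φ.symm t))
    (hall (fun i => by
      rw [degreeOf_rename_of_injective φ.injective, Equiv.symm_apply_apply]
      exact he _) (fun j => by
      rw [degreeOf_rename_of_injective φ.injective, Equiv.symm_apply_apply]
      exact he _))
    (fun T => by
      obtain ⟨a, ha, ha2⟩ := hf (Finset.univ.filter fun j => T (φ (Sum.inr j)) = true)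
      refine ⟨Finsupp.mapDomain φ a, ?_, hall (fun i h => ?_) (fun j _ => ?_)⟩
      · rw [support_rename_of_injective φ.injective]
        exact Finset.mem_image_of_mem _ ha
      · rw [hinl] at h
        exact absurd h (by simp [CT.isTor])
      · rw [Finsupp.mapDomain_apply φ.injective, ha2]
        unfold cd
        simp only [Finset.mem_filter, Finset.mem_univ, true_and, Equiv.symm_apply_apply])
    ε hε
  refine ⟨rename φ.symm G, ?_, C, ?_⟩
  · intro h
    exact hG (rename_injective _ φ.symm.injective (by rw [h, map_zero]))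
  · intro x y u hxy hu hG'
    rw [eval_rename] at hG'
    obtain ⟨z, hz⟩ : ∃ z : Fin (p + q) → K, z = Sum.elim x u ∘ φ.symm := ⟨_, rfl⟩
    rw [← hz] at hG'
    have hzl : ∀ i, z (φ (Sum.inl i)) = x i := fun i => by
      rw [hz, Function.comp_apply, Equiv.symm_apply_apply]
      rfl
    have hzr : ∀ j, z (φ (Sum.inr j)) = u j := fun j => by
      rw [hz, Function.comp_apply, Equiv.symm_apply_apply]
      rfl
    have hpt : IsPt (WT (q := q) W) z := hall
      (fun i => by
        rw [hinl, hzl]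
        refine ⟨WeierstrassCurve.Affine.Point.some (x i) (y i) (hxy i), ?_, ?_⟩
        · exact WeierstrassCurve.Affine.Point.some_ne_zero _
        · exact WeierstrassCurve.Affine.Point.xRep_some (hxy i))
      (fun j => by
        rw [hinr, hzr]
        exact ⟨Additive.ofMul (Units.mk0 (u j) (hu j)), trivial, rfl⟩)
    have h1 := hC z hpt hG'
    have hsum : ∀ f : Fin (p + q) → ℝ, ∑ t, f t =
        ∑ i, f (φ (Sum.inl i)) + ∑ j, f (φ (Sum.inr j)) := by
      intro f
      rw [← Equiv.sum_comp φ f, Fintype.sum_sum_type]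
    have hNS : NS (WT (q := q) W) S z = ∑ j, ∑ᶠ v : {v : NumberField.FinitePlace K // v ∉ S},
        |Real.log (v.1 (u j))| := by
      unfold NS
      rw [hsum]
      have h2 : ∀ i, (if (WT (q := q) W (φ (Sum.inl i))).isTor = true then
          ∑ᶠ v : {v : NumberField.FinitePlace K // v ∉ S},
            |Real.log (v.1 (z (φ (Sum.inl i))))| else 0) = 0 := by
        intro i
        rw [hinl]
        rfl
      rw [Finset.sum_congr rfl fun i _ => h2 i, Finset.sum_const_zero, zero_add]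
      refine Finset.sum_congr rfl fun j _ => ?_
      rw [hinr, hzr]
      rfl
    have hev : eval z (rename φ f) = eval (Sum.elim x u) f := by
      rw [eval_rename]
      congr 2
      funext i
      rw [hz, Function.comp_apply, Function.comp_apply, Equiv.symm_apply_apply]
    have htm : ∀ v : K → ℝ, VD.tm (rename φ f) (fun t => e (φ.symm t)) z v =
        ∑ i, (e (Sum.inl i) : ℝ) * Real.log (max 1 (v (x i))) +
          ∑ j, (e (Sum.inr j) : ℝ) * Real.log (max 1 (v (u j))) -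
          Real.log (v (eval (Sum.elim x u) f)) := by
      intro v
      unfold VD.tm
      rw [hsum, hev]
      simp only [hzl, hzr, Equiv.symm_apply_apply]
    rw [hNS, hsum] at h1
    simp only [htm, hzl, hzr] at h1
    exact h1

/-- Vojta's inequality: defect of a closed subscheme of codimension two and proximity to a divisor. -/
theorem final {K : Type u} [Field K] [NumberField K] {p q m : ℕ}
    (W : Fin p → WeierstrassCurve K) [∀ i, (W i).IsElliptic]
    (S : Finset (NumberField.FinitePlace K))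
    (g : Fin m → MvPolynomial (Fin p ⊕ Fin q) K) (d : Fin p ⊕ Fin q → ℕ)
    (hd : ∀ k i, (g k).degreeOf i ≤ d i)
    (hY : ∀ (F : Type u) [Field F] [Algebra K F] [DecidableEq F] (X Z : Fin p ⊕ Fin q → F),
      (∀ i, X i ≠ 0 ∨ Z i ≠ 0) →
      (∀ k, ∑ e ∈ (g k).support, algebraMap K F ((g k).coeff e) *
        ∏ i, (X i ^ e i * Z i ^ (d i - e i)) = 0) →
        Algebra.trdeg K (IntermediateField.adjoin K (Set.range fun i => X i / Z i)) +
          (Finset.univ.filter fun j : Fin q => X (Sum.inr j) = 0 ∨ Z (Sum.inr j) = 0).card + 1 <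
            p + q)
    (f : MvPolynomial (Fin p ⊕ Fin q) K) (e : Fin p ⊕ Fin q → ℕ) (he : ∀ i, f.degreeOf i ≤ e i)
    (hf : ∀ T : Finset (Fin q), ∃ a ∈ f.support, ∀ j,
      a (Sum.inr j) = if j ∈ T then e (Sum.inr j) else 0)
    (ε : ℝ) (hε : 0 < ε) :
    ∃ G : MvPolynomial (Fin p ⊕ Fin q) K, G ≠ 0 ∧ f ∣ G ∧ ∃ C : ℝ,
      ∀ (x y : Fin p → K) (u : Fin q → K),
      (∀ i, (W i).toAffine.Nonsingular (x i) (y i)) → (∀ j, u j ≠ 0) →
      eval (Sum.elim x u) G ≠ 0 →
        (∑ i, (d (Sum.inl i) : ℝ) * logHeight₁ (x i) +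
            ∑ j, (d (Sum.inr j) : ℝ) * logHeight₁ (u j) -
            logHeight (fun k => eval (Sum.elim x u) (g k))) +
        ((∑ v : NumberField.InfinitePlace K, (v.mult : ℝ) *
            (∑ i, (e (Sum.inl i) : ℝ) * Real.log (max 1 (v (x i))) +
              ∑ j, (e (Sum.inr j) : ℝ) * Real.log (max 1 (v (u j))) -
              Real.log (v (eval (Sum.elim x u) f)))) +
          ∑ v ∈ S, (∑ i, (e (Sum.inl i) : ℝ) * Real.log (max 1 (v (x i))) +
              ∑ j, (e (Sum.inr j) : ℝ) * Real.log (max 1 (v (u j))) -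
              Real.log (v (eval (Sum.elim x u) f)))) ≤
          ε * (∑ i, logHeight₁ (x i) + ∑ j, logHeight₁ (u j)) +
            C * (1 + ∑ j, ∑ᶠ v : {v : NumberField.FinitePlace K // v ∉ S},
              |Real.log (v.1 (u j))|) := by
  have hf0 : f ≠ 0 := by
    rintro rfl
    obtain ⟨a, ha, -⟩ := hf ∅
    simp at ha
  obtain ⟨G₁, hG₁, C₁, h₁⟩ := VG.final W S g d hd hY (ε / 2) (half_pos hε)
  obtain ⟨G₂, hG₂, C₂, h₂⟩ := final_prox W S f e he hf (ε / 2) (half_pos hε)
  refine ⟨f * (G₁ * G₂), mul_ne_zero hf0 (mul_ne_zero hG₁ hG₂), dvd_mul_right _ _, C₁ + C₂,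
    fun x y u hxy hu hG => ?_⟩
  rw [map_mul, map_mul] at hG
  have h3 := right_ne_zero_of_mul hG
  have h4 := h₁ x y u hxy hu (left_ne_zero_of_mul h3)
  have h5 := h₂ x y u hxy hu (right_ne_zero_of_mul h3)
  rw [add_mul]
  linarith

end Pool.Agent.Lib.MP_17a322_nt.VG.JG
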