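import Pool.Agent.Lib.MP_17a322_nt.VDL.LE0
import Pool.Agent.Lib.MP_17a322_nt.VG.L0

/-!
The joint gain, diminished by the losses at the boundary.
-/

universe u

namespace Pool.Agent.Lib.MP_17a322_nt.VG.JG

open MvPolynomial Height
open Pool.Agent.Lib.MP_17a322_nt.RO
open Pool.Agent.Lib.MP_17a322_nt.VJ
open Pool.Agent.Lib.MP_17a322_nt.VN
open Pool.Agent.Lib.MP_17a322_nt.VDL

/-- The loss at the boundary at one place. -/
noncomputable def ls {L : Type*} [Field L] {n : ℕ} (τ : Fin n → Bool) (v : AbsoluteValue L ℝ)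
    (s : Fin n → L) : ℝ :=
  ∑ t, if τ t then - Real.log (v (s t)) else 0

/-- The joint gain at one place, diminished by `N` times the mean of the weighted losses. -/
noncomputable def gBv {L : Type*} [Field L] {m n : ℕ} (τ : Fin n → Bool) (N : ℝ)
    (j : Fin m → ℕ) (s : Fin m → Fin n → L) (a : Fin m → L) (v : AbsoluteValue L ℝ) : ℝ :=
  open Classical in
  if ∀ i t, v (s i t) ≤ 1 then
    max 0 (gjv j s a v - N / m * ∑ i, ((4 : ℝ) ^ j i)⁻¹ * ls τ v (s i)) else 0

/-- The joint gain, diminished by the losses. -/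
noncomputable def gBJ {L : Type*} [Field L] [AdmissibleAbsValues L] {m n : ℕ} (τ : Fin n → Bool)
    (N : ℝ) (j : Fin m → ℕ) (s : Fin m → Fin n → L) (a : Fin m → L) : ℝ :=
  gs (gBv τ N j s a)

theorem ls_nonneg {L : Type*} [Field L] {n : ℕ} (τ : Fin n → Bool) (v : AbsoluteValue L ℝ)
    (s : Fin n → L) (h : ∀ t, v (s t) ≤ 1) : 0 ≤ ls τ v s := by
  unfold ls
  refine Finset.sum_nonneg fun t _ => ?_
  split_ifs
  · have := Real.log_nonpos (v.nonneg _) (h t)
    linarith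
  · exact le_rfl

theorem gBv_nonneg {L : Type*} [Field L] {m n : ℕ} (τ : Fin n → Bool) (N : ℝ)
    (j : Fin m → ℕ) (s : Fin m → Fin n → L) (a : Fin m → L) (v : AbsoluteValue L ℝ) :
    0 ≤ gBv τ N j s a v := by
  unfold gBv
  split_ifs
  · exact le_max_left _ _
  · exact le_rfl

theorem loss_nonneg {L : Type*} [Field L] {m n : ℕ} (τ : Fin n → Bool) {N : ℝ} (hN : 0 ≤ N)
    (j : Fin m → ℕ) (s : Fin m → Fin n → L) (v : AbsoluteValue L ℝ) (h : ∀ i t, v (s i t) ≤ 1) :
    0 ≤ N / m * ∑ i, ((4 : ℝ) ^ j i)⁻¹ * ls τ v (s i) :=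
  mul_nonneg (div_nonneg hN (Nat.cast_nonneg _)) (Finset.sum_nonneg fun i _ =>
    mul_nonneg (by positivity) (ls_nonneg τ v (s i) (h i)))

theorem gBv_le {L : Type*} [Field L] {m n : ℕ} (τ : Fin n → Bool) {N : ℝ} (hN : 0 ≤ N)
    (j : Fin m → ℕ) (s : Fin m → Fin n → L) (a : Fin m → L) (v : AbsoluteValue L ℝ) :
    gBv τ N j s a v ≤ gjv j s a v := by
  unfold gBv
  split_ifs with h
  · refine max_le (gjv_nonneg j s a v) ?_
    have := loss_nonneg τ hN j s v h
    linarith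
  · exact gjv_nonneg j s a v

theorem FS_gBv {L : Type*} [Field L] [AdmissibleAbsValues L] {m n : ℕ} (τ : Fin n → Bool) {N : ℝ}
    (hN : 0 ≤ N) (j : Fin m → ℕ) (s : Fin m → Fin n → L) (a : Fin m → L) (ha : ∀ i, a i ≠ 0) :
    FS (gBv τ N j s a) := by
  refine (FS_gjv j s a ha).subset fun v hv => ?_
  intro h0
  apply hv
  exact le_antisymm ((gBv_le τ hN j s a v.val).trans (le_of_eq h0)) (gBv_nonneg τ N j s a v.val)

theorem gBJ_nonneg {L : Type*} [Field L] [NumberField L] {m n : ℕ} (τ : Fin n → Bool) (N : ℝ)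
    (j : Fin m → ℕ) (s : Fin m → Fin n → L) (a : Fin m → L) : 0 ≤ gBJ τ N j s a :=
  gs_nonneg fun v _ => gBv_nonneg τ N j s a v

theorem gBJ_map {K L : Type*} [Field K] [NumberField K] [Field L] [NumberField L] [Algebra K L]
    {m n : ℕ} (τ : Fin n → Bool) {N : ℝ} (hN : 0 ≤ N) (j : Fin m → ℕ) (s : Fin m → Fin n → K)
    (a : Fin m → K) (ha : ∀ i, a i ≠ 0) :
    gBJ τ N j (fun i t => algebraMap K L (s i t)) (fun i => algebraMap K L (a i)) =
      Module.finrank K L * gBJ τ N j s a := by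
  classical
  refine (gs_bc _ _ (FS_gBv τ hN j s a ha) (fun ψ => ?_) (fun v w n hn0 hvw => ?_)).2
  · unfold gBv gjv ls
    simp only [A7_apply]
  · have hl : ∀ i, ls τ w (fun t => algebraMap K L (s i t)) = n * ls τ v (s i) := by
      intro i
      unfold ls
      rw [Finset.mul_sum]
      refine Finset.sum_congr rfl fun t _ => ?_
      split_ifs
      · rw [hvw, Real.log_pow]
        ring
      · rw [mul_zero]
    have hg : gjv j (fun i t => algebraMap K L (s i t)) (fun i => algebraMap K L (a i)) w =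
        n * gjv j s a v := by
      unfold gjv
      simp only [hvw]
      have h1 : (∀ i t, v (s i t) ^ n ≤ 1) ↔ ∀ i t, v (s i t) ≤ 1 :=
        forall_congr' fun i => forall_congr' fun t =>
          pow_le_one_iff_of_nonneg (v.nonneg _) hn0.ne'
      have h2 : ∀ i, (- Real.log (min 1 (v (a i) ^ n))) / (4 : ℝ) ^ j i =
          n * ((- Real.log (min 1 (v (a i)))) / 4 ^ j i) := by
        intro i
        have h3 : min 1 (v (a i) ^ n) = (min 1 (v (a i))) ^ n := by
          rcases le_total 1 (v (a i)) with h | h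
          · rw [min_eq_left h, min_eq_left (one_le_pow₀ h), one_pow]
          · rw [min_eq_right h, min_eq_right (pow_le_one₀ (v.nonneg _) h)]
        rw [h3, Real.log_pow]
        ring
      by_cases h5 : ∀ i t, v (s i t) ≤ 1
      · rw [if_pos h5, if_pos (h1.2 h5), Real.mul_iInf_of_nonneg (Nat.cast_nonneg n)]
        exact iInf_congr h2
      · rw [if_neg h5, if_neg (fun h6 => h5 (h1.1 h6)), mul_zero]
    have h1 : (∀ i t, w (algebraMap K L (s i t)) ≤ 1) ↔ ∀ i t, v (s i t) ≤ 1 :=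
      forall_congr' fun i => forall_congr' fun t => by
        rw [hvw]
        exact pow_le_one_iff_of_nonneg (v.nonneg _) hn0.ne'
    unfold gBv
    by_cases h5 : ∀ i t, v (s i t) ≤ 1
    · rw [if_pos h5, if_pos (h1.2 h5), hg]
      have hn' : (0 : ℝ) ≤ n := Nat.cast_nonneg n
      have h6 : (n : ℝ) * gjv j s a v - N / m * ∑ i, ((4 : ℝ) ^ j i)⁻¹ *
          ls τ w (fun t => algebraMap K L (s i t)) =
          n * (gjv j s a v - N / m * ∑ i, ((4 : ℝ) ^ j i)⁻¹ * ls τ v (s i)) := by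
        simp only [hl]
        rw [mul_sub, Finset.mul_sum, Finset.mul_sum, Finset.mul_sum]
        congr 1
        refine Finset.sum_congr rfl fun i _ => ?_
        ring
      rw [h6, mul_max_of_nonneg _ _ hn', mul_zero]
    · rw [if_neg h5, if_neg (fun h6 => h5 (h1.1 h6)), mul_zero]

private theorem GJ_log_sg {K : Type u} [Field K] {L : Type*} [Field L] {n : ℕ} (W : Fin n → CT K)
    (v : AbsoluteValue L ℝ) (s : Fin n → L) (hs : ∀ t, (W t).isTor = true → s t ≠ 0)
    (h : ∀ t, v (s t) ≤ 1) :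
    Real.log (∏ t, sg (W t) v (s t)) = 2 * ls (fun t => (W t).isTor) v s := by
  unfold ls
  rw [Real.log_prod fun t _ => (zero_lt_one.trans_le (one_le_sg (W t) v (s t))).ne',
    Finset.mul_sum]
  refine Finset.sum_congr rfl fun t _ => ?_
  beta_reduce
  have h1 := hs t
  have h2 := h t
  cases hW : W t with
  | ell W' =>
    change Real.log 1 = 2 * (if false = true then _ else 0)
    rw [Real.log_one, if_neg Bool.false_ne_true, mul_zero]
  | tor =>
    rw [hW] at h1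
    have h3 : s t ≠ 0 := h1 rfl
    have h4 : 0 < v (s t) := v.pos h3
    change Real.log (max 1 (v (s t))⁻¹ ^ 2) = 2 * (if true = true then _ else 0)
    rw [max_eq_right ((one_le_inv₀ h4).2 h2), Real.log_pow, if_pos rfl, Real.log_inv]
    push_cast
    ring

/-- The choice of the gain at one place. -/
theorem gain_choiceJ {K : Type u} [Field K] {L : Type*} [Field L] {m n : ℕ} (hm : 0 < m)
    (W : Fin n → CT K) (v : AbsoluteValue L ℝ) (j : Fin m → ℕ) (s : Fin m → Fin n → L)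
    (hs : ∀ i t, (W t).isTor = true → s i t ≠ 0) (a : Fin m → L) (ha : ∀ i, a i ≠ 0) (N J : ℕ)
    (hJ : ∀ i, j i ≤ J) :
    ∃ del : ℝ, 0 < del ∧ del ≤ 1 ∧ dj j s a v ≤ del ∧
      ((del = 1 ∧ Real.exp (-(((m * 4 ^ J : ℕ) : ℝ) *
          gBv (fun t => (W t).isTor) (2 * N) j s a v)) = 1) ∨
        ((∀ i t, v (s i t) ≤ 1) ∧ (∀ i, v (a i) ≤ del ^ (4 ^ j i)) ∧
          (∏ i, (∏ t, sg (W t) v (s i t)) ^ (N * 4 ^ (J - j i))) * del ^ (m * 4 ^ J) ≤
            Real.exp (-(((m * 4 ^ J : ℕ) : ℝ) *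
              gBv (fun t => (W t).isTor) (2 * N) j s a v)))) := by
  classical
  obtain ⟨hd0, hd1⟩ := dj_pos j s a v
  obtain ⟨τ, hτ⟩ : ∃ τ : Fin n → Bool, τ = fun t => (W t).isTor := ⟨_, rfl⟩
  rw [← hτ]
  by_cases hI : gBv τ (2 * N) j s a v = 0
  · refine ⟨1, one_pos, le_rfl, hd1, Or.inl ⟨rfl, ?_⟩⟩
    rw [hI, mul_zero, neg_zero, Real.exp_zero]
  have hI' : 0 < gBv τ (2 * N) j s a v :=
    lt_of_le_of_ne (gBv_nonneg τ (2 * N) j s a v) (Ne.symm hI)
  have hσ : ∀ i t, v (s i t) ≤ 1 := by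
    by_contra h
    apply hI
    unfold gBv
    rw [if_neg h]
  have hIe : gBv τ (2 * N) j s a v =
      gjv j s a v - 2 * N / m * ∑ i, ((4 : ℝ) ^ j i)⁻¹ * ls τ v (s i) := by
    unfold gBv at hI' ⊢
    rw [if_pos hσ] at hI' ⊢
    rcases le_total (gjv j s a v - 2 * N / m * ∑ i, ((4 : ℝ) ^ j i)⁻¹ * ls τ v (s i)) 0 with h | h
    · rw [max_eq_left h] at hI'
      exact absurd hI' (lt_irrefl _)
    · rw [max_eq_right h]
  have hls := loss_nonneg τ (N := 2 * (N : ℝ)) (by positivity) j s v hσ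
  have hgpos : 0 < gjv j s a v := by linarith
  have hne : dj j s a v ≠ 1 := by
    intro h
    have h1 := log_dj j s a v
    rw [h, Real.log_one] at h1
    linarith
  have hcs := (dj_cases j s a ha v).resolve_left hne
  refine ⟨dj j s a v, hd0, hd1, le_rfl, Or.inr ⟨hcs.1, hcs.2, ?_⟩⟩
  have hsg : ∀ i, 0 < ∏ t, sg (W t) v (s i t) := fun i =>
    Finset.prod_pos fun t _ => zero_lt_one.trans_le (one_le_sg (W t) v (s i t))
  have hsgp : 0 < ∏ i, (∏ t, sg (W t) v (s i t)) ^ (N * 4 ^ (J - j i)) :=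
    Finset.prod_pos fun i _ => pow_pos (hsg i) _
  rw [← Real.log_le_iff_le_exp (mul_pos hsgp (pow_pos hd0 _)),
    Real.log_mul hsgp.ne' (pow_pos hd0 _).ne', Real.log_pow,
    Real.log_prod fun i _ => (pow_pos (hsg i) _).ne', log_dj, hIe]
  refine le_of_eq ?_
  have h1 : ∀ i, Real.log ((∏ t, sg (W t) v (s i t)) ^ (N * 4 ^ (J - j i))) =
      2 * N * 4 ^ J * (((4 : ℝ) ^ j i)⁻¹ * ls τ v (s i)) := by
    intro i
    rw [Real.log_pow, GJ_log_sg W v (s i) (hs i) (hσ i), hτ]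
    have h2 : (4 : ℝ) ^ J = 4 ^ (J - j i) * 4 ^ j i := by
      rw [← pow_add, Nat.sub_add_cancel (hJ i)]
    have h3 : (4 : ℝ) ^ j i ≠ 0 := by positivity
    rw [h2]
    push_cast
    field_simp
  rw [Finset.sum_congr rfl fun i _ => h1 i, ← Finset.mul_sum]
  have hm' : (m : ℝ) ≠ 0 := by exact_mod_cast hm.ne'
  push_cast
  field_simp
  ring

end Pool.Agent.Lib.MP_17a322_nt.VG.JG
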