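import Pool.Agent.Lib.MP_17a322_nt.VDG.LB
import Pool.Agent.Lib.MP_17a322_nt.VDL.LC
import Pool.Agent.Lib.MP_17a322_nt.VG.L1o

/-!
The estimate of all blocks at once.
-/

universe u

namespace Pool.Agent.Lib.MP_17a322_nt.VG.JG

open MvPolynomial Height
open Pool.Agent.Lib.MP_17a322_nt.RO
open Pool.Agent.Lib.MP_17a322_nt.VJ
open Pool.Agent.Lib.MP_17a322_nt.VN
open Pool.Agent.Lib.MP_17a322_nt.VDL

/-- one factor of the product over `t` -/
private theorem LC_fac {R : Type*} [CommRing R] {c0 c1 d ξ : R} (h1 : c1 * d = 1) (h0 : c0 * d = ξ)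
    {ν b : ℕ} (hν : ν ≤ b) : ξ ^ ν = d ^ b * (c0 ^ ν * c1 ^ (b - ν)) := by
  obtain ⟨a, rfl⟩ := Nat.exists_eq_add_of_le hν
  rw [Nat.add_sub_cancel_left, pow_add, ← h0, mul_pow]
  have h2 : c1 ^ a * d ^ a = 1 := by rw [← mul_pow, h1, one_pow]
  linear_combination (- (c0 ^ ν * d ^ ν)) * h2

theorem joint_sum {K : Type*} [Field K] {m n : ℕ} (W : Fin n → CT K)
    (χ : Fin n → Bool) (j b : Fin m → ℕ) {R : Type*} [CommRing R] [Algebra K R]
    (Φ : (Fin m → Fin n → ℕ) → R) (x : Fin n → R) (u ξ : Fin m → Fin n → R)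
    (c : Fin m → Fin n → Bool) (B d : Fin m → Fin n → R)
    (hB : ∀ i t, B i t ^ 2 = ph (W t) (mu (W t) (j i) ![x t, 1]) * ph (W t) (vc (χ t) (u i t)))
    (hd : ∀ i t, col (W t) (mu (W t) (j i) ![x t, 1]) (vc (χ t) (u i t)) (B i t) (c i t) 1 *
      d i t = 1)
    (hξ : ∀ i t, col (W t) (mu (W t) (j i) ![x t, 1]) (vc (χ t) (u i t)) (B i t) (c i t) 0 *
      d i t = ξ i t) :
    ∑ ν ∈ BB (fun i => b i + 1), Φ ν * ∏ i, ∏ t, ξ i t ^ ν i t =
      (∏ i, ∏ t, d i t ^ b i) * ∑ ε : Fin m → Fin n → Bool,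
        (∏ i, ∏ t, if ε i t then B i t else 1) *
        ∑ ν ∈ BB (fun i => b i + 1), Φ ν * ∏ i, UV W χ (j i) (b i) x (u i) (c i) (ε i) (ν i) := by
  classical
  have h1 : ∀ μ ∈ BB (fun i => b i + 1), Φ μ * ∏ i, ∏ t, ξ i t ^ μ i t =
      (∏ i, ∏ t, d i t ^ b i) * ∑ ε : Fin m → Fin n → Bool,
        (∏ i, ∏ t, if ε i t then B i t else 1) *
        (Φ μ * ∏ i, UV W χ (j i) (b i) x (u i) (c i) (ε i) (μ i)) := by
    intro μ hμ
    have h2 : ∀ i, ∏ t, ξ i t ^ μ i t = (∏ t, d i t ^ b i) * ∑ ε : Fin n → Bool,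
        (∏ t, if ε t then B i t else 1) * UV W χ (j i) (b i) x (u i) (c i) ε (μ i) := by
      intro i
      rw [← prod_col W χ (j i) (b i) x (u i) (B i) (hB i) (c i) (μ i), ← Finset.prod_mul_distrib]
      refine Finset.prod_congr rfl fun t _ => ?_
      exact LC_fac (hd i t) (hξ i t) (Nat.lt_succ_iff.1 ((mem_BB _ _).1 hμ i t))
    have h3 : ∏ i, ∑ ε : Fin n → Bool, (∏ t, if ε t then B i t else 1) *
        UV W χ (j i) (b i) x (u i) (c i) ε (μ i) = ∑ ε : Fin m → Fin n → Bool,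
        (∏ i, ∏ t, if ε i t then B i t else 1) *
          ∏ i, UV W χ (j i) (b i) x (u i) (c i) (ε i) (μ i) := by
      rw [Finset.prod_univ_sum, Fintype.piFinset_univ]
      exact Finset.sum_congr rfl fun ε _ => Finset.prod_mul_distrib
    rw [Finset.prod_congr rfl fun i _ => h2 i, Finset.prod_mul_distrib, h3, mul_left_comm,
      Finset.mul_sum]
    congr 1
    exact Finset.sum_congr rfl fun ε _ => mul_left_comm _ _ _
  rw [Finset.sum_congr rfl h1, ← Finset.mul_sum, Finset.sum_comm]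
  congr 1
  refine Finset.sum_congr rfl fun ε _ => ?_
  rw [Finset.mul_sum]

section

variable {K L : Type*} [Field K] [Field L] [Algebra K L] {v : AbsoluteValue L ℝ}
  {R : Type*} [CommRing R] [Algebra L R] [Algebra K R] [IsScalarTower K L R] {ν : R → ℝ}

omit [Algebra K R] [IsScalarTower K L R] in
private theorem LC_Bprod (h : SN v ν) {n : ℕ} (B : Fin n → R) (ε : Fin n → Bool) (M : Fin n → ℝ)
    (hM1 : ∀ t, 1 ≤ M t) (hM : ∀ t, ν (B t) ≤ M t) :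
    ν (∏ t, if ε t then B t else 1) ≤ ∏ t, M t := by
  refine (h.prod_le _ _).trans (Finset.prod_le_prod (fun t _ => h.nonneg _) fun t _ => ?_)
  split_ifs
  · exact hM t
  · exact h.one_le.trans (hM1 t)

/-- one coordinate: `X t`, `m t`, `y t` -/
private theorem LC_one {kk X m y Bt : ℝ} {b f : ℕ} (hkk : 1 ≤ kk) (hX : 1 ≤ X) (hm : 0 < m)
    (hy : 1 ≤ y) (hMl : y ^ f ≤ kk ^ (8 * f) * m) (hBt : Bt ≤ kk ^ (1 + 32 * f) * y ^ (2 * f)) :
    (kk * X / m ^ 2) ^ b * Bt * y ^ (2 * (b * f)) ≤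
      X ^ b * kk ^ (b + (1 + 32 * f) + 16 * (b * f)) * y ^ (2 * f) := by
  have h0 : 0 ≤ kk := zero_le_one.trans hkk
  have hX0 : 0 ≤ X := zero_le_one.trans hX
  have hy0 : 0 ≤ y := zero_le_one.trans hy
  have h1 : y ^ (2 * (b * f)) ≤ kk ^ (16 * (b * f)) * (m ^ 2) ^ b := by
    calc y ^ (2 * (b * f)) = (y ^ f) ^ (2 * b) := by rw [← pow_mul]; congr 1; ring
      _ ≤ (kk ^ (8 * f) * m) ^ (2 * b) := pow_le_pow_left₀ (pow_nonneg hy0 _) hMl _
      _ = kk ^ (16 * (b * f)) * (m ^ 2) ^ b := by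
        rw [mul_pow, ← pow_mul, ← pow_mul]
        congr 2
        ring
  have h2 : (kk * X / m ^ 2) ^ b * y ^ (2 * (b * f)) ≤ X ^ b * kk ^ (b + 16 * (b * f)) := by
    rw [div_pow, div_mul_eq_mul_div, div_le_iff₀ (pow_pos (pow_pos hm 2) b)]
    calc (kk * X) ^ b * y ^ (2 * (b * f)) ≤ (kk * X) ^ b * (kk ^ (16 * (b * f)) * (m ^ 2) ^ b) :=
          mul_le_mul_of_nonneg_left h1 (pow_nonneg (mul_nonneg h0 hX0) _)
      _ = X ^ b * kk ^ (b + 16 * (b * f)) * (m ^ 2) ^ b := by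
        rw [mul_pow, pow_add]
        ring
  calc (kk * X / m ^ 2) ^ b * Bt * y ^ (2 * (b * f)) =
        ((kk * X / m ^ 2) ^ b * y ^ (2 * (b * f))) * Bt := by ring
    _ ≤ (X ^ b * kk ^ (b + 16 * (b * f))) * (kk ^ (1 + 32 * f) * y ^ (2 * f)) := by
        refine (mul_le_mul_of_nonneg_left hBt ?_).trans (mul_le_mul_of_nonneg_right h2 ?_)
        · positivity
        · positivity
    _ = X ^ b * kk ^ (b + (1 + 32 * f) + 16 * (b * f)) * y ^ (2 * f) := by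
        rw [pow_add, pow_add, pow_add]
        ring

/-- the final inequality between real numbers -/
private theorem LC_fin {n b f q c : ℕ} {c2 ce RB κ kk Lc Y XP PD M1 : ℝ} (hq : q = b * f)
    (hb : 1 ≤ b) (hf : 1 ≤ f) (h20 : 0 ≤ c2) (h2 : c2 ≤ kk) (hkk : 1 ≤ kk) (hce : 0 ≤ ce)
    (hRB : 0 ≤ RB) (hκ : 0 ≤ κ) (hLc0 : 0 ≤ Lc) (hLc : Lc ≤ kk ^ n) (hY : 0 ≤ Y)
    (hXP : 0 ≤ XP)
    (hmain : PD * M1 * Y ^ (2 * q) ≤ XP * kk ^ (n * (b + (1 + 32 * f) + 16 * q)) * Y ^ (2 * f)) :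
    PD * (c2 ^ n * (M1 * (Lc ^ (49 * q) * Y ^ (2 * q) *
      (c2 * ce * RB * κ * kk) ^ (c * b)))) ≤
    kk ^ ((200 * n + 2 * c) * q) * (ce * RB * κ) ^ (c * b) * Y ^ (2 * f) * XP := by
  have h0 : 0 ≤ kk := zero_le_one.trans hkk
  have hS : 0 ≤ (ce * RB * κ) ^ (c * b) := by positivity
  have e1 : (c2 * ce * RB * κ * kk) ^ (c * b) ≤ kk ^ (2 * (c * b)) * (ce * RB * κ) ^ (c * b) := by
    calc (c2 * ce * RB * κ * kk) ^ (c * b) = (c2 * kk * (ce * RB * κ)) ^ (c * b) := by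
          congr 1
          ring
      _ ≤ (kk * kk * (ce * RB * κ)) ^ (c * b) := by
          refine pow_le_pow_left₀ (by positivity) ?_ _
          exact mul_le_mul_of_nonneg_right (mul_le_mul_of_nonneg_right h2 h0) (by positivity)
      _ = kk ^ (2 * (c * b)) * (ce * RB * κ) ^ (c * b) := by
          rw [mul_pow, ← pow_two, ← pow_mul]
  have e2 : c2 ^ n ≤ kk ^ n := pow_le_pow_left₀ h20 h2 n
  have e3 : Lc ^ (49 * q) ≤ kk ^ (n * (49 * q)) := by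
    rw [pow_mul kk n]
    exact pow_le_pow_left₀ hLc0 hLc _
  have e4 : c2 ^ n * Lc ^ (49 * q) * (c2 * ce * RB * κ * kk) ^ (c * b) ≤
      kk ^ n * kk ^ (n * (49 * q)) * (kk ^ (2 * (c * b)) * (ce * RB * κ) ^ (c * b)) := by
    refine mul_le_mul (mul_le_mul e2 e3 (by positivity) (by positivity)) e1 (by positivity)
      (by positivity)
  have hexp : n * (b + (1 + 32 * f) + 16 * q) + n + n * (49 * q) + 2 * (c * b) ≤
      (200 * n + 2 * c) * q := by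
    have hbq : b ≤ q := by rw [hq]; exact Nat.le_mul_of_pos_right b hf
    have hfq : f ≤ q := by rw [hq]; exact Nat.le_mul_of_pos_left f hb
    have hq1 : 1 ≤ q := hb.trans hbq
    have a1 : n * (b + (1 + 32 * f) + 16 * q) ≤ n * (50 * q) := Nat.mul_le_mul_left n (by omega)
    have a2 : n ≤ n * q := Nat.le_mul_of_pos_right n hq1
    have a3 : 2 * (c * b) ≤ 2 * (c * q) := Nat.mul_le_mul_left 2 (Nat.mul_le_mul_left c hbq)
    have a4 : n * (50 * q) = 50 * (n * q) := by ring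
    have a5 : n * (49 * q) = 49 * (n * q) := by ring
    have a6 : (200 * n + 2 * c) * q = 200 * (n * q) + 2 * (c * q) := by ring
    rw [a6, a5]
    rw [a4] at a1
    omega
  calc PD * (c2 ^ n * (M1 * (Lc ^ (49 * q) * Y ^ (2 * q) *
        (c2 * ce * RB * κ * kk) ^ (c * b)))) =
      (PD * M1 * Y ^ (2 * q)) * (c2 ^ n * Lc ^ (49 * q) *
        (c2 * ce * RB * κ * kk) ^ (c * b)) := by ring
    _ ≤ (XP * kk ^ (n * (b + (1 + 32 * f) + 16 * q)) * Y ^ (2 * f)) *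
        (c2 ^ n * Lc ^ (49 * q) * (c2 * ce * RB * κ * kk) ^ (c * b)) :=
        mul_le_mul_of_nonneg_right hmain (by positivity)
    _ ≤ (XP * kk ^ (n * (b + (1 + 32 * f) + 16 * q)) * Y ^ (2 * f)) *
        (kk ^ n * kk ^ (n * (49 * q)) * (kk ^ (2 * (c * b)) * (ce * RB * κ) ^ (c * b))) :=
        mul_le_mul_of_nonneg_left e4 (by positivity)
    _ = kk ^ (n * (b + (1 + 32 * f) + 16 * q) + n + n * (49 * q) + 2 * (c * b)) *
        ((ce * RB * κ) ^ (c * b) * Y ^ (2 * f) * XP) := by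
        rw [pow_add, pow_add, pow_add]
        ring
    _ ≤ kk ^ ((200 * n + 2 * c) * q) *
        ((ce * RB * κ) ^ (c * b) * Y ^ (2 * f) * XP) :=
        mul_le_mul_of_nonneg_right (pow_le_pow_right₀ hkk hexp) (by positivity)
    _ = kk ^ ((200 * n + 2 * c) * q) * (ce * RB * κ) ^ (c * b) * Y ^ (2 * f) * XP := by
        ring

/-- The estimate of all blocks with the joint conditions. -/
theorem joint_gain (h : SN v ν) {k e m : ℕ} (ρ : Fin m → REP K (k + 1) e) {D : ℕ}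
    (hD : ∀ i, (ρ i).Deg D)
    (W : Fin (k + 1) → CT K) (χ : Fin (k + 1) → Bool) {j b : Fin m → ℕ} {T : ℕ}
    (hb : ∀ i, 1 ≤ b i) (Φ : (Fin m → Fin (k + 1) → ℕ) → R) (x0 : Fin (k + 1) → L)
    (hO : ORJ ρ W χ j b T Φ x0) {Bd δ kk : ℝ} {κ : Fin m → ℝ}
    (hBd : ∀ μ ∈ BB (fun i => b i + 1), ν (Φ μ) ≤ Bd)
    (hκ : ∀ i, 1 ≤ κ i) (hδ : 0 < δ) (hδ1 : δ ≤ 1) (hkk : 1 ≤ kk) (hlc : ∀ t, lc (W t) v ≤ kk)
    (hMl : ∀ i t, max 1 (v (x0 t)) ^ (4 ^ j i) ≤ kk ^ (8 * 4 ^ j i) *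
      vn v (mu (W t) (j i) ![x0 t, 1]))
    (hM0 : ∀ i t, 0 < vn v (mu (W t) (j i) ![x0 t, 1]))
    (u ξ : Fin m → Fin (k + 1) → R) (c : Fin m → Fin (k + 1) → Bool)
    (B d : Fin m → Fin (k + 1) → R)
    (X : Fin m → Fin (k + 1) → ℝ) (hX : ∀ i t, 1 ≤ X i t)
    (hB : ∀ i t, B i t ^ 2 = ph (W t) (mu (W t) (j i) ![algebraMap L R (x0 t), 1]) *
      ph (W t) (vc (χ t) (u i t)))
    (hd : ∀ i t, col (W t) (mu (W t) (j i) ![algebraMap L R (x0 t), 1]) (vc (χ t) (u i t)) (B i t)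
      (c i t) 1 * d i t = 1)
    (hξ : ∀ i t, col (W t) (mu (W t) (j i) ![algebraMap L R (x0 t), 1]) (vc (χ t) (u i t)) (B i t)
      (c i t) 0 * d i t = ξ i t)
    (hu : ∀ i t, ν (u i t) ≤ kk)
    (hBs : ∀ i t, ν (B i t) ≤ kk * vn v (mu (W t) (j i) ![x0 t, 1]) ^ 2)
    (hds : ∀ i t, ν (d i t) ≤ kk * X i t / vn v (mu (W t) (j i) ![x0 t, 1]) ^ 2)
    (h0 : ∀ i, ν (aeval (u i) ((ρ i).z 0)) ≤ κ i * δ ^ (4 ^ j i)) :
    ν (∑ μ ∈ BB (fun i => b i + 1), Φ μ * ∏ i, ∏ t, ξ i t ^ μ i t) ≤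
      Bd * (∏ i, (kk ^ ((200 * (k + 1) + 2 * CE k D) * (b i * 4 ^ j i)) *
        (cst v (e + 1) * ((ρ i).map (algebraMap K L)).RB v * κ i) ^ (CE k D * b i) *
        (∏ t, max 1 (v (x0 t))) ^ (2 * 4 ^ j i) * (∏ t, X i t) ^ b i)) * δ ^ T := by
  classical
  have hkk0 : 0 ≤ kk := zero_le_one.trans hkk
  have hB0 : 0 ≤ Bd := BB_nonneg h.nonneg Φ hBd
  have hy1 : ∀ t, 1 ≤ max 1 (v (x0 t)) := fun t => le_max_left _ _
  have hy0 : ∀ t, 0 ≤ max 1 (v (x0 t)) := fun t => zero_le_one.trans (hy1 t)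
  have hf1 : ∀ i, 1 ≤ 4 ^ j i := fun i => Nat.one_le_pow _ _ (by norm_num)
  rw [joint_sum W χ j b Φ (fun t => algebraMap L R (x0 t)) u ξ c B d hB hd hξ]
  -- the size of `mu`
  have hmu : ∀ i t, vn v (mu (W t) (j i) ![x0 t, 1]) ≤
      kk ^ (16 * 4 ^ j i) * max 1 (v (x0 t)) ^ (4 ^ j i) := by
    intro i t
    have h2 := mu_le (W t) v (j i) ![x0 t, 1]
    have h3 : vn v ![x0 t, 1] = max 1 (v (x0 t)) := by
      have h4 : vn v ![x0 t, 1] = max (v (x0 t)) (v 1) := rfl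
      rw [h4, map_one, max_comm]
    rw [h3] at h2
    refine h2.trans (mul_le_mul_of_nonneg_right ?_ (pow_nonneg (hy0 t) _))
    exact pow_le_pow_left₀ (zero_le_one.trans (one_le_lc (W t) v)) (hlc t) _
  have hBt : ∀ i t, ν (B i t) ≤ kk ^ (1 + 32 * 4 ^ j i) * max 1 (v (x0 t)) ^ (2 * 4 ^ j i) := by
    intro i t
    refine (hBs i t).trans ?_
    calc kk * vn v (mu (W t) (j i) ![x0 t, 1]) ^ 2 ≤
        kk * (kk ^ (16 * 4 ^ j i) * max 1 (v (x0 t)) ^ (4 ^ j i)) ^ 2 :=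
          mul_le_mul_of_nonneg_left (pow_le_pow_left₀ (hM0 i t).le (hmu i t) 2) hkk0
      _ = kk ^ (1 + 32 * 4 ^ j i) * max 1 (v (x0 t)) ^ (2 * 4 ^ j i) := by
          rw [mul_pow, ← pow_mul, ← pow_mul, pow_add, pow_one]
          have e1 : 16 * 4 ^ j i * 2 = 32 * 4 ^ j i := by ring
          have e2 : 4 ^ j i * 2 = 2 * 4 ^ j i := by ring
          rw [e1, e2]
          ring
  have hM1 : ∀ i t, 1 ≤ kk ^ (1 + 32 * 4 ^ j i) * max 1 (v (x0 t)) ^ (2 * 4 ^ j i) := fun i t =>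
    one_le_mul_of_one_le_of_one_le (one_le_pow₀ hkk) (one_le_pow₀ (hy1 t))
  obtain ⟨RB, hRB⟩ : ∃ RB : Fin m → ℝ, RB = fun i => ((ρ i).map (algebraMap K L)).RB v := ⟨_, rfl⟩
  have hR0 : ∀ i, 0 ≤ RB i := fun i => by
    rw [hRB]
    exact zero_le_one.trans (one_le_RB _ v)
  have hκ0 : ∀ i, 0 ≤ κ i := fun i => zero_le_one.trans (hκ i)
  have hLc0 : 0 ≤ ∏ t, lc (W t) v :=
    Finset.prod_nonneg fun t _ => zero_le_one.trans (one_le_lc (W t) v)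
  have hY0 : 0 ≤ ∏ t, max 1 (v (x0 t)) := Finset.prod_nonneg fun t _ => hy0 t
  have hc20 := cst_nonneg v 2
  have hce0 := cst_nonneg v (e + 1)
  obtain ⟨F, hF⟩ : ∃ F : Fin m → ℝ, F = fun i =>
      (∏ t, lc (W t) v) ^ (49 * (b i * 4 ^ j i)) * (∏ t, max 1 (v (x0 t))) ^ (2 * (b i * 4 ^ j i)) *
        (cst v 2 * cst v (e + 1) * RB i * κ i * kk) ^ (CE k D * b i) := ⟨_, rfl⟩
  have hF0 : ∀ i, 0 ≤ F i := fun i => by
    rw [hF]
    have := hR0 i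
    have := hκ0 i
    positivity
  obtain ⟨M1, hM1d⟩ : ∃ M1 : Fin m → ℝ, M1 = fun i =>
      ∏ t, (kk ^ (1 + 32 * 4 ^ j i) * max 1 (v (x0 t)) ^ (2 * 4 ^ j i)) := ⟨_, rfl⟩
  have hM10 : ∀ i, 0 ≤ M1 i := fun i => by
    rw [hM1d]
    exact Finset.prod_nonneg fun t _ => zero_le_one.trans (hM1 i t)
  have hE0 : 0 ≤ Bd * (∏ i, F i) * δ ^ T :=
    mul_nonneg (mul_nonneg hB0 (Finset.prod_nonneg fun i _ => hF0 i)) (pow_nonneg hδ.le _)
  have hBp : ∀ ε : Fin m → Fin (k + 1) → Bool,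
      ν (∏ i, ∏ t, if ε i t then B i t else 1) ≤ ∏ i, M1 i := by
    intro ε
    refine (h.prod_le _ _).trans (Finset.prod_le_prod (fun i _ => h.nonneg _) fun i _ => ?_)
    rw [hM1d]
    exact LC_Bprod h (B i) (ε i) _ (hM1 i) (hBt i)
  -- the sum over `ε`
  have hsum := h.sum_le (Finset.univ : Finset (Fin m → Fin (k + 1) → Bool))
    (fun ε => (∏ i, ∏ t, if ε i t then B i t else 1) * ∑ μ ∈ BB (fun i => b i + 1),
      Φ μ * ∏ i, UV W χ (j i) (b i) (fun t => algebraMap L R (x0 t)) (u i) (c i) (ε i) (μ i))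
    (mul_nonneg (Finset.prod_nonneg fun i _ => hM10 i) hE0)
    (fun ε _ => (h.mul _ _).trans (mul_le_mul (hBp ε)
      (by
        have h1 := ORJ_estimate h ρ hD W χ hb Φ x0 hO hBd (fun _ => hkk) hκ hδ hδ1 u hu h0 c ε
        rw [hF, hRB]
        exact h1) (h.nonneg _) (Finset.prod_nonneg fun i _ => hM10 i)))
  rw [Finset.card_univ, Fintype.card_fun, Fintype.card_fun, Fintype.card_bool, Fintype.card_fin,
    Fintype.card_fin, cst_pow, cst_pow] at hsum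
  -- the size of the product of the `d t`
  obtain ⟨PD, hPDd⟩ : ∃ PD : Fin m → ℝ, PD = fun i =>
      ∏ t, (kk * X i t / vn v (mu (W t) (j i) ![x0 t, 1]) ^ 2) ^ b i := ⟨_, rfl⟩
  have hPD0 : ∀ i, 0 ≤ PD i := fun i => by
    rw [hPDd]
    refine Finset.prod_nonneg fun t _ => ?_
    have b1 : 0 ≤ X i t := zero_le_one.trans (hX i t)
    have b3 := (hM0 i t).le
    positivity
  have hPd : ν (∏ i, ∏ t, d i t ^ b i) ≤ ∏ i, PD i := by
    refine (h.prod_le _ _).trans (Finset.prod_le_prod (fun i _ => h.nonneg _) fun i _ => ?_)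
    rw [hPDd]
    refine (h.prod_le _ _).trans (Finset.prod_le_prod (fun t _ => h.nonneg _) fun t _ => ?_)
    exact (h.pow_le _ _).trans (pow_le_pow_left₀ (h.nonneg _) (hds i t) _)
  have hPd0 : 0 ≤ ∏ i, PD i := Finset.prod_nonneg fun i _ => hPD0 i
  refine (h.mul _ _).trans ((mul_le_mul hPd hsum (h.nonneg _) hPd0).trans ?_)
  have hmain : ∀ i, PD i * M1 i * (∏ t, max 1 (v (x0 t))) ^ (2 * (b i * 4 ^ j i)) ≤
      (∏ t, X i t) ^ b i * kk ^ ((k + 1) * (b i + (1 + 32 * 4 ^ j i) + 16 * (b i * 4 ^ j i))) *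
        (∏ t, max 1 (v (x0 t))) ^ (2 * 4 ^ j i) := by
    intro i
    rw [hPDd, hM1d]
    show (∏ t, (kk * X i t / vn v (mu (W t) (j i) ![x0 t, 1]) ^ 2) ^ b i) *
      (∏ t, (kk ^ (1 + 32 * 4 ^ j i) * max 1 (v (x0 t)) ^ (2 * 4 ^ j i))) *
        (∏ t, max 1 (v (x0 t))) ^ (2 * (b i * 4 ^ j i)) ≤ _
    have hl : (∏ t, max 1 (v (x0 t))) ^ (2 * (b i * 4 ^ j i)) =
        ∏ t, max 1 (v (x0 t)) ^ (2 * (b i * 4 ^ j i)) := (Finset.prod_pow _ _ _).symm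
    rw [hl, ← Finset.prod_mul_distrib, ← Finset.prod_mul_distrib]
    have hr : (∏ t, X i t) ^ b i *
        kk ^ ((k + 1) * (b i + (1 + 32 * 4 ^ j i) + 16 * (b i * 4 ^ j i))) *
        (∏ t, max 1 (v (x0 t))) ^ (2 * 4 ^ j i) =
        ∏ t : Fin (k + 1), (X i t ^ b i *
          kk ^ (b i + (1 + 32 * 4 ^ j i) + 16 * (b i * 4 ^ j i)) *
          max 1 (v (x0 t)) ^ (2 * 4 ^ j i)) := by
      rw [Finset.prod_mul_distrib, Finset.prod_mul_distrib, Finset.prod_pow, Finset.prod_pow,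
        Finset.prod_pow, Finset.prod_const, Finset.card_univ, Fintype.card_fin, ← pow_mul]
    rw [hr]
    refine Finset.prod_le_prod (fun t _ => ?_) fun t _ => ?_
    · have b1 : 0 ≤ X i t := zero_le_one.trans (hX i t)
      have b2 := hy0 t
      have b3 := (hM0 i t).le
      positivity
    · exact LC_one hkk (hX i t) (hM0 i t) (hy1 t) (hMl i t) le_rfl
  have hlcn : ∏ t, lc (W t) v ≤ kk ^ (k + 1) := by
    refine (Finset.prod_le_prod (fun t _ => zero_le_one.trans (one_le_lc (W t) v))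
      fun t _ => hlc t).trans (le_of_eq ?_)
    rw [Finset.prod_const, Finset.card_univ, Fintype.card_fin]
  have hfin : ∀ i, PD i * (cst v 2 ^ (k + 1) * (M1 i * F i)) ≤
      kk ^ ((200 * (k + 1) + 2 * CE k D) * (b i * 4 ^ j i)) *
        (cst v (e + 1) * RB i * κ i) ^ (CE k D * b i) *
        (∏ t, max 1 (v (x0 t))) ^ (2 * 4 ^ j i) * (∏ t, X i t) ^ b i := by
    intro i
    rw [hF]
    exact LC_fin (n := k + 1) (f := 4 ^ j i) (c := CE k D) rfl (hb i) (hf1 i) (cst_nonneg v 2)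
      ((cst_two_le_lc (W 0) v).trans (hlc 0)) hkk (cst_nonneg v (e + 1)) (hR0 i)
      (hκ0 i) hLc0 hlcn hY0
      (pow_nonneg (Finset.prod_nonneg fun t _ => zero_le_one.trans (hX i t)) _) (hmain i)
  have hre : (∏ i, PD i) * ((cst v 2 ^ (k + 1)) ^ m * ((∏ i, M1 i) * (Bd * (∏ i, F i) * δ ^ T))) =
      Bd * (∏ i, PD i * (cst v 2 ^ (k + 1) * (M1 i * F i))) * δ ^ T := by
    simp only [Finset.prod_mul_distrib, Finset.prod_const, Finset.card_univ, Fintype.card_fin]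
    ring
  rw [hre]
  refine mul_le_mul_of_nonneg_right (mul_le_mul_of_nonneg_left ?_ hB0) (pow_nonneg hδ.le _)
  rw [hRB] at hfin
  refine Finset.prod_le_prod (fun i _ => ?_) fun i _ => hfin i
  have h7 := hPD0 i
  have h8 := hM10 i
  have h9 := hF0 i
  positivity

end

end Pool.Agent.Lib.MP_17a322_nt.VG.JG
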