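import Pool.Agent.Lib.MP_17a322_nt.VDG.LD
import Pool.Agent.Lib.MP_17a322_nt.VDG.GJ
import Pool.Agent.Lib.MP_17a322_nt.VN.L1p
import Pool.Agent.Lib.MP_17a322_nt.VN.C18
import Pool.Agent.Lib.MP_17a322_nt.VG.L1t

/-!
The product formula for the joint estimate (coordinates of both types).
-/

universe u

namespace Pool.Agent.Lib.MP_17a322_nt.VG.JG

open MvPolynomial Height
open Pool.Agent.Lib.MP_17a322_nt.RO
open Pool.Agent.Lib.MP_17a322_nt.VJ
open Pool.Agent.Lib.MP_17a322_nt.VN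
open Pool.Agent.Lib.MP_17a322_nt.VDL

private theorem LE_FS_congr {L : Type*} [Field L] [AdmissibleAbsValues L]
    {f g : AbsoluteValue L ℝ → ℝ} (h : ∀ v, Pl v → f v = g v) (hf : FS f) : FS g := by
  refine hf.subset fun v hv => ?_
  intro h0
  apply hv
  rw [← h v.val (Or.inr v.property)]
  exact h0

/-- Finite support and upper bound of the sum. -/
private def LE_Gl {L : Type*} [Field L] [AdmissibleAbsValues L] (f : AbsoluteValue L ℝ → ℝ) (c : ℝ) :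
    Prop := FS f ∧ gs f ≤ c

private theorem LE_Gl_add {L : Type*} [Field L] [AdmissibleAbsValues L]
    {f g : AbsoluteValue L ℝ → ℝ} {c d : ℝ} (hf : LE_Gl f c) (hg : LE_Gl g d) :
    LE_Gl (fun v => f v + g v) (c + d) :=
  ⟨FS_add hf.1 hg.1, by
    rw [gs_add hf.1 hg.1]
    exact add_le_add hf.2 hg.2⟩

private theorem LE_Gl_mul {L : Type*} [Field L] [AdmissibleAbsValues L]
    {f : AbsoluteValue L ℝ → ℝ} {c : ℝ} (n : ℕ) (hf : LE_Gl f c) :
    LE_Gl (fun v => (n : ℝ) * f v) (n * c) :=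
  ⟨FS_const_mul _ hf.1, by
    rw [gs_const_mul]
    exact mul_le_mul_of_nonneg_left hf.2 (Nat.cast_nonneg n)⟩

private theorem LE_Gl_sum {L : Type*} [Field L] [AdmissibleAbsValues L] {ι : Type*} (s : Finset ι)
    {f : ι → AbsoluteValue L ℝ → ℝ} {c : ι → ℝ} (hf : ∀ i ∈ s, LE_Gl (f i) (c i)) :
    LE_Gl (fun v => ∑ i ∈ s, f i v) (∑ i ∈ s, c i) :=
  ⟨FS_sum s fun i hi => (hf i hi).1, by
    rw [gs_sum s fun i hi => (hf i hi).1]
    exact Finset.sum_le_sum fun i hi => (hf i hi).2⟩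

private theorem LE_prod_pos {ι : Type*} [Fintype ι] (f : ι → ℝ) : 0 < ∏ t, max 1 (f t) :=
  Finset.prod_pos fun _ _ => lt_max_of_lt_left one_pos

/-- The logarithm of the factor of the block. -/
private theorem LE_log_KJ {K L : Type*} [Field K] [Field L] [Algebra K L] (v : AbsoluteValue L ℝ)
    {k e : ℕ} (ρ : REP K (k + 1) e) (D : ℕ) (W : Fin (k + 1) → CT K)
    (j b : ℕ) (x0 q : Fin (k + 1) → L) :
    0 < KJ v ρ D W j b x0 q ∧
    Real.log (KJ v ρ D W j b x0 q) =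
      ((CF k D * (b * 4 ^ j) : ℕ) : ℝ) * (∑ t, Real.log (kc (W t) v)) +
      ((2 * (CE k D * b) : ℕ) : ℝ) * (Real.log (cst v (e + 1)) +
        Real.log ((ρ.map (algebraMap K L)).RB v)) +
      ((2 * 4 ^ j : ℕ) : ℝ) * (∑ t, Real.log (max 1 (v (x0 t)))) +
      (b : ℝ) * (∑ t, Real.log (qq (W t) v (q t))) := by
  have hk : ∀ t, 0 < kc (W t) v := fun t => zero_lt_one.trans_le (one_le_kc (W t) v)
  have hA : 0 < ∏ t, kc (W t) v := Finset.prod_pos fun t _ => hk t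
  have hB : 0 < cst v (e + 1) := zero_lt_one.trans_le (one_le_cst v (Nat.succ_le_succ (Nat.zero_le e)))
  have hC : 0 < (ρ.map (algebraMap K L)).RB v := zero_lt_one.trans_le (one_le_RB _ v)
  have hD := LE_prod_pos fun t => v (x0 t)
  have hq : ∀ t, 0 < qq (W t) v (q t) := fun t =>
    zero_lt_one.trans_le (one_le_qq (W t) v (q t))
  have hE : 0 < ∏ t, qq (W t) v (q t) := Finset.prod_pos fun t _ => hq t
  constructor
  · unfold KJ
    positivity
  · unfold KJ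
    have h1 := (pow_pos hA (CF k D * (b * 4 ^ j))).ne'
    have h2 := (pow_pos (mul_pos hB hC) (2 * (CE k D * b))).ne'
    have h3 := (pow_pos hD (2 * 4 ^ j)).ne'
    have h4 := (pow_pos hE b).ne'
    rw [Real.log_mul (mul_ne_zero (mul_ne_zero h1 h2) h3) h4,
      Real.log_mul (mul_ne_zero h1 h2) h3, Real.log_mul h1 h2, Real.log_pow, Real.log_pow,
      Real.log_pow, Real.log_pow, Real.log_mul hB.ne' hC.ne',
      Real.log_prod fun t _ => (hk t).ne',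
      Real.log_prod fun t _ => (lt_max_of_lt_left one_pos).ne',
      Real.log_prod fun t _ => (hq t).ne']

/-- The inequality from the joint estimate and the product formula. -/
theorem core_joint_ineq {K L : Type u} [Field K] [NumberField K] [Field L] [NumberField L]
    [Algebra K L] {k e m : ℕ} (hm : 0 < m) (ρ : Fin m → REP K (k + 1) e) {D : ℕ} (hD : ∀ i, (ρ i).Deg D)
    (W : Fin (k + 1) → CT K) (hW : ∀ t, (W t).IsE) (χ : Fin (k + 1) → Bool)
    (j : Fin m → ℕ) (N J : ℕ) (hN : 1 ≤ N) (hJ : ∀ i, j i ≤ J) (x0 : Fin (k + 1) → L)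
    (σ q : Fin m × Fin (k + 1) → L) (u ξ : Fin m × Fin (k + 1) → P2 L)
    (rho : Fin m → AbsoluteValue L ℝ → ℝ) (hrho : ∀ i v, 0 ≤ rho i v)
    (hM0 : ∀ i t, mu (W t) (j i) ![x0 t, 1] ≠ 0) (hcu : ∀ p, cc2 (u p) = σ p)
    (hP : ∀ v : AbsoluteValue L ℝ, Pl v → ∀ i t, PKG (W t) v (χ t)
      (mu (W t) (j i) ![x0 t, 1]) (σ (i, t)) (q (i, t)) (u (i, t)) (ξ (i, t)) (rho i v))
    (F₀ : (Fin (k + 1) → ℕ) → (Fin m → Fin (k + 1) → ℕ) → K) (hne : ∃ a ν, F₀ a ν ≠ 0)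
    (hsupp : ∀ a ν, F₀ a ν ≠ 0 → a ∈ box (fun _ : Fin (k + 1) => N * 4 ^ J + 1) ∧
      ν ∈ BB (fun i : Fin m => N * 4 ^ (J - j i) + 1))
    (hO : ORJ ρ W χ j (fun i => N * 4 ^ (J - j i)) (m * 4 ^ J)
      (fun ν => algebraMap L (PowerSeries L) (∑ a ∈ box (fun _ : Fin (k + 1) => N * 4 ^ J + 1),
        (∏ t, x0 t ^ a t) * algebraMap K L (F₀ a ν))) x0)
    (rr : Fin m → AbsoluteValue L ℝ → ℝ)
    (hrr0 : ∀ v, Pl v → ∀ i, 0 < rr i v ∧ rr i v ≤ 1) (hrrF : ∀ i, FS fun v => Real.log (rr i v))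
    (hnz : ∀ i, aeval (fun t => σ (i, t)) ((ρ i).z 0) ≠ 0)
    (hσ : ∀ i t, (W t).isTor = true → σ (i, t) ≠ 0)
    (hrr : ∀ v, Pl v → ∀ i, rr i v * ((∏ t, kc (W t) v) ^ 200 * ∏ t, max 1 (v (q (i, t)))) ≤
      dj j (fun i t => σ (i, t)) (fun i => aeval (fun t => σ (i, t)) ((ρ i).z 0)) v ^ (4 ^ j i) *
        rho i v)
    (a : ℕ) (g : PowerSeries L)
    (hdvd : (∑ μ ∈ BB (fun i : Fin m => N * 4 ^ (J - j i) + 1),
      algebraMap L (PowerSeries L) (∑ a ∈ box (fun _ : Fin (k + 1) => N * 4 ^ J + 1),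
        (∏ t, x0 t ^ a t) * algebraMap K L (F₀ a μ)) *
      ∏ i, ∏ t, Ex1 L (j i) (PowerSeries.constantCoeff (ξ (i, t))) ^ μ i t) ∣ g)
    (ha : PowerSeries.coeff a g ≠ 0) :
    0 ≤ Module.finrank K L * logHeight (fun p : (box (fun _ : Fin (k + 1) => N * 4 ^ J + 1)) ×
          (BB (fun i : Fin m => N * 4 ^ (J - j i) + 1) : Finset (Fin m → Fin (k + 1) → ℕ)) =>
            F₀ p.1 p.2) +
      Module.finrank ℚ L * ((k + 2) * (N * 4 ^ J)) + N * 4 ^ J * ∑ t, logHeight₁ (x0 t) +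
      ∑ i, (CF k D * (N * 4 ^ J) * ∑ t, gs (fun v : AbsoluteValue L ℝ => Real.log (kc (W t) v)) +
        2 * (CE k D * (N * 4 ^ (J - j i))) *
          (Module.finrank ℚ L * Real.log (e + 1) + Module.finrank K L * (ρ i).ht) +
        2 * 4 ^ j i * ∑ t, logHeight₁ (x0 t) +
        N * 4 ^ (J - j i) * (2 * ∑ t, logHeight₁ (q (i, t))) +
        ((0 : ℕ) : ℝ) * (200 * ∑ t, gs (fun v : AbsoluteValue L ℝ => Real.log (kc (W t) v)) +
          ∑ t, logHeight₁ (q (i, t))) -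
        tw J (j i) 0 * (2 * (4 ^ j i * gBJ (fun t => (W t).isTor) (2 * N) j
          (fun i t => σ (i, t)) (fun i => aeval (fun t => σ (i, t)) ((ρ i).z 0)))) +
        ((0 : ℕ) : ℝ) * gs (fun _ : AbsoluteValue L ℝ => Real.log 1)) +
      a * ∑ i, (4 ^ j i : ℝ)⁻¹ * (- gs (fun v => Real.log (rr i v))) := by
  classical
  -- the bound for the coefficients
  obtain ⟨Y, hY⟩ : ∃ Y : (box (fun _ : Fin (k + 1) => N * 4 ^ J + 1)) ×
      (BB (fun i : Fin m => N * 4 ^ (J - j i) + 1) : Finset (Fin m → Fin (k + 1) → ℕ)) → L,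
      Y = fun p => algebraMap K L (F₀ p.1 p.2) := ⟨_, rfl⟩
  have hYne : Y ≠ 0 := by
    obtain ⟨a', ν, h1⟩ := hne
    obtain ⟨h2, h3⟩ := hsupp a' ν h1
    intro h4
    have h5 := congrFun h4 (⟨a', h2⟩, ⟨ν, h3⟩)
    rw [hY] at h5
    exact h1 ((map_eq_zero (algebraMap K L)).1 h5)
  have hYpos : ∀ v : AbsoluteValue L ℝ, 0 < ⨆ p, v (Y p) := by
    intro v
    obtain ⟨p, hp⟩ := Function.ne_iff.mp hYne
    exact (v.pos hp).trans_le (Finite.le_ciSup_of_le p le_rfl)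
  obtain ⟨M₀, hM₀⟩ : ∃ M₀ : AbsoluteValue L ℝ → ℝ, M₀ = fun v =>
      cst v ((N * 4 ^ J + 1) ^ (k + 1)) * ((⨆ p, v (Y p)) *
        (∏ t, max 1 (v (x0 t))) ^ (N * 4 ^ J)) := ⟨_, rfl⟩
  have hcpos : ∀ v : AbsoluteValue L ℝ, 0 < cst v ((N * 4 ^ J + 1) ^ (k + 1)) := fun v =>
    zero_lt_one.trans_le (one_le_cst v (Nat.one_le_pow _ _ (Nat.succ_pos _)))
  have hM₀pos : ∀ v : AbsoluteValue L ℝ, 0 < M₀ v := by
    intro v
    rw [hM₀]
    exact mul_pos (hcpos v) (mul_pos (hYpos v) (pow_pos (LE_prod_pos fun t => v (x0 t)) _))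
  have hM : ∀ (v : AbsoluteValue L ℝ) (r : ℝ) (N' : ℕ) (μ : Fin m → Fin (k + 1) → ℕ),
      PN v r N' (algebraMap L (PowerSeries L)
        (∑ a ∈ box (fun _ : Fin (k + 1) => N * 4 ^ J + 1),
          (∏ t, x0 t ^ a t) * algebraMap K L (F₀ a μ))) ≤ M₀ v := by
    intro v r N' μ
    have h0 := PN_C v (r := r) N' (∑ a ∈ box (fun _ : Fin (k + 1) => N * 4 ^ J + 1),
          (∏ t, x0 t ^ a t) * algebraMap K L (F₀ a μ))
    refine (le_of_eq h0).trans ?_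
    rw [hM₀]
    have h1 := (SN_self v).sum_le (box (fun _ : Fin (k + 1) => N * 4 ^ J + 1))
      (fun a => (∏ t, x0 t ^ a t) * algebraMap K L (F₀ a μ))
      (B := (⨆ p, v (Y p)) * (∏ t, max 1 (v (x0 t))) ^ (N * 4 ^ J))
      (mul_pos (hYpos v) (pow_pos (LE_prod_pos fun t => v (x0 t)) _)).le (by
        intro a ha
        show v ((∏ t, x0 t ^ a t) * algebraMap K L (F₀ a μ)) ≤ _
        rw [map_mul, mul_comm]
        refine mul_le_mul ?_ ?_ (v.nonneg _) (hYpos v).le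
        · by_cases h2 : F₀ a μ = 0
          · rw [h2, map_zero, map_zero]
            exact (hYpos v).le
          · have h3 := (hsupp a _ h2).2
            refine Finite.le_ciSup_of_le (f := fun p => v (Y p)) (⟨a, ha⟩, ⟨_, h3⟩) ?_
            rw [hY]
        · rw [map_prod, ← Finset.prod_pow]
          refine Finset.prod_le_prod (fun _ _ => v.nonneg _) fun t _ => ?_
          rw [map_pow]
          refine (pow_le_pow_left₀ (v.nonneg _) (le_max_right 1 _) _).trans ?_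
          refine pow_le_pow_right₀ (le_max_left _ _) ?_
          have h2 := (mem_box _ _).1 ha t
          exact Nat.lt_succ_iff.1 h2)
    rw [C08_card] at h1
    exact h1
  -- the radius
  obtain ⟨rv, hrv⟩ : ∃ rv : AbsoluteValue L ℝ → ℝ, rv = fun v =>
      ∏ i, (rr i v) ^ (((4 : ℝ) ^ j i)⁻¹) := ⟨_, rfl⟩
  have hexp : ∀ i, 0 ≤ ((4 : ℝ) ^ j i)⁻¹ := fun i => inv_nonneg.2 (pow_nonneg (by norm_num) _)
  have hrv1 : ∀ v, Pl v → 0 < rv v ∧ rv v ≤ 1 := by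
    intro v hv
    rw [hrv]
    refine ⟨Finset.prod_pos fun i _ => Real.rpow_pos_of_pos (hrr0 v hv i).1 _, ?_⟩
    exact Finset.prod_le_one (fun i _ => (Real.rpow_pos_of_pos (hrr0 v hv i).1 _).le)
      fun i _ => Real.rpow_le_one (hrr0 v hv i).1.le (hrr0 v hv i).2 (hexp i)
  have hrv2 : ∀ v, Pl v → ∀ i, rv v ^ (4 ^ j i) ≤ rr i v := by
    intro v hv i
    have h1 : rv v ≤ (rr i v) ^ (((4 : ℝ) ^ j i)⁻¹) := by
      rw [hrv]
      show ∏ i, (rr i v) ^ (((4 : ℝ) ^ j i)⁻¹) ≤ _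
      rw [← Finset.mul_prod_erase _ _ (Finset.mem_univ i)]
      refine mul_le_of_le_one_right (Real.rpow_pos_of_pos (hrr0 v hv i).1 _).le ?_
      exact Finset.prod_le_one (fun i _ => (Real.rpow_pos_of_pos (hrr0 v hv i).1 _).le)
        fun i _ => Real.rpow_le_one (hrr0 v hv i).1.le (hrr0 v hv i).2 (hexp i)
    refine (pow_le_pow_left₀ (hrv1 v hv).1.le h1 _).trans (le_of_eq ?_)
    have h2 := Real.rpow_inv_natCast_pow (hrr0 v hv i).1.le (pow_ne_zero (j i) (four_ne_zero (α := ℕ)))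
    push_cast at h2
    exact h2
  have hrv3 : ∀ v, Pl v → ∑ i, ((4 : ℝ) ^ j i)⁻¹ * Real.log (rr i v) = Real.log (rv v) := by
    intro v hv
    rw [hrv]
    show _ = Real.log (∏ i, (rr i v) ^ (((4 : ℝ) ^ j i)⁻¹))
    rw [Real.log_prod fun i _ => (Real.rpow_pos_of_pos (hrr0 v hv i).1 _).ne']
    refine Finset.sum_congr rfl fun i _ => ?_
    rw [Real.log_rpow (hrr0 v hv i).1]
  have hrvF : FS fun v => Real.log (rv v) :=
    LE_FS_congr hrv3 (FS_sum _ fun i _ => FS_const_mul _ (hrrF i))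
  have hrvg : gs (fun v => Real.log (rv v)) =
      ∑ i, ((4 : ℝ) ^ j i)⁻¹ * gs (fun v => Real.log (rr i v)) := by
    have h1 : gs (fun v => ∑ i, ((4 : ℝ) ^ j i)⁻¹ * Real.log (rr i v)) =
        ∑ i, ((4 : ℝ) ^ j i)⁻¹ * gs (fun v => Real.log (rr i v)) := by
      rw [gs_sum _ fun i _ => FS_const_mul _ (hrrF i)]
      exact Finset.sum_congr rfl fun i _ => gs_const_mul _
    rw [← h1]
    refine le_antisymm ?_ ?_
    · exact gs_le hrvF (FS_sum _ fun i _ => FS_const_mul _ (hrrF i)) fun v hv => (hrv3 v hv).ge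
    · exact gs_le (FS_sum _ fun i _ => FS_const_mul _ (hrrF i)) hrvF fun v hv => (hrv3 v hv).le
  -- the local gain
  obtain ⟨Iv, hIv⟩ : ∃ Iv : AbsoluteValue L ℝ → ℝ, Iv = fun v =>
      gBv (fun t => (W t).isTor) (2 * N) j (fun i t => σ (i, t))
        (fun i => aeval (fun t => σ (i, t)) ((ρ i).z 0)) v := ⟨_, rfl⟩
  have hch := fun v : AbsoluteValue L ℝ => gain_choiceJ hm W v j (fun i t => σ (i, t))
    (fun i t h => hσ i t h) (fun i => aeval (fun t => σ (i, t)) ((ρ i).z 0)) hnz N J hJ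
  choose dv hdv0 hdv1 hdv2 hdv3 using hch
  -- the local estimate
  obtain ⟨Bv, hBv⟩ : ∃ Bv : AbsoluteValue L ℝ → ℝ, Bv = fun v => M₀ v *
      (∏ i, KJ v (ρ i) D W (j i) (N * 4 ^ (J - j i)) x0 (fun t => q (i, t))) *
        Real.exp (-(((m * 4 ^ J : ℕ) : ℝ) * Iv v)) := ⟨_, rfl⟩
  obtain ⟨SM, hSM⟩ : ∃ SM : PowerSeries L,
      SM = ∑ μ ∈ BB (fun i : Fin m => N * 4 ^ (J - j i) + 1),
      algebraMap L (PowerSeries L) (∑ a ∈ box (fun _ : Fin (k + 1) => N * 4 ^ J + 1),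
        (∏ t, x0 t ^ a t) * algebraMap K L (F₀ a μ)) *
      ∏ i, ∏ t, Ex1 L (j i) (PowerSeries.constantCoeff (ξ (i, t))) ^ μ i t := ⟨_, rfl⟩
  have hloc : ∀ v, Pl v → PN v (rv v) a SM ≤ Bv v := by
    intro v hv
    rw [hBv, hSM]
    refine joint_local v ρ hD W hW χ (b := fun i => N * 4 ^ (J - j i)) (T := m * 4 ^ J)
      (fun i => Nat.one_le_iff_ne_zero.2 (Nat.mul_ne_zero (by omega) (pow_ne_zero _ four_ne_zero)))
      x0 σ q u ξ (rho := fun i => rho i v) (fun i => hrho i v) hM0 hcu (hP v hv) _ hO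
      (hrv1 v hv).1.le a (fun μ _ => hM v _ _ μ) (hdv0 v) (hdv1 v) ?_ (fun i => ?_)
    · rw [hIv]
      rcases hdv3 v with h | h
      · exact Or.inl h
      · exact Or.inr ⟨fun p => h.1 p.1 p.2, h.2⟩
    · have h1 : 0 ≤ (∏ t, kc (W t) v) ^ 200 * ∏ t, max 1 (v (q (i, t))) :=
        mul_nonneg (pow_nonneg (Finset.prod_nonneg fun t _ =>
          zero_le_one.trans (one_le_kc (W t) v)) _) (LE_prod_pos fun t => v (q (i, t))).le
      refine (mul_le_mul_of_nonneg_right (hrv2 v hv i) h1).trans ((hrr v hv i).trans ?_)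
      exact mul_le_mul_of_nonneg_right
        (pow_le_pow_left₀ (dj_pos _ _ _ v).1.le (hdv2 v) _) (hrho i v)
  rw [← hSM] at hdvd
  -- logarithms
  obtain ⟨E, hE⟩ : ∃ E : AbsoluteValue L ℝ → ℝ, E = fun v =>
      (Real.log (cst v ((N * 4 ^ J + 1) ^ (k + 1))) + (Real.log (⨆ p, v (Y p)) +
        ((N * 4 ^ J : ℕ) : ℝ) * ∑ t, Real.log (max 1 (v (x0 t))))) +
      ∑ i, (((CF k D * (N * 4 ^ (J - j i) * 4 ^ j i) : ℕ) : ℝ) * (∑ t, Real.log (kc (W t) v)) +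
      ((2 * (CE k D * (N * 4 ^ (J - j i))) : ℕ) : ℝ) * (Real.log (cst v (e + 1)) +
        Real.log (((ρ i).map (algebraMap K L)).RB v)) +
      ((2 * 4 ^ j i : ℕ) : ℝ) * (∑ t, Real.log (max 1 (v (x0 t)))) +
      ((N * 4 ^ (J - j i) : ℕ) : ℝ) * (∑ t, Real.log (qq (W t) v (q (i, t))))) +
      (-((m * 4 ^ J : ℕ) : ℝ)) * Iv v :=
    ⟨_, rfl⟩
  have hEB : ∀ v, Pl v → E v = Real.log (Bv v) := by
    intro v hv
    have h1 : ∀ i, 0 < KJ v (ρ i) D W (j i) (N * 4 ^ (J - j i)) x0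
        (fun t => q (i, t)) := fun i =>
      (LE_log_KJ v (ρ i) D W _ _ x0 _).1
    rw [hBv, hE]
    beta_reduce
    rw [Real.log_mul (mul_ne_zero (hM₀pos v).ne' (Finset.prod_pos fun i _ => h1 i).ne')
        (Real.exp_pos _).ne',
      Real.log_mul (hM₀pos v).ne' (Finset.prod_pos fun i _ => h1 i).ne',
      Real.log_prod fun i _ => (h1 i).ne', Real.log_exp, neg_mul]
    congr 2
    · rw [hM₀]
      beta_reduce
      have h2 := LE_prod_pos fun t => v (x0 t)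
      rw [Real.log_mul (hcpos v).ne' (mul_pos (hYpos v) (pow_pos h2 _)).ne',
        Real.log_mul (hYpos v).ne' (pow_pos h2 _).ne', Real.log_pow,
        Real.log_prod fun t _ => (lt_max_of_lt_left one_pos).ne']
    · refine Finset.sum_congr rfl fun i _ => ?_
      exact (LE_log_KJ v (ρ i) D W _ _ x0 _).2.symm
  -- the global estimate
  have gK : LE_Gl (fun v : AbsoluteValue L ℝ => ∑ t, Real.log (kc (W t) v))
      (∑ t, gs (fun v : AbsoluteValue L ℝ => Real.log (kc (W t) v))) :=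
    LE_Gl_sum _ fun t _ => ⟨FS_log_kc (W t), le_rfl⟩
  have gX : LE_Gl (fun v : AbsoluteValue L ℝ => ∑ t, Real.log (max 1 (v (x0 t))))
      (∑ t, logHeight₁ (x0 t)) :=
    LE_Gl_sum _ fun t _ => ⟨FS_log_max _, (gs_log_max _).le⟩
  have gQ : ∀ i, LE_Gl (fun v : AbsoluteValue L ℝ => ∑ t, Real.log (qq (W t) v (q (i, t))))
      (2 * ∑ t, logHeight₁ (q (i, t))) := fun i => by
    rw [Finset.mul_sum]
    exact LE_Gl_sum _ fun t _ => gs_log_qq (W t) (q (i, t))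
  have gE : LE_Gl (fun v : AbsoluteValue L ℝ => Real.log (cst v (e + 1)))
      (Module.finrank ℚ L * Real.log (e + 1)) := by
    refine ⟨FS_log_cst _, ?_⟩
    have h1 := gs_log_cst (L := L) (n := e + 1) (Nat.succ_le_succ (Nat.zero_le e))
    rw [NumberField.totalWeight_eq_finrank] at h1
    push_cast at h1
    exact h1
  have gR : ∀ i, LE_Gl (fun v : AbsoluteValue L ℝ =>
      Real.log (((ρ i).map (algebraMap K L)).RB v)) (Module.finrank K L * (ρ i).ht) := fun i =>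
    ⟨FS_log_RB _, (ht_map (L := L) (ρ i)).le⟩
  have gD : LE_Gl (fun v : AbsoluteValue L ℝ => (-((m * 4 ^ J : ℕ) : ℝ)) * Iv v)
      ((-((m * 4 ^ J : ℕ) : ℝ)) * gBJ (fun t => (W t).isTor) (2 * N) j (fun i t => σ (i, t))
        (fun i => aeval (fun t => σ (i, t)) ((ρ i).z 0))) := by
    rw [hIv]
    have h1 := FS_gBv (fun t => (W t).isTor) (N := 2 * (N : ℝ)) (by positivity) j
      (fun i t => σ (i, t)) (fun i => aeval (fun t => σ (i, t)) ((ρ i).z 0)) hnz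
    refine ⟨FS_const_mul _ h1, ?_⟩
    rw [gs_const_mul]
    exact le_rfl
  have gC : LE_Gl (fun v : AbsoluteValue L ℝ => Real.log (cst v ((N * 4 ^ J + 1) ^ (k + 1))))
      (Module.finrank ℚ L * ((k + 2) * (N * 4 ^ J))) := by
    refine ⟨FS_log_cst _, ?_⟩
    have h1 := gs_log_cst (L := L) (n := (N * 4 ^ J + 1) ^ (k + 1))
      (Nat.one_le_pow _ _ (Nat.succ_pos _))
    rw [NumberField.totalWeight_eq_finrank] at h1
    refine h1.trans (mul_le_mul_of_nonneg_left ?_ (Nat.cast_nonneg _))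
    push_cast
    rw [Real.log_pow]
    push_cast
    have h2 : (0 : ℝ) < (N : ℝ) * 4 ^ J + 1 := by positivity
    have h3 := Real.log_le_sub_one_of_pos h2
    have h4 : (0 : ℝ) ≤ (N : ℝ) * 4 ^ J := by positivity
    have h5 : (0 : ℝ) ≤ (k : ℝ) + 1 := by positivity
    calc ((k : ℝ) + 1) * Real.log (N * 4 ^ J + 1) ≤ (k + 1) * (N * 4 ^ J) :=
          mul_le_mul_of_nonneg_left (by linarith) h5
      _ ≤ (k + 2) * (N * 4 ^ J) := by linarith
  have gY : LE_Gl (fun v : AbsoluteValue L ℝ => Real.log (⨆ p, v (Y p)))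
      (Module.finrank K L * logHeight (fun p : (box (fun _ : Fin (k + 1) => N * 4 ^ J + 1)) ×
          (BB (fun i : Fin m => N * 4 ^ (J - j i) + 1) : Finset (Fin m → Fin (k + 1) → ℕ)) =>
            F₀ p.1 p.2)) := by
    refine ⟨FS_log_iSup hYne, ?_⟩
    rw [gs_log_iSup hYne, hY, ← RV.logHeight_algebraMap]
  have gE' := LE_Gl_add (LE_Gl_add (LE_Gl_add gC (LE_Gl_add gY (LE_Gl_mul (N * 4 ^ J) gX)))
    (LE_Gl_sum Finset.univ fun i _ =>
      LE_Gl_add (LE_Gl_add (LE_Gl_add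
        (LE_Gl_mul (CF k D * (N * 4 ^ (J - j i) * 4 ^ j i)) gK)
        (LE_Gl_mul (2 * (CE k D * (N * 4 ^ (J - j i)))) (LE_Gl_add gE (gR i))))
        (LE_Gl_mul (2 * 4 ^ j i) gX))
        (LE_Gl_mul (N * 4 ^ (J - j i)) (gQ i))))
    gD
  rw [← hE] at gE'
  have hBF : FS fun v => Real.log (Bv v) := LE_FS_congr hEB gE'.1
  have hfin := final_product a _ g hdvd ha rv Bv hrv1 hrvF hBF hloc
  have hBE : gs (fun v => Real.log (Bv v)) ≤ gs E := gs_le hBF gE'.1 fun v hv => (hEB v hv).ge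
  have hfin2 := hfin.trans (sub_le_sub_right (hBE.trans gE'.2) _)
  rw [hrvg] at hfin2
  refine hfin2.trans (le_of_eq ?_)
  have h4 : ∀ i, (4 : ℝ) ^ (J - j i) * 4 ^ j i = 4 ^ J := by
    intro i
    rw [← pow_add, Nat.sub_add_cancel (hJ i)]
  have hsum : ∑ i, ((4 : ℝ) ^ j i)⁻¹ * -gs (fun v => Real.log (rr i v)) =
      -∑ i, ((4 : ℝ) ^ j i)⁻¹ * gs (fun v => Real.log (rr i v)) := by
    rw [← Finset.sum_neg_distrib]
    exact Finset.sum_congr rfl fun i _ => by ring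
  rw [hsum]
  have hcomb : ∀ i, ((CF k D * (N * 4 ^ (J - j i) * 4 ^ j i) : ℕ) : ℝ) = CF k D * (N * 4 ^ J) := by
    intro i
    push_cast
    rw [mul_assoc (N : ℝ), h4 i]
  simp only [hcomb]
  obtain ⟨G, hG⟩ : ∃ G : ℝ, G = gBJ (fun t => (W t).isTor) (2 * N) j (fun i t => σ (i, t))
      (fun i => aeval (fun t => σ (i, t)) ((ρ i).z 0)) := ⟨_, rfl⟩
  rw [← hG]
  have hgg : ∀ i, tw J (j i) 0 * (2 * (4 ^ j i * G)) = 4 ^ J * G := by
    intro i
    unfold tw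
    rw [mul_zero, if_pos (Nat.zero_le _), ← h4 i]
    ring
  simp only [hgg, Nat.cast_zero, zero_mul, add_zero]
  rw [Finset.sum_sub_distrib, Finset.sum_const, Finset.card_univ, Fintype.card_fin, nsmul_eq_mul]
  push_cast
  ring_nf

end Pool.Agent.Lib.MP_17a322_nt.VG.JG
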