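import Pool.Agent.Lib.MP_17a322_nt.VDG.LF0
import Pool.Agent.Lib.MP_17a322_nt.VG.L1s
import Pool.Agent.Lib.MP_17a322_nt.VG.L1t

/-!
The joint inequality over `K` (coordinates of both types).
-/

universe u

namespace Pool.Agent.Lib.MP_17a322_nt.VG.JG

open MvPolynomial Height
open Pool.Agent.Lib.MP_17a322_nt.RO
open Pool.Agent.Lib.MP_17a322_nt.VJ
open Pool.Agent.Lib.MP_17a322_nt.VN
open Pool.Agent.Lib.MP_17a322_nt.VDL

theorem ineq_joint {K : Type u} [Field K] [NumberField K] [DecidableEq K] {k : ℕ}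
    (W : Fin (k + 1) → CT K) (hW : ∀ t, (W t).IsE) (χ : Fin (k + 1) → Bool)
    (e D m N : ℕ) (hm : 0 < m) (hN : 1 ≤ N) :
    ∃ C : ℝ, 0 ≤ C ∧
      ∀ (P₀ : ∀ t, (W t).Pt) (P : Fin m → ∀ t, (W t).Pt) (j : Fin m → ℕ)
        (s y : Fin m → Fin (k + 1) → K) (ρ : Fin m → REP K (k + 1) e) (J : ℕ)
        (F₀ : (Fin (k + 1) → ℕ) → (Fin m → Fin (k + 1) → ℕ) → K)
        (NN : Fin (m + 1) → MvPolynomial (VL m (k + 1)) K) (a : ℕ)
        (c : MvPolynomial (Fin (k + 1) ⊕ (Fin m × Fin (k + 1))) K),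
      (∀ i, j i ≤ J) → (∀ i t, (W t).Aff (P i t)) → (∀ i t, CH (χ t) (P i t) (s i t)) →
      (∀ i t, y i t ^ 2 = ph (W t) (vc (χ t) (s i t))) → (∀ i t, y i t ≠ 0) →
      (∀ i, (ρ i).Deg D) → (∀ i, (ρ i).ht ≤ 4 ^ j i) →
      (∀ i, eval (s i) ((ρ i).z 0) ≠ 0) →
      (∃ a ν, F₀ a ν ≠ 0) →
      (∀ a ν, F₀ a ν ≠ 0 → a ∈ box (fun _ : Fin (k + 1) => N * 4 ^ J + 1) ∧
        ν ∈ BB (fun i : Fin m => N * 4 ^ (J - j i) + 1)) →
      (∀ (L : Type u) [Field L] [Algebra K L] (x0 : Fin (k + 1) → L),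
        ORJ ρ W χ j (fun i => N * 4 ^ (J - j i)) (m * 4 ^ J)
          (fun ν => algebraMap L (PowerSeries L)
            (∑ a ∈ box (fun _ : Fin (k + 1) => N * 4 ^ J + 1),
              (∏ t, x0 t ^ a t) * algebraMap K L (F₀ a ν))) x0) →
      NN 0 = NF (box (fun _ : Fin (k + 1) => N * 4 ^ J + 1))
        (BB (fun i : Fin m => N * 4 ^ (J - j i) + 1)) F₀ →
      (∀ p, (NN (Fin.last m)).degreeOf (vZ p) = 0) →
      (∀ (i : Fin m) (A : Type u) [CommRing A] [Algebra K A] (x : VL m (k + 1) → A),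
        (∀ t, aeval x (al W χ j (i, t)) = 0) →
          aeval x (NN i.castSucc) ∣ aeval x (NN i.succ)) →
      c ≠ 0 →
      (∀ (L : Type u) [Field L] [Algebra K L] (x : Fin (k + 1) → L)
        (ζ : Fin m × Fin (k + 1) → L) (S : Fin m × Fin (k + 1) → PowerSeries L),
        (∀ p, S p = PowerSeries.C (algebraMap K L (s p.1 p.2)) +
          PowerSeries.C (ζ p) * PowerSeries.X ^ (4 ^ j p.1)) →
        PowerSeries.coeff a (aeval (Sum.elim (fun t => PowerSeries.C (x t))
          (Sum.elim S fun _ => 0) : VL m (k + 1) → PowerSeries L) (NN (Fin.last m))) =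
            aeval (Sum.elim x ζ) c) →
      INEQ C (logHeight (fun p : (box (fun _ : Fin (k + 1) => N * 4 ^ J + 1)) ×
          (BB (fun i : Fin m => N * 4 ^ (J - j i) + 1) : Finset (Fin m → Fin (k + 1) → ℕ)) =>
            F₀ p.1 p.2)) (HN P₀) N J j (fun _ => 0)
        (fun i => ∑ t, logHeight ((W t).xr (P i t - (W t).ml (j i) (P₀ t))))
        (fun i => 2 * (4 ^ j i * gBJ (fun t => (W t).isTor) (2 * N) j s
          (fun i => eval (s i) ((ρ i).z 0)))) (fun _ => 0)
        (fun i => HN (P i)) a := by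
  obtain ⟨Ck, Ch, hCk, hCh, hpack⟩ := const_pack W hW
  obtain ⟨C, hC, hconv⟩ := conv_ineq m k N (CF k D) (CE k D) (Module.finrank ℚ K)
    (Real.log (e + 1)) Ck Ch (240 * Ck + Ch + D + 5) (Nat.cast_nonneg _)
    (Real.log_nonneg (by linarith [(Nat.cast_nonneg e : (0 : ℝ) ≤ e)])) hCk hCh
    (by positivity)
  refine ⟨C, hC, ?_⟩
  intro P₀ P j s y ρ J F₀ NN a c hJ hP0 hch hy hy0 hD hht hz0 hne hsupp hORJ hNN0 hlast hN'
    hc hc'
  obtain ⟨L, iF, iN, iD, iA, V, f, z, ζ, hV, hf, hz, h0, h1, h2, hζ, hcL⟩ :=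
    choose_L W hW P₀ P j c hc
  have hs0 : ∀ i t, (W t).isTor = true → s i t ≠ 0 := by
    intro i t ht h
    apply hy0 i t
    have e1 := hy i t
    rw [h] at e1
    refine pow_eq_zero_iff two_ne_zero |>.1 (e1.trans ?_)
    generalize W t = T at ht
    cases T with
    | ell W => exact absurd ht Bool.false_ne_true
    | tor =>
      show (vc (χ t) (0 : K) 0 * vc (χ t) (0 : K) 1) ^ 2 = 0
      cases χ t <;> simp [vc]
  obtain ⟨hk, hh⟩ := hpack L V f z hV hf hz
  obtain ⟨hh0, hh1⟩ := hh P₀ h0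
  have hinj : Function.Injective (algebraMap K L) := (algebraMap K L).injective
  -- the coordinates
  set σ : Fin m × Fin (k + 1) → L := fun p => algebraMap K L (s p.1 p.2) with hσ
  set β : Fin m × Fin (k + 1) → L := fun p => algebraMap K L (y p.1 p.2) with hβdef
  set x0 : Fin (k + 1) → L := fun t => (V t).xr (f t (P₀ t) + z t) 0 with hx0
  set q : Fin m × Fin (k + 1) → L := fun p =>
    (V p.2).xr (f p.2 (P p.1 p.2) - (V p.2).ml (j p.1) (f p.2 (P₀ p.2) + z p.2)) 0 with hq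
  have hβ : ∀ i t, β (i, t) ^ 2 = ph (W t) (vc (χ t) (σ (i, t))) := by
    intro i t
    have e1 : (fun l => (Algebra.ofId K L) (vc (χ t) (s i t) l)) = vc (χ t) (σ (i, t)) := by
      funext l
      unfold vc
      cases χ t <;> fin_cases l <;> simp [hσ, Algebra.ofId_apply]
    have e2 := map_ph (W t) (Algebra.ofId K L) (vc (χ t) (s i t))
    rw [e1] at e2
    rw [← e2, ← hy i t, map_pow]
    rfl
  have hβ0 : ∀ p, β p ≠ 0 := fun p =>
    (map_ne_zero_iff _ hinj).2 (hy0 p.1 p.2)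
  have hσ0 : ∀ i t, (W t).isTor = true → σ (i, t) ≠ 0 := fun i t ht =>
    (map_ne_zero_iff _ hinj).2 (hs0 i t ht)
  obtain ⟨u, ξ, Y, hM0, hu0, hu1, hY0, hrel, hcu, hpk⟩ := pack_all W hW V hV χ j
    (fun t => f t (P₀ t) + z t) (fun i t => f t (P i t)) σ β
    (fun i t => CH_map (hf t) (hch i t)) hβ hβ0 h1 h2
    (fun p => PowerSeries.C (ζ p) * PowerSeries.X)
    (fun p => by rw [map_mul, PowerSeries.constantCoeff_X, mul_zero])
    (fun _ _ => 1) (fun _ _ => zero_le_one)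
    (fun i t v n' => explicit_size v (ζ (i, t)) (hζ (i, t)) n')
  have hinjP : (0 : ℝ) < Module.finrank K L := by exact_mod_cast Module.finrank_pos
  set S : Fin m × Fin (k + 1) → PowerSeries L := fun p =>
    Ex1 L (j p.1) (PowerSeries.constantCoeff (u p)) with hSdef
  set Z : Fin m × Fin (k + 1) → PowerSeries L := fun p =>
    Ex1 L (j p.1) (PowerSeries.constantCoeff (ξ p)) with hZdef
  have hSe : ∀ p, S p = PowerSeries.C (algebraMap K L (s p.1 p.2)) +
      PowerSeries.C (ζ p) * PowerSeries.X ^ (4 ^ j p.1) := by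
    intro p
    rw [hSdef]
    show Ex1 L (j p.1) (PowerSeries.constantCoeff (u p)) = _
    rw [hu0 p, map_add, map_mul, Ex1_C, Ex1_C, Ex1_X]
  -- the divisibility
  have hcEx : ∀ p, PowerSeries.constantCoeff (Ex (j p.1) (ξ p)) = Z p := by
    intro p
    unfold Ex
    rw [← PowerSeries.coeff_zero_eq_constantCoeff_apply, PowerSeries.coeff_map,
      PowerSeries.coeff_zero_eq_constantCoeff_apply]
  have hal : ∀ p : Fin m × Fin (k + 1),
      aeval (Sum.elim (fun t => PowerSeries.C (x0 t)) (Sum.elim S Z) :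
        VL m (k + 1) → PowerSeries L) (al W χ j p) = 0 := by
    refine joint_al W χ j x0 S Z fun p => ?_
    have h3 := rel_one (W p.2) (χ p.2) (j p.1) (j p.1) (x0 p.2) (u p) (ξ p) (hrel p)
    rw [hcEx p] at h3
    exact h3
  have hdvd := joint_dvd W χ j NN hlast hN' (fun t => (PowerSeries.C (x0 t) : PowerSeries L))
    S Z (fun _ => 0) hal
  rw [hNN0, NF_value] at hdvd
  -- the values of the centre
  have haev : ∀ i (p : MvPolynomial (Fin (k + 1)) K), aeval (fun t => σ (i, t)) p =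
      algebraMap K L (eval (s i) p) := by
    intro i p
    have := aeval_algebraMap_apply L (s i) p
    rw [show (fun t => σ (i, t)) = algebraMap K L ∘ s i from rfl, this]
    rfl
  have hz0L : ∀ i, aeval (fun t => σ (i, t)) ((ρ i).z 0) ≠ 0 := by
    intro i
    rw [haev, map_ne_zero_iff _ hinj]
    exact hz0 i
  -- the radii
  have hro := fun i => gs_log_ro W (fun t => σ (i, t)) (fun t => β (i, t)) fun t => hβ0 (i, t)
  have hro1 : ∀ i (v : AbsoluteValue L ℝ), 0 < 1 * ro W v (fun t => σ (i, t)) (fun t => β (i, t)) ∧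
      1 * ro W v (fun t => σ (i, t)) (fun t => β (i, t)) ≤ 1 := by
    intro i v
    rw [one_mul]
    exact ⟨ro_pos W v _ _ fun t => hβ0 (i, t), (ro_le W χ v _ _ fun t => hβ i t).1⟩
  set RR : Fin m → AbsoluteValue L ℝ → ℝ := fun i v =>
    dj j (fun i t => σ (i, t)) (fun i => aeval (fun t => σ (i, t)) ((ρ i).z 0)) v ^ (4 ^ j i) *
      (1 * ro W v (fun t => σ (i, t)) (fun t => β (i, t))) /
        ((∏ t, kc (W t) v) ^ 200 * ∏ t, max 1 (v (q (i, t)))) with hRR
  have hrr := fun i => rr_joint W j (fun i t => σ (i, t)) (fun t => q (i, t))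
    (fun i => aeval (fun t => σ (i, t)) ((ρ i).z 0)) hz0L i
    (fun v => 1 * ro W v (fun t => σ (i, t)) (fun t => β (i, t))) (hro1 i)
    (by simp only [one_mul]; exact (hro i).1)
  have key := core_joint_ineq hm ρ hD W hW χ j N J hN hJ x0 σ q u ξ
    (fun i v => 1 * ro W v (fun t => σ (i, t)) (fun t => β (i, t)))
    (fun i v => (hro1 i v).1.le) hM0 hcu (fun v _ i t => (hpk i v).1 t) F₀ hne hsupp
    (hORJ L x0) RR
    (fun v _ i => ⟨((hrr i).1 v).1, ((hrr i).1 v).2.1.trans (hro1 i v).2⟩)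
    (fun i => (hrr i).2.1) hz0L hσ0 (fun v _ i => ((hrr i).1 v).2.2.le) a
    (aeval (Sum.elim (fun t => PowerSeries.C (x0 t)) (Sum.elim S fun _ => 0) :
      VL m (k + 1) → PowerSeries L) (NN (Fin.last m))) hdvd
    (by
      rw [hc' L x0 ζ S hSe]
      exact hcL)
  -- conversion to `K`
  have hd : (0 : ℝ) < Module.finrank K L := by exact_mod_cast Module.finrank_pos
  have hL : (Module.finrank ℚ L : ℝ) = Module.finrank K L * Module.finrank ℚ K := finrank_eq_mul
  have hlF : 0 ≤ logHeight (fun p : (box (fun _ : Fin (k + 1) => N * 4 ^ J + 1)) ×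
          (BB (fun i : Fin m => N * 4 ^ (J - j i) + 1) : Finset (Fin m → Fin (k + 1) → ℕ)) =>
            F₀ p.1 p.2) := logHeight_nonneg _
  have hHN : ∀ P : ∀ t, (W t).Pt, 0 ≤ HN P := fun P =>
    Finset.sum_nonneg fun t _ => logHeight_nonneg _
  have hsig : ∀ i, ∑ t, logHeight₁ (σ (i, t)) = Module.finrank K L * HN (P i) := by
    intro i
    unfold HN
    rw [Finset.mul_sum]
    refine Finset.sum_congr rfl fun t _ => ?_
    rw [L_CH_height (hch i t)]
    exact logHeight₁_algebraMap (s i t)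
  have hgJ : gj j (fun i t => σ (i, t)) (fun i => aeval (fun t => σ (i, t)) ((ρ i).z 0)) =
      Module.finrank K L * gj j s (fun i => eval (s i) ((ρ i).z 0)) := by
    rw [← gj_map j s _ hz0]
    congr 1
    funext i
    exact haev i _
  have hgL : ∀ i, (4 : ℝ) ^ j i * gj j (fun i t => σ (i, t))
      (fun i => aeval (fun t => σ (i, t)) ((ρ i).z 0)) =
      Module.finrank K L * (4 ^ j i * gj j s (fun i => eval (s i) ((ρ i).z 0))) := by
    intro i
    rw [hgJ]
    ring
  have hgBJ : gBJ (fun t => (W t).isTor) (2 * N) j (fun i t => σ (i, t))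
      (fun i => aeval (fun t => σ (i, t)) ((ρ i).z 0)) =
      Module.finrank K L * gBJ (fun t => (W t).isTor) (2 * N) j s
        (fun i => eval (s i) ((ρ i).z 0)) := by
    rw [← gBJ_map (fun t => (W t).isTor) (N := 2 * (N : ℝ)) (by positivity) j s _ hz0]
    congr 1
    funext i
    exact haev i _
  have hgs1 : gs (fun _ : AbsoluteValue L ℝ => Real.log 1) = 0 := by
    unfold gs
    simp
  rw [hL] at key
  refine hconv (Module.finrank K L) _ (HN P₀) (∑ t, logHeight₁ (x0 t))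
    (∑ t, gs (fun v : AbsoluteValue L ℝ => Real.log (kc (W t) v))) J j (fun _ => 0)
    _ _ _ _ (fun i => (ρ i).ht) (fun i => ∑ t, logHeight₁ (q (i, t)))
    (fun i => 2 * ((4 : ℝ) ^ j i * gBJ (fun t => (W t).isTor) (2 * N) j (fun i t => σ (i, t))
          (fun i => aeval (fun t => σ (i, t)) ((ρ i).z 0))))
    (fun _ => gs (fun _ : AbsoluteValue L ℝ => Real.log 1))
    (fun i => - gs (fun v => Real.log (RR i v))) a hd hlF (hHN P₀)
    (fun i => Finset.sum_nonneg fun t _ => logHeight_nonneg _) (fun i => hHN (P i)) hJ hht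
    hh0 hk (fun i => hh1 (P i) (j i) (h1 i)) (fun i => by rw [hgBJ]; ring)
    (fun i => by rw [hgs1, mul_zero, sub_zero]; positivity) ?_ key
  intro i
  have e1 : - gs (fun v => Real.log (RR i v)) = _ := (hrr i).2.2
  have e13 : gs (fun v : AbsoluteValue L ℝ =>
      Real.log (1 * ro W v (fun t => σ (i, t)) (fun t => β (i, t)))) =
      gs (fun v : AbsoluteValue L ℝ => Real.log (ro W v (fun t => σ (i, t)) (fun t => β (i, t)))) := by
    simp only [one_mul]
  have e2 := (hro i).2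
  rw [hsig i] at e2
  have e3 := hh1 (P i) (j i) (h1 i)
  have e4 := (gj_le_ht j s (fun i => eval (s i) ((ρ i).z 0)) hz0 i).trans
    (ht_val (ρ i) (hD i) (s i) 0)
  have e5 : ∑ t, logHeight₁ (s i t) = HN (P i) := by
    unfold HN
    exact Finset.sum_congr rfl fun t _ => (L_CH_height (hch i t)).symm
  rw [e5] at e4
  have e6 : (1 : ℝ) ≤ 4 ^ j i := one_le_pow₀ (by norm_num)
  have e7 := hht i
  have e8 := hHN (P i)
  rw [e13, e2, hgL i] at e1
  have e9 : (Module.finrank K L : ℝ) *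
      (4 ^ j i * gj j s (fun i => eval (s i) ((ρ i).z 0))) ≤
      Module.finrank K L * (4 ^ j i + D * HN (P i)) :=
    mul_le_mul_of_nonneg_left (by linarith) hd.le
  have e10 : 240 * ∑ t, gs (fun v : AbsoluteValue L ℝ => Real.log (kc (W t) v)) ≤
      Module.finrank K L * (240 * Ck * 4 ^ j i) := by
    have : Ck ≤ Ck * 4 ^ j i := le_mul_of_one_le_right hCk e6
    nlinarith [mul_le_mul_of_nonneg_left this hd.le]
  have e11 : 0 ≤ (240 * Ck + Ch + 1) * HN (P i) := by positivity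
  have e12 : 0 ≤ (D + 4 : ℝ) * 4 ^ j i := by positivity
  have e14 := mul_nonneg hd.le (add_nonneg e11 e12)
  show - gs (fun v => Real.log (RR i v)) ≤ _
  rw [e1]
  have e15 : (Module.finrank K L : ℝ) * (4 ^ j i + D * HN (P i)) +
      Module.finrank K L * (240 * Ck * 4 ^ j i) + 4 * (Module.finrank K L * HN (P i)) +
      Module.finrank K L * (2 * ∑ t, logHeight ((W t).xr (P i t - (W t).ml (j i) (P₀ t))) + Ch * 4 ^ j i) +
      Module.finrank K L * ((240 * Ck + Ch + 1) * HN (P i) + (D + 4 : ℝ) * 4 ^ j i) =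
      Module.finrank K L * ((240 * Ck + Ch + D + 5) * (4 ^ j i + HN (P i)) +
        2 * ∑ t, logHeight ((W t).xr (P i t - (W t).ml (j i) (P₀ t)))) := by
    ring
  linarith

end Pool.Agent.Lib.MP_17a322_nt.VG.JG
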