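import Pool.Agent.Lib.MP_17a322_nt.VDG.LE
import Pool.Agent.Lib.MP_17a322_nt.VDL.LF0
import Pool.Agent.Lib.MP_17a322_nt.VG.L1u0
import Pool.Agent.Lib.MP_17a322_nt.VG.LInt

/-!
The value of the auxiliary polynomial at the joint point; the radius; the bound of the joint gain.
-/

universe u

namespace Pool.Agent.Lib.MP_17a322_nt.VG.JG

open MvPolynomial Height
open Pool.Agent.Lib.MP_17a322_nt.RO
open Pool.Agent.Lib.MP_17a322_nt.VJ
open Pool.Agent.Lib.MP_17a322_nt.VN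
open Pool.Agent.Lib.MP_17a322_nt.VDL

/-- The relations at the joint point. -/
theorem joint_al {K L : Type*} [Field K] [Field L] [Algebra K L] {m n : ℕ}
    (W : Fin n → CT K) (χ : Fin n → Bool) (j : Fin m → ℕ) (x0 : Fin n → L)
    (S Z : Fin m × Fin n → PowerSeries L)
    (hrel : ∀ p : Fin m × Fin n, S3 (W p.2) (mu (W p.2) (j p.1) ![PowerSeries.C (x0 p.2), 1])
      (vc (χ p.2) (S p)) ![Z p, 1] = 0) (p : Fin m × Fin n) :
    aeval (Sum.elim (fun t => PowerSeries.C (x0 t)) (Sum.elim S Z) : VL m n → PowerSeries L)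
      (al W χ j p) = 0 := by
  rw [aeval_al]
  exact hrel p

/-- The chain of divisibilities at the joint point. -/
theorem joint_dvd {K : Type u} [Field K] {m n : ℕ} (W : Fin n → CT K)
    (χ : Fin n → Bool) (j : Fin m → ℕ) (NN : Fin (m + 1) → MvPolynomial (VL m n) K)
    (hlast : ∀ p, (NN (Fin.last m)).degreeOf (vZ p) = 0)
    (hN : ∀ (i : Fin m) (A : Type u) [CommRing A] [Algebra K A] (x : VL m n → A),
      (∀ t, aeval x (al W χ j (i, t)) = 0) →
        aeval x (NN i.castSucc) ∣ aeval x (NN i.succ))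
    {A : Type u} [CommRing A] [Algebra K A] (x : Fin n → A) (S Z Z' : Fin m × Fin n → A)
    (hal : ∀ p, aeval (Sum.elim x (Sum.elim S Z) : VL m n → A) (al W χ j p) = 0) :
    aeval (Sum.elim x (Sum.elim S Z) : VL m n → A) (NN 0) ∣
      aeval (Sum.elim x (Sum.elim S Z') : VL m n → A) (NN (Fin.last m)) := by
  have h1 : ∀ i : Fin (m + 1), aeval (Sum.elim x (Sum.elim S Z) : VL m n → A) (NN 0) ∣
      aeval (Sum.elim x (Sum.elim S Z) : VL m n → A) (NN i) := by
    intro i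
    induction i using Fin.induction with
    | zero => exact dvd_rfl
    | succ i ih => exact ih.trans (hN i A _ fun t => hal (i, t))
  refine (h1 (Fin.last m)).trans (dvd_of_eq ?_)
  refine aeval_congr_of_degreeOf _ _ _ fun v hv => ?_
  rcases v with t | p | p
  · rfl
  · rfl
  · exact absurd (hlast p) hv

/-- The radius of one block. -/
theorem rr_joint {K : Type u} [Field K] [NumberField K] {m n : ℕ}
    (W : Fin n → CT K) {L : Type u} [Field L] [NumberField L] [Algebra K L]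
    (j : Fin m → ℕ) (σ : Fin m → Fin n → L) (q : Fin n → L) (b : Fin m → L) (hb : ∀ i, b i ≠ 0)
    (i : Fin m) (A : AbsoluteValue L ℝ → ℝ)
    (hA : ∀ v, 0 < A v ∧ A v ≤ 1) (hAF : FS fun v => Real.log (A v)) :
    (∀ v : AbsoluteValue L ℝ, 0 < dj j σ b v ^ (4 ^ j i) * A v /
        ((∏ t, kc (W t) v) ^ 200 * ∏ t, max 1 (v (q t))) ∧
      dj j σ b v ^ (4 ^ j i) * A v / ((∏ t, kc (W t) v) ^ 200 * ∏ t, max 1 (v (q t))) ≤ A v ∧
      dj j σ b v ^ (4 ^ j i) * A v / ((∏ t, kc (W t) v) ^ 200 * ∏ t, max 1 (v (q t))) *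
        ((∏ t, kc (W t) v) ^ 200 * ∏ t, max 1 (v (q t))) = dj j σ b v ^ (4 ^ j i) * A v) ∧
    (FS fun v : AbsoluteValue L ℝ => Real.log (dj j σ b v ^ (4 ^ j i) * A v /
        ((∏ t, kc (W t) v) ^ 200 * ∏ t, max 1 (v (q t))))) ∧
    - gs (fun v : AbsoluteValue L ℝ => Real.log (dj j σ b v ^ (4 ^ j i) * A v /
        ((∏ t, kc (W t) v) ^ 200 * ∏ t, max 1 (v (q t))))) =
      4 ^ j i * gj j σ b + - gs (fun v => Real.log (A v)) +
        200 * ∑ t, gs (fun v : AbsoluteValue L ℝ => Real.log (kc (W t) v)) +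
        ∑ t, logHeight₁ (q t) := by
  have hkc : ∀ v : AbsoluteValue L ℝ, 1 ≤ ∏ t, kc (W t) v := fun v =>
    E1_one_le_prod _ _ fun t => one_le_kc (W t) v
  have hq : ∀ v : AbsoluteValue L ℝ, 1 ≤ ∏ t, max 1 (v (q t)) := fun v =>
    E1_one_le_prod _ _ fun t => le_max_left _ _
  have hD : ∀ v : AbsoluteValue L ℝ,
      1 ≤ (∏ t, kc (W t) v) ^ 200 * ∏ t, max 1 (v (q t)) := fun v =>
    one_le_mul_of_one_le_of_one_le (one_le_pow₀ (hkc v)) (hq v)
  have hd0 : ∀ v : AbsoluteValue L ℝ, 0 < dj j σ b v ^ (4 ^ j i) := fun v =>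
    pow_pos (dj_pos j σ b v).1 _
  have hd1 : ∀ v : AbsoluteValue L ℝ, dj j σ b v ^ (4 ^ j i) ≤ 1 := fun v =>
    pow_le_one₀ (dj_pos j σ b v).1.le (dj_pos j σ b v).2
  have hlog : (fun v : AbsoluteValue L ℝ => Real.log (dj j σ b v ^ (4 ^ j i) * A v /
        ((∏ t, kc (W t) v) ^ 200 * ∏ t, max 1 (v (q t))))) =
      fun v : AbsoluteValue L ℝ => ((4 : ℝ) ^ j i * Real.log (dj j σ b v) + Real.log (A v)) -
        (200 * ∑ t, Real.log (kc (W t) v) + ∑ t, Real.log (max 1 (v (q t)))) := by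
    funext v
    have h1 := hd0 v
    have h2 := (hA v).1
    have h3 : 0 < ∏ t, kc (W t) v := lt_of_lt_of_le one_pos (hkc v)
    have h4 : 0 < ∏ t, max 1 (v (q t)) := lt_of_lt_of_le one_pos (hq v)
    rw [Real.log_div (mul_pos h1 h2).ne' (mul_pos (pow_pos h3 200) h4).ne',
      Real.log_mul h1.ne' h2.ne', Real.log_mul (pow_pos h3 200).ne' h4.ne', Real.log_pow,
      Real.log_pow,
      Real.log_prod (fun t _ => (lt_of_lt_of_le one_pos (one_le_kc (W t) v)).ne'),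
      Real.log_prod (fun t _ => (lt_of_lt_of_le one_pos (le_max_left 1 (v (q t)))).ne')]
    push_cast
    rfl
  have F1 : FS fun v : AbsoluteValue L ℝ => ∑ t, Real.log (kc (W t) v) :=
    FS_sum _ fun t _ => FS_log_kc (W t)
  have F2 : FS fun v : AbsoluteValue L ℝ => ∑ t, Real.log (max 1 (v (q t))) :=
    FS_sum _ fun t _ => FS_log_max (q t)
  have F3 := FS_const_mul ((4 : ℝ) ^ j i) (gs_log_dj j σ b hb).1
  refine ⟨fun v => ⟨?_, ?_, ?_⟩, ?_, ?_⟩
  · exact div_pos (mul_pos (hd0 v) (hA v).1) (lt_of_lt_of_le one_pos (hD v))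
  · refine (div_le_self (mul_pos (hd0 v) (hA v).1).le (hD v)).trans ?_
    exact mul_le_of_le_one_left (hA v).1.le (hd1 v)
  · exact div_mul_cancel₀ _ (lt_of_lt_of_le one_pos (hD v)).ne'
  · rw [hlog]
    exact FS_sub (FS_add F3 hAF) (FS_add (FS_const_mul 200 F1) F2)
  · rw [hlog, gs_sub (FS_add F3 hAF) (FS_add (FS_const_mul 200 F1) F2), gs_add F3 hAF,
      gs_add (FS_const_mul 200 F1) F2, gs_const_mul, gs_const_mul, (gs_log_dj j σ b hb).2,
      gs_sum _ (fun t _ => FS_log_kc (W t)), gs_sum _ (fun t _ => FS_log_max (q t))]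
    simp only [gs_log_max]
    ring

end Pool.Agent.Lib.MP_17a322_nt.VG.JG
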